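import Pool.Agent.Work.MP_3892ce_num.CaseA
import Pool.Agent.Work.MP_3892ce_num.FA1a
import Pool.Agent.Work.MP_3892ce_num.FA1b1
import Pool.Agent.Work.MP_3892ce_num.FA1b2
import Pool.Agent.Work.MP_3892ce_data.A1a
import Pool.Agent.Work.MP_3892ce_data.A1b1
import Pool.Agent.Work.MP_3892ce_data.A1b2

/-! # Case A1: the further facets have relative area at least `1/250` (helper74) -/

set_option autoImplicit false
set_option maxRecDepth 100000

open Finset Real MeasureTheory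

namespace Pool.Agent.Work.MP_3892ce_num

open Pool.Agent.Work.MP_3892ce_static
open Pool.Agent.Work.MP_3892ce_str

/-- order `x_0 ≥ x_1 ≥ x_2`, `x_3 ≥ x_4`, all at least `x_5` -/
def relS (i j : ℕ) : Bool := i == j || j == 5 || (i == 0 && (j == 1 || j == 2)) ||
  (i == 1 && j == 2) || (i == 3 && j == 4)

/-- order `x_0 ≥ x_1`, all at least `x_5` -/
def relO (i j : ℕ) : Bool := i == j || j == 5 || (i == 0 && j == 1)

/-- all at least `x_5` -/
def relN (i j : ℕ) : Bool := i == j || j == 5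

theorem famsA1a : Pool.Agent.Work.MP_3892ce_data.A1a.P.fams = A1a.specs.map (Spec.fam' A1a.D) := by
  decide +kernel

theorem famsA1b1 : Pool.Agent.Work.MP_3892ce_data.A1b1.P.fams =
    A1b1.specs.map (Spec.fam A1b1.D) := by
  decide +kernel

theorem famsA1b2 : Pool.Agent.Work.MP_3892ce_data.A1b2.P.fams =
    A1b2.specs.map (Spec.fam A1b2.D) := by
  decide +kernel

theorem rootA1a : rootOk Pool.Agent.Work.MP_3892ce_data.A1a.P
    Pool.Agent.Work.MP_3892ce_data.A1a.cell relS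
    [(0, 708), (0, 708), (0, 708), (0, 708), (0, 708), (0, 142)] = true := by
  decide +kernel

theorem rootA1b1 : rootOk Pool.Agent.Work.MP_3892ce_data.A1b1.P
    Pool.Agent.Work.MP_3892ce_data.A1b1.cell relO
    [(141, 708), (141, 708), (141, 708), (141, 708), (141, 708), (141, 708)] = true := by
  decide +kernel

theorem rootA1b2 : rootOk Pool.Agent.Work.MP_3892ce_data.A1b2.P
    Pool.Agent.Work.MP_3892ce_data.A1b2.cell relS
    [(141, 708), (141, 708), (141, 708), (141, 708), (141, 708), (141, 708)] = true := by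
  decide +kernel

/-- sorting -/
theorem sort5 (f : Fin 5 → ℝ) : ∃ σ τ : Fin 5 → Fin 5, (∀ k, σ (τ k) = k) ∧ (∀ k, τ (σ k) = k) ∧
    (∀ i j : Fin 5, i < j → ¬ (i = 3 ∧ j = 4) → FILL.Nine (σ i) (σ j)) ∧
    (∀ a : Fin 5, (σ a).1 ∈ [0, 1, 2] → a.1 ∈ [0, 1, 2]) ∧
    f (σ 1) ≤ f (σ 0) ∧ f (σ 2) ≤ f (σ 1) ∧ f (σ 4) ≤ f (σ 3) := by
  rcases le_total (f 0) (f 1) with h01 | h01 <;> rcases le_total (f 1) (f 2) with h12 | h12 <;>
    rcases le_total (f 0) (f 2) with h02 | h02 <;> rcases le_total (f 3) (f 4) with h34 | h34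
  -- f0 ≤ f1 ≤ f2
  · exact ⟨![2, 1, 0, 4, 3], ![2, 1, 0, 4, 3], by decide, by decide, by decide, by decide,
      h12, h01, h34⟩
  · exact ⟨![2, 1, 0, 3, 4], ![2, 1, 0, 3, 4], by decide, by decide, by decide, by decide,
      h12, h01, h34⟩
  · exact ⟨![2, 1, 0, 4, 3], ![2, 1, 0, 4, 3], by decide, by decide, by decide, by decide,
      h12, h01, h34⟩
  · exact ⟨![2, 1, 0, 3, 4], ![2, 1, 0, 3, 4], by decide, by decide, by decide, by decide,
      h12, h01, h34⟩
  -- f0 ≤ f1, f2 ≤ f1, f0 ≤ f2 : 1, 2, 0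
  · exact ⟨![1, 2, 0, 4, 3], ![2, 0, 1, 4, 3], by decide, by decide, by decide, by decide,
      h12, h02, h34⟩
  · exact ⟨![1, 2, 0, 3, 4], ![2, 0, 1, 3, 4], by decide, by decide, by decide, by decide,
      h12, h02, h34⟩
  -- 1, 0, 2
  · exact ⟨![1, 0, 2, 4, 3], ![1, 0, 2, 4, 3], by decide, by decide, by decide, by decide,
      h01, h02, h34⟩
  · exact ⟨![1, 0, 2, 3, 4], ![1, 0, 2, 3, 4], by decide, by decide, by decide, by decide,
      h01, h02, h34⟩
  -- f1 ≤ f0, f1 ≤ f2, f0 ≤ f2 : 2, 0, 1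
  · exact ⟨![2, 0, 1, 4, 3], ![1, 2, 0, 4, 3], by decide, by decide, by decide, by decide,
      h02, h01, h34⟩
  · exact ⟨![2, 0, 1, 3, 4], ![1, 2, 0, 3, 4], by decide, by decide, by decide, by decide,
      h02, h01, h34⟩
  -- 0, 2, 1
  · exact ⟨![0, 2, 1, 4, 3], ![0, 2, 1, 4, 3], by decide, by decide, by decide, by decide,
      h02, h12, h34⟩
  · exact ⟨![0, 2, 1, 3, 4], ![0, 2, 1, 3, 4], by decide, by decide, by decide, by decide,
      h02, h12, h34⟩
  -- 0, 1, 2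
  · exact ⟨![0, 1, 2, 4, 3], ![0, 1, 2, 4, 3], by decide, by decide, by decide, by decide,
      h01, h12, h34⟩
  · exact ⟨![0, 1, 2, 3, 4], ![0, 1, 2, 3, 4], by decide, by decide, by decide, by decide,
      h01, h12, h34⟩
  · exact ⟨![0, 1, 2, 4, 3], ![0, 1, 2, 4, 3], by decide, by decide, by decide, by decide,
      h01, h12, h34⟩
  · exact ⟨![0, 1, 2, 3, 4], ![0, 1, 2, 3, 4], by decide, by decide, by decide, by decide,
      h01, h12, h34⟩

/-- the neighbours of the sixth facet become `{0, 1, 3}` -/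
theorem sortN (f : Fin 5 → ℝ) (N : List ℕ) (hN : N ∈ ns7) : N = [0, 1, 2] ∨
    ∃ σ τ : Fin 5 → Fin 5, (∀ k, σ (τ k) = k) ∧ (∀ k, τ (σ k) = k) ∧
    (∀ i j : Fin 5, i < j → ¬ (i = 3 ∧ j = 4) → FILL.Nine (σ i) (σ j)) ∧
    (∀ a : Fin 5, (σ a).1 ∈ N → a.1 ∈ [0, 1, 3]) ∧ f (σ 1) ≤ f (σ 0) := by
  simp only [ns7, List.mem_cons, List.not_mem_nil, or_false] at hN
  rcases hN with rfl | rfl | rfl | rfl | rfl | rfl | rfl
  · exact Or.inl rfl
  · right
    rcases le_total (f 0) (f 1) with h | h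
    · exact ⟨![1, 0, 2, 3, 4], ![1, 0, 2, 3, 4], by decide, by decide, by decide, by decide, h⟩
    · exact ⟨![0, 1, 2, 3, 4], ![0, 1, 2, 3, 4], by decide, by decide, by decide, by decide, h⟩
  · right
    rcases le_total (f 0) (f 2) with h | h
    · exact ⟨![2, 0, 1, 3, 4], ![1, 2, 0, 3, 4], by decide, by decide, by decide, by decide, h⟩
    · exact ⟨![0, 2, 1, 3, 4], ![0, 2, 1, 3, 4], by decide, by decide, by decide, by decide, h⟩
  · right
    rcases le_total (f 1) (f 2) with h | h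
    · exact ⟨![2, 1, 0, 3, 4], ![2, 1, 0, 3, 4], by decide, by decide, by decide, by decide, h⟩
    · exact ⟨![1, 2, 0, 3, 4], ![2, 0, 1, 3, 4], by decide, by decide, by decide, by decide, h⟩
  · right
    rcases le_total (f 0) (f 1) with h | h
    · exact ⟨![1, 0, 2, 4, 3], ![1, 0, 2, 4, 3], by decide, by decide, by decide, by decide, h⟩
    · exact ⟨![0, 1, 2, 4, 3], ![0, 1, 2, 4, 3], by decide, by decide, by decide, by decide, h⟩
  · right
    rcases le_total (f 0) (f 2) with h | h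
    · exact ⟨![2, 0, 1, 4, 3], ![1, 2, 0, 4, 3], by decide, by decide, by decide, by decide, h⟩
    · exact ⟨![0, 2, 1, 4, 3], ![0, 2, 1, 4, 3], by decide, by decide, by decide, by decide, h⟩
  · right
    rcases le_total (f 1) (f 2) with h | h
    · exact ⟨![2, 1, 0, 4, 3], ![2, 1, 0, 4, 3], by decide, by decide, by decide, by decide, h⟩
    · exact ⟨![1, 2, 0, 4, 3], ![2, 0, 1, 4, 3], by decide, by decide, by decide, by decide, h⟩

section instA1

variable {ι : Type} [Fintype ι] [DecidableEq ι] {n : ι → E 3} {b : ι → ℝ}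
  {U : ι → (E 2 →ₗᵢ[ℝ] E 3)}

theorem tail_le_one (hU : ∀ i, Frame (n i) (U i)) (hI : Irr n b) {m : Fin 5 → ι}
    (hm : Function.Injective m) : tail n b U m ≤ 1 := by
  have h1 := sum_split hm (al n b U)
    (fun i => if h : i < 5 then al n b U (m ⟨i, h⟩) else 0) (fun i => by simp)
  rw [sum_al hU hI] at h1
  have h2 : 0 ≤ ∑ i ∈ Finset.range 5, (if h : i < 5 then al n b U (m ⟨i, h⟩) else 0) := by
    refine Finset.sum_nonneg fun i _ => ?_
    split_ifs
    · exact (al_pos hU hI _).le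
    · exact le_refl _
  have h3 : tail n b U m = ∑ a : {a : ι // a ∉ Set.range m}, al n b U a.1 := rfl
  rw [h3]
  linarith

/-- the sorted case, sixth facet small -/
theorem boundA1a (hU : ∀ i, Frame (n i) (U i)) (hI : Irr n b) {m : Fin 5 → ι}
    (hL : Largest n b U m) (h9 : NinePairs n b m) (hτ : 1 / 250 ≤ tail n b U m) {i0 : ι}
    (hi0 : i0 ∉ Set.range m) (hmax : ∀ a, a ∉ Set.range m → al n b U a ≤ al n b U i0)
    (hsm : al n b U i0 ≤ 1 / 50) (h01 : al n b U (m 1) ≤ al n b U (m 0))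
    (h12 : al n b U (m 2) ≤ al n b U (m 1)) (h34 : al n b U (m 4) ≤ al n b U (m 3)) :
    1684 * (volume (HP n b)).toReal ≤ L n b ^ 3 := by
  have hx := xs_spec (n := n) (b := b) (U := U) m i0
  have x0 : xs n b U m i0 0 = √(al n b U (m 0)) := xs_cast m i0 0
  have x1 : xs n b U m i0 1 = √(al n b U (m 1)) := xs_cast m i0 1
  have x2 : xs n b U m i0 2 = √(al n b U (m 2)) := xs_cast m i0 2
  have x3 : xs n b U m i0 3 = √(al n b U (m 3)) := xs_cast m i0 3
  have x4 : xs n b U m i0 4 = √(al n b U (m 4)) := xs_cast m i0 4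
  have x5 : xs n b U m i0 5 = √(al n b U i0) := xs_last m i0
  have e01 : xs n b U m i0 1 ≤ xs n b U m i0 0 := by
    rw [x0, x1]; exact Real.sqrt_le_sqrt h01
  have e12 : xs n b U m i0 2 ≤ xs n b U m i0 1 := by
    rw [x2, x1]; exact Real.sqrt_le_sqrt h12
  have e34 : xs n b U m i0 4 ≤ xs n b U m i0 3 := by
    rw [x3, x4]; exact Real.sqrt_le_sqrt h34
  refine run5 hU hI (Eng.checkF_sound _ _ _ Pool.Agent.Work.MP_3892ce_data.A1a.checkF_ok) rootA1a
    (na := [(3, 4)]) (ns := ns7) (cor := []) A1a.specs_ok famsA1a rfl hL (hna5 hI hL.1 h9)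
    (fun i hi => nbr7 hI hL.1 h9 hi) (fun _ => 0)
    ⟨List.nodup_nil, fun j hj => absurd hj (Nat.not_lt_zero j)⟩ hi0 hmax
    (xs n b U m i0) hx ?_ ?_ ?_ ?_ ?_ ?_
  · intro i hi
    have h1 := xs_nonneg (n := n) (b := b) (U := U) m i0 i
    have h2 := xs_le hU hI m i0 i hi
    have h5 : 1000 * xs n b U m i0 5 ≤ 142 := by
      rw [x5]
      have h6 : √(al n b U i0) ≤ 0.142 := by
        rw [Real.sqrt_le_iff]
        exact ⟨by norm_num, hsm.trans (by norm_num)⟩
      linarith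
    interval_cases i <;> simp only [List.getD_cons_zero, List.getD_cons_succ] <;> push_cast <;>
      constructor <;> linarith
  · intro i hi j hj
    simp only [relS, Bool.or_eq_true, Bool.and_eq_true, beq_iff_eq] at hj
    rcases hj with (((rfl | rfl) | ⟨rfl, (rfl | rfl)⟩) | ⟨rfl, rfl⟩) | ⟨rfl, rfl⟩
    · exact le_refl _
    · exact xs_last_le hU hI hL hi0 i hi
    · exact e01
    · exact e12.trans e01
    · exact e12
    · exact e34
  · intro j hj
    exact absurd hj (Nat.not_lt_zero j)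
  · simp [Pool.Agent.Work.MP_3892ce_data.A1a.P]
  · simp only [Pool.Agent.Work.MP_3892ce_data.A1a.cell]
    push_cast
    linarith
  · simp only [Pool.Agent.Work.MP_3892ce_data.A1a.cell]
    push_cast
    have := tail_le_one hU hI hL.1
    linarith

omit [Fintype ι] [DecidableEq ι] in
theorem snoc_lt (m : Fin 5 → ι) (i0 : ι) (a : Fin 6) (h : a.1 < 5) :
    (Fin.snoc m i0 : Fin 6 → ι) a = m ⟨a.1, h⟩ := by
  have h1 : (Fin.snoc m i0 : Fin 6 → ι) (⟨a.1, h⟩ : Fin 5).castSucc = m ⟨a.1, h⟩ := by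
    rw [Fin.snoc_castSucc (α := fun _ => ι)]
  exact h1

omit [Fintype ι] [DecidableEq ι] in
theorem snoc_five (m : Fin 5 → ι) (i0 : ι) (a : Fin 6) (h : a.1 = 5) :
    (Fin.snoc m i0 : Fin 6 → ι) a = i0 := by
  have h1 : a = Fin.last 5 := Fin.ext h
  rw [h1, Fin.snoc_last (α := fun _ => ι)]

/-- facets which are not adjacent, six named facets -/
theorem hna6 (hI : Irr n b) {m : Fin 5 → ι} (hm : Function.Injective m)
    (h9 : NinePairs n b m) {i0 : ι} (p q : ℕ) (hp : ∀ a : Fin 5, a.1 = p → ¬ 0 < len n b i0 (m a))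
    (hq : ∀ a : Fin 5, a.1 = q → ¬ 0 < len n b i0 (m a)) (hp5 : p < 5) (hq5 : q < 5) :
    ∀ a c : Fin 6, (a.1, c.1) ∈ [((3 : ℕ), (4 : ℕ)), (5, p), (5, q)] ∨
      (c.1, a.1) ∈ [((3 : ℕ), (4 : ℕ)), (5, p), (5, q)] →
      len n b ((Fin.snoc m i0 : Fin 6 → ι) a) ((Fin.snoc m i0 : Fin 6 → ι) c) = 0 := by
  have key : ∀ a c : Fin 6, (a.1, c.1) ∈ [((3 : ℕ), (4 : ℕ)), (5, p), (5, q)] →
      len n b ((Fin.snoc m i0 : Fin 6 → ι) a) ((Fin.snoc m i0 : Fin 6 → ι) c) = 0 := by
    intro a c h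
    simp only [List.mem_cons, Prod.mk.injEq, List.not_mem_nil, or_false] at h
    rcases h with ⟨h1, h2⟩ | ⟨h1, h2⟩ | ⟨h1, h2⟩
    · rw [snoc_lt m i0 a (by omega), snoc_lt m i0 c (by omega)]
      have e1 : (⟨a.1, by omega⟩ : Fin 5) = 3 := Fin.ext h1
      have e2 : (⟨c.1, by omega⟩ : Fin 5) = 4 := Fin.ext h2
      rw [e1, e2]
      exact len_zero_of_not n b (len34 hI hm h9)
    · rw [snoc_five m i0 a h1, snoc_lt m i0 c (by omega)]
      exact len_zero_of_not n b (hp _ h2)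
    · rw [snoc_five m i0 a h1, snoc_lt m i0 c (by omega)]
      exact len_zero_of_not n b (hq _ h2)
  intro a c h
  rcases h with h | h
  · exact key a c h
  · rw [FILL.len_symm]
    exact key c a h

/-- sets of named neighbours of the further facets, six named facets -/
def ns7b : List (List ℕ) :=
  [[0, 1, 2, 5], [0, 1, 3, 5], [0, 2, 3, 5], [1, 2, 3, 5], [0, 1, 4, 5], [0, 2, 4, 5],
    [1, 2, 4, 5]]

theorem hns6 (hI : Irr n b) {m : Fin 5 → ι} (hm : Function.Injective m)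
    (h9 : NinePairs n b m) {i0 : ι} : ∀ i, i ∉ Set.range (Fin.snoc m i0 : Fin 6 → ι) →
      ∃ N ∈ ns7b, ∀ a : Fin 6, 0 < len n b i ((Fin.snoc m i0 : Fin 6 → ι) a) → a.1 ∈ N := by
  intro i hi
  obtain ⟨_, hi2⟩ := (notMem_snoc i).1 hi
  obtain ⟨N, hN, h⟩ := nbr7 hI hm h9 hi2
  have hb : ns7b = ns7.map fun N => N ++ [5] := by decide
  refine ⟨N ++ [5], ?_, fun a ha => ?_⟩
  · rw [hb]
    exact List.mem_map.2 ⟨N, hN, rfl⟩
  · rcases Nat.lt_or_ge a.1 5 with h5 | h5
    · rw [snoc_lt m i0 a h5] at ha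
      exact List.mem_append.2 (Or.inl (h _ ha))
    · have h6 : a.1 = 5 := by
        have := a.isLt
        omega
      rw [h6]
      exact List.mem_append.2 (Or.inr (List.mem_singleton.2 rfl))

/-- bounds of the coordinates if the sixth facet is large -/
theorem bxb (hU : ∀ i, Frame (n i) (U i)) (hI : Irr n b) {m : Fin 5 → ι}
    (hL : Largest n b U m) {i0 : ι} (hi0 : i0 ∉ Set.range m) (hbig : 1 / 50 ≤ al n b U i0) :
    ∀ i < 6, ((([(141, 708), (141, 708), (141, 708), (141, 708), (141, 708), (141, 708)] :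
      List (ℤ × ℤ)).getD i (0, 0)).1 : ℝ) ≤ 1000 * xs n b U m i0 i ∧
      1000 * xs n b U m i0 i ≤
        ((([(141, 708), (141, 708), (141, 708), (141, 708), (141, 708), (141, 708)] :
      List (ℤ × ℤ)).getD i (0, 0)).2 : ℝ) := by
  intro i hi
  have h1 := xs_last_le hU hI hL hi0 i hi
  have h2 := xs_le hU hI m i0 i hi
  have h3 : 141 ≤ 1000 * xs n b U m i0 5 := by
    rw [xs_last]
    have h6 : 0.141 ≤ √(al n b U i0) := by
      apply Real.le_sqrt_of_sq_le
      exact le_trans (by norm_num) hbig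
    linarith
  interval_cases i <;> simp only [List.getD_cons_zero, List.getD_cons_succ] <;> push_cast <;>
    constructor <;> linarith

/-- sixth facet large, with neighbours among `0, 1, 3` -/
theorem boundA1b1 (hU : ∀ i, Frame (n i) (U i)) (hI : Irr n b) {m : Fin 5 → ι}
    (hL : Largest n b U m) (h9 : NinePairs n b m) {i0 : ι}
    (hi0 : i0 ∉ Set.range m) (hmax : ∀ a, a ∉ Set.range m → al n b U a ≤ al n b U i0)
    (hbig : 1 / 50 ≤ al n b U i0) (h01 : al n b U (m 1) ≤ al n b U (m 0))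
    (hN : ∀ a : Fin 5, 0 < len n b i0 (m a) → a.1 ∈ [0, 1, 3]) :
    1684 * (volume (HP n b)).toReal ≤ L n b ^ 3 := by
  have x0 : xs n b U m i0 0 = √(al n b U (m 0)) := xs_cast m i0 0
  have x1 : xs n b U m i0 1 = √(al n b U (m 1)) := xs_cast m i0 1
  have e01 : xs n b U m i0 1 ≤ xs n b U m i0 0 := by
    rw [x0, x1]; exact Real.sqrt_le_sqrt h01
  refine run6 hU hI (Eng.checkF_sound _ _ _ Pool.Agent.Work.MP_3892ce_data.A1b1.checkF_ok)
    rootA1b1 (na := [(3, 4), (5, 2), (5, 4)]) (ns := ns7b) A1b1.specs_ok famsA1b1 rfl hL hi0 hmax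
    (hna6 hI hL.1 h9 2 4 ?_ ?_ (by norm_num) (by norm_num)) (hns6 hI hL.1 h9)
    (xs n b U m i0) (xs_spec m i0) (bxb hU hI hL hi0 hbig) ?_ ?_ ?_ ?_
  · intro a ha h
    have := hN a h
    rw [ha] at this
    exact absurd this (by decide)
  · intro a ha h
    have := hN a h
    rw [ha] at this
    exact absurd this (by decide)
  · intro i hi j hj
    simp only [relO, Bool.or_eq_true, Bool.and_eq_true, beq_iff_eq] at hj
    rcases hj with (rfl | rfl) | ⟨rfl, rfl⟩
    · exact le_refl _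
    · exact xs_last_le hU hI hL hi0 i hi
    · exact e01
  · exact le_refl _
  · simp only [Pool.Agent.Work.MP_3892ce_data.A1b1.cell]
    have : 0 ≤ tail n b U m := Finset.sum_nonneg fun a _ => (al_pos hU hI a.1).le
    push_cast
    linarith
  · simp only [Pool.Agent.Work.MP_3892ce_data.A1b1.cell]
    have := tail_le_one hU hI hL.1
    push_cast
    linarith

/-- sixth facet large, with neighbours among `0, 1, 2` -/
theorem boundA1b2 (hU : ∀ i, Frame (n i) (U i)) (hI : Irr n b) {m : Fin 5 → ι}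
    (hL : Largest n b U m) (h9 : NinePairs n b m) {i0 : ι}
    (hi0 : i0 ∉ Set.range m) (hmax : ∀ a, a ∉ Set.range m → al n b U a ≤ al n b U i0)
    (hbig : 1 / 50 ≤ al n b U i0) (h01 : al n b U (m 1) ≤ al n b U (m 0))
    (h12 : al n b U (m 2) ≤ al n b U (m 1)) (h34 : al n b U (m 4) ≤ al n b U (m 3))
    (hN : ∀ a : Fin 5, 0 < len n b i0 (m a) → a.1 ∈ [0, 1, 2]) :
    1684 * (volume (HP n b)).toReal ≤ L n b ^ 3 := by
  have x0 : xs n b U m i0 0 = √(al n b U (m 0)) := xs_cast m i0 0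
  have x1 : xs n b U m i0 1 = √(al n b U (m 1)) := xs_cast m i0 1
  have x2 : xs n b U m i0 2 = √(al n b U (m 2)) := xs_cast m i0 2
  have x3 : xs n b U m i0 3 = √(al n b U (m 3)) := xs_cast m i0 3
  have x4 : xs n b U m i0 4 = √(al n b U (m 4)) := xs_cast m i0 4
  have e01 : xs n b U m i0 1 ≤ xs n b U m i0 0 := by
    rw [x0, x1]; exact Real.sqrt_le_sqrt h01
  have e12 : xs n b U m i0 2 ≤ xs n b U m i0 1 := by
    rw [x2, x1]; exact Real.sqrt_le_sqrt h12
  have e34 : xs n b U m i0 4 ≤ xs n b U m i0 3 := by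
    rw [x3, x4]; exact Real.sqrt_le_sqrt h34
  refine run6 hU hI (Eng.checkF_sound _ _ _ Pool.Agent.Work.MP_3892ce_data.A1b2.checkF_ok)
    rootA1b2 (na := [(3, 4), (5, 3), (5, 4)]) (ns := ns7b) A1b2.specs_ok famsA1b2 rfl hL hi0 hmax
    (hna6 hI hL.1 h9 3 4 ?_ ?_ (by norm_num) (by norm_num)) (hns6 hI hL.1 h9)
    (xs n b U m i0) (xs_spec m i0) (bxb hU hI hL hi0 hbig) ?_ ?_ ?_ ?_
  · intro a ha h
    have := hN a h
    rw [ha] at this
    exact absurd this (by decide)
  · intro a ha h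
    have := hN a h
    rw [ha] at this
    exact absurd this (by decide)
  · intro i hi j hj
    simp only [relS, Bool.or_eq_true, Bool.and_eq_true, beq_iff_eq] at hj
    rcases hj with (((rfl | rfl) | ⟨rfl, (rfl | rfl)⟩) | ⟨rfl, rfl⟩) | ⟨rfl, rfl⟩
    · exact le_refl _
    · exact xs_last_le hU hI hL hi0 i hi
    · exact e01
    · exact e12.trans e01
    · exact e12
    · exact e34
  · exact le_refl _
  · simp only [Pool.Agent.Work.MP_3892ce_data.A1b2.cell]
    have : 0 ≤ tail n b U m := Finset.sum_nonneg fun a _ => (al_pos hU hI a.1).le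
    push_cast
    linarith
  · simp only [Pool.Agent.Work.MP_3892ce_data.A1b2.cell]
    have := tail_le_one hU hI hL.1
    push_cast
    linarith

end instA1

/-- **case A1** -/
theorem stmt_A1 : Stmt_A1 (1 / 250) := by
  intro ι _ _ n b U hU hI m hL h9 hτ
  classical
  have hex : ∃ a, a ∉ Set.range m := by
    by_contra hcon
    push Not at hcon
    have h0 : tail n b U m = 0 := by
      refine Finset.sum_eq_zero fun a _ => ?_
      exact absurd (hcon a.1) a.2
    rw [h0] at hτ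
    norm_num at hτ
  obtain ⟨i0, hi0, hmax⟩ := exists_i0 (n := n) (b := b) (U := U) hex
  -- the sorted numbering
  have hsort : (al n b U i0 ≤ 1 / 50 ∨ (1 / 50 ≤ al n b U i0 ∧
      ∀ a : Fin 5, 0 < len n b i0 (m a) → a.1 ∈ [0, 1, 2])) →
      1684 * (volume (HP n b)).toReal ≤ L n b ^ 3 := by
    intro hc
    obtain ⟨σ, τ, s1, s2, s3, s4, g1, g2, g3⟩ := sort5 (fun k => al n b U (m k))
    obtain ⟨r1, r2, r3, r4⟩ := relab hL h9 σ τ s1 s2 s3
    have hi0' : i0 ∉ Set.range (fun k => m (σ k)) := by rw [r3]; exact hi0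
    have hmax' : ∀ a, a ∉ Set.range (fun k => m (σ k)) → al n b U a ≤ al n b U i0 := by
      intro a ha
      rw [r3] at ha
      exact hmax a ha
    rcases hc with hc | ⟨hc, hN⟩
    · exact boundA1a hU hI r1 r2 (by rw [r4]; exact hτ) hi0' hmax' hc g1 g2 g3
    · exact boundA1b2 hU hI r1 r2 hi0' hmax' hc g1 g2 g3 fun a ha => s4 a (hN _ ha)
  rcases le_total (al n b U i0) (1 / 50) with hsm | hbig
  · exact hsort (Or.inl hsm)
  · obtain ⟨N, hN, hnb⟩ := nbr7 hI hL.1 h9 hi0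
    rcases sortN (fun k => al n b U (m k)) N hN with rfl | ⟨σ, τ, s1, s2, s3, s4, g1⟩
    · exact hsort (Or.inr ⟨hbig, hnb⟩)
    · obtain ⟨r1, r2, r3, r4⟩ := relab hL h9 σ τ s1 s2 s3
      have hi0' : i0 ∉ Set.range (fun k => m (σ k)) := by rw [r3]; exact hi0
      have hmax' : ∀ a, a ∉ Set.range (fun k => m (σ k)) → al n b U a ≤ al n b U i0 := by
        intro a ha
        rw [r3] at ha
        exact hmax a ha
      exact boundA1b1 hU hI r1 r2 hi0' hmax' hbig g1 fun a ha => s4 a (hnb _ ha)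

end Pool.Agent.Work.MP_3892ce_num
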