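import Pool.Agent.Work.MP_3892ce_num.FR4_0
import Pool.Agent.Work.MP_3892ce_num.FR4_1

/-! # Melzak's problem, case A: families of the certificate R4 (generated) -/

set_option autoImplicit false
set_option maxRecDepth 100000

namespace Pool.Agent.Work.MP_3892ce_num.R4

def specs : List Spec := p0 ++ (p1)

theorem specs_ok : specs.all (specOk D) = true := by
  unfold specs
  simp only [List.all_append, p0_ok, p1_ok, Bool.and_self]

end Pool.Agent.Work.MP_3892ce_num.R4
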