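import Pool.Agent.Work.MP_3892ce_num.Nbr

/-! # The corners at a vertex of the five named half-spaces (helper74) -/

set_option autoImplicit false

open Finset Real MeasureTheory

namespace Pool.Agent.Work.MP_3892ce_num

open Pool.Agent.Work.MP_3892ce_static
open Pool.Agent.Work.MP_3892ce_str

section corn

variable {ι : Type} [Fintype ι] [DecidableEq ι] {n : ι → E 3} {b : ι → ℝ}
  {U : ι → (E 2 →ₗᵢ[ℝ] E 3)}

theorem norm_nu (hU : ∀ i, Frame (n i) (U i)) (hI : Irr n b) {p q : ι} (h : Adj n b p q) :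
    ‖nu n U p q‖ = 1 :=
  (Closed.STATN ι n b U hU hI).1 p q (len_pos_of_adj hI h)

/-- no normal at a vertex is a multiple of another one -/
theorem not_mul (hU : ∀ i, Frame (n i) (U i)) (hI : Irr n b) {p q r : ι} (hpq : Adj n b p q)
    (hpr : Adj n b p r) (hqr : Adj n b q r) {X : E 3} (hXp : inner ℝ (n p) X = b p)
    (hXq : inner ℝ (n q) X = b q) (hXr : inner ℝ (n r) X = b r) {c : ℝ}
    (h : nu n U p q = c • nu n U p r) : False := by
  set A := LinearMap.adjoint (U p).toLinearMap with hA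
  have h1 : ∀ k, Adj n b p k → A (n k) = ‖A (n k)‖ • nu n U p k := by
    intro k hk
    unfold Pool.Agent.Work.MP_3892ce_static.nu
    rw [← hA, smul_smul]
    by_cases h0 : A (n k) = 0
    · rw [h0]; simp
    · rw [mul_inv_cancel₀ (norm_ne_zero_iff.2 h0), one_smul]
  have hnr : ‖A (n r)‖ ≠ 0 := by
    intro h0
    have h2 := norm_nu hU hI hpr
    unfold Pool.Agent.Work.MP_3892ce_static.nu at h2
    rw [← hA, norm_eq_zero.1 h0, smul_zero, norm_zero] at h2
    exact zero_ne_one h2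
  set e : ℝ := ‖A (n q)‖ * c * ‖A (n r)‖⁻¹ with he
  have h2 : A (n q) = e • A (n r) := by
    rw [h1 q hpq, h]
    conv_rhs => rw [h1 r hpr]
    rw [smul_smul, smul_smul, he, mul_assoc _ ‖A (n r)‖⁻¹, inv_mul_cancel₀ hnr, mul_one]
  have h3 := CONE5.decomp (hU p) (n q - e • n r)
  have h4 : A (n q - e • n r) = 0 := by rw [map_sub, map_smul, h2, sub_self]
  rw [← hA, h4, map_zero, add_zero] at h3
  obtain ⟨_, z, hz1, hz2, hz3⟩ := hpr
  have hz4 := hz3 q hpq.1.symm hqr.1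
  have e1 : inner ℝ (n p) (z - X) = 0 := by rw [inner_sub_right, hz1, hXp, sub_self]
  have e2 : inner ℝ (n r) (z - X) = 0 := by rw [inner_sub_right, hz2, hXr, sub_self]
  have e3 : inner ℝ (n q) (z - X) < 0 := by rw [inner_sub_right, hXq]; linarith
  have e4 : inner ℝ (n q - e • n r) (z - X) = 0 := by
    rw [h3, real_inner_smul_left, e1, mul_zero]
  rw [inner_sub_left, real_inner_smul_left, e2] at e4
  linarith

/-- the angle at a corner is neither `0` nor `π` -/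
theorem inner_bds (hU : ∀ i, Frame (n i) (U i)) (hI : Irr n b) {p q r : ι} (hpq : Adj n b p q)
    (hpr : Adj n b p r) (hqr : Adj n b q r) {X : E 3} (hXp : inner ℝ (n p) X = b p)
    (hXq : inner ℝ (n q) X = b q) (hXr : inner ℝ (n r) X = b r) :
    -1 < inner ℝ (nu n U p q) (nu n U p r) ∧ inner ℝ (nu n U p q) (nu n U p r) < 1 := by
  have hq := norm_nu hU hI hpq
  have hr := norm_nu hU hI hpr
  have habs := abs_real_inner_le_norm (nu n U p q) (nu n U p r)
  rw [hq, hr, mul_one] at habs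
  obtain ⟨h1, h2⟩ := abs_le.1 habs
  constructor
  · refine lt_of_le_of_ne h1 fun h => ?_
    have h3 : inner ℝ (nu n U p q) (-nu n U p r) = (1 : ℝ) := by rw [inner_neg_right, ← h, neg_neg]
    have h4 := (inner_eq_one_iff_of_norm_eq_one hq (by rw [norm_neg, hr])).1 h3
    exact not_mul hU hI hpq hpr hqr hXp hXq hXr (c := -1) (by rw [h4, neg_smul, one_smul])
  · refine lt_of_le_of_ne h2 fun h => ?_
    have h4 := (inner_eq_one_iff_of_norm_eq_one hq hr).1 h
    exact not_mul hU hI hpq hpr hqr hXp hXq hXr (c := 1) (by rw [h4, one_smul])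

/-- sine of half of the face angle -/
noncomputable def sn (n : ι → E 3) (U : ι → (E 2 →ₗᵢ[ℝ] E 3)) (p q r : ι) : ℝ :=
  √((1 + inner ℝ (nu n U p q) (nu n U p r)) / 2)

omit [Fintype ι] [DecidableEq ι] in
theorem sn_symm (n : ι → E 3) (U : ι → (E 2 →ₗᵢ[ℝ] E 3)) (p q r : ι) :
    sn n U p q r = sn n U p r q := by
  unfold sn
  rw [real_inner_comm]

omit [Fintype ι] [DecidableEq ι] in
theorem sn_nonneg (n : ι → E 3) (U : ι → (E 2 →ₗᵢ[ℝ] E 3)) (p q r : ι) : 0 ≤ sn n U p q r :=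
  Real.sqrt_nonneg _

theorem sn_facts (hU : ∀ i, Frame (n i) (U i)) (hI : Irr n b) {p q r : ι} (hpq : Adj n b p q)
    (hpr : Adj n b p r) : sn n U p q r ≤ 1 ∧
      inner ℝ (nu n U p q) (nu n U p r) = 2 * sn n U p q r ^ 2 - 1 := by
  have hq := norm_nu hU hI hpq
  have hr := norm_nu hU hI hpr
  have habs := abs_real_inner_le_norm (nu n U p q) (nu n U p r)
  rw [hq, hr, mul_one] at habs
  obtain ⟨h1, h2⟩ := abs_le.1 habs
  constructor
  · unfold sn
    rw [Real.sqrt_le_iff]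
    constructor
    · norm_num
    · linarith
  · unfold sn
    rw [Real.sq_sqrt (by linarith)]
    ring

omit [Fintype ι] [DecidableEq ι] in
/-- vertex of the five half-spaces -/
theorem exists_vertex (hI : Irr n b) {m : Fin 5 → ι} (hm : Function.Injective m)
    (h9 : NinePairs n b m)
    (hb : Bornology.IsBounded (HP (fun k => n (m k)) (fun k => b (m k))))
    {t i j : Fin 5} (ht : t = 3 ∨ t = 4) (hi : i ≤ 2) (hj : j ≤ 2) (hij : i ≠ j) :
    ∃ X : E 3, inner ℝ (n (m t)) X = b (m t) ∧ inner ℝ (n (m i)) X = b (m i) ∧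
      inner ℝ (n (m j)) X = b (m j) := by
  obtain ⟨μ, hμ, μ3, μ4, μ0, μ1, μ2⟩ := CONE5.nine_dep hm h9
  obtain ⟨x0, hx0⟩ := hI.int
  have hV := fun t t' i j l hu ht' hl =>
    CONE5.vertex (n := n) (b := b) (m := m) μ hμ hb (fun k => hx0 (m k)) t t' i j l hu ht' hl
  have tab : ∀ t i j : Fin 5, (t = 3 ∨ t = 4) → i ≤ 2 → j ≤ 2 → i ≠ j →
      ∃ t' l : Fin 5, (t' = 3 ∨ t' = 4) ∧ (l = 0 ∨ l = 1 ∨ l = 2) ∧
        (Finset.univ : Finset (Fin 5)) = {t, t', i, j, l} := by decide +kernel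
  obtain ⟨t', l, h1, h2, h3⟩ := tab t i j ht hi hj hij
  obtain ⟨X, h4, h5, h6, _⟩ := hV t t' i j l h3 (by
    rcases h1 with rfl | rfl
    · exact μ3
    · exact μ4) (by
    rcases h2 with rfl | rfl | rfl
    · exact μ0
    · exact μ1
    · exact μ2)
  exact ⟨X, h4, h5, h6⟩

/-- the geometric situation at the three corners of the vertex `{t, i, j}` -/
theorem corners5 (hU : ∀ i, Frame (n i) (U i)) (hI : Irr n b) {m : Fin 5 → ι}
    (hm : Function.Injective m) (h9 : NinePairs n b m)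
    (hb : Bornology.IsBounded (HP (fun k => n (m k)) (fun k => b (m k))))
    (na : List (ℕ × ℕ)) (ns : List (List ℕ)) (t i j : Fin 5) (ht : t = 3 ∨ t = 4) (hi : i ≤ 2)
    (hj : j ≤ 2) (hij : i ≠ j) (s : ℕ → ℝ) (hs0 : s 0 = sn n U (m t) (m i) (m j))
    (hs1 : s 1 = sn n U (m i) (m t) (m j)) (hs2 : s 2 = sn n U (m j) (m t) (m i)) :
    Corners n b U ⟨5, na, ns, [(t.1, i.1, j.1), (i.1, t.1, j.1), (j.1, t.1, i.1)]⟩ m s := by
  obtain ⟨X, hXt, hXi, hXj⟩ := exists_vertex hI hm h9 hb ht hi hj hij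
  have tab : ∀ t i j : Fin 5, (t = 3 ∨ t = 4) → i ≤ 2 → j ≤ 2 → i ≠ j →
      FILL.Nine t i ∧ FILL.Nine t j ∧ FILL.Nine i j := by decide +kernel
  obtain ⟨n1, n2, n3⟩ := tab t i j ht hi hj hij
  have ati := FILL.nine_adj h9 n1
  have atj := FILL.nine_adj h9 n2
  have aij := FILL.nine_adj h9 n3
  have ait := FILL.adj_symm ati
  have ajt := FILL.adj_symm atj
  have aji := FILL.adj_symm aij
  have key : ∀ p q r : Fin 5, ({p, q, r} : Finset (Fin 5)) = {t, i, j} → q ≠ r →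
      Adj n b (m p) (m q) → Adj n b (m p) (m r) → Adj n b (m q) (m r) →
      inner ℝ (n (m p)) X = b (m p) → inner ℝ (n (m q)) X = b (m q) →
      inner ℝ (n (m r)) X = b (m r) → ∀ σ : ℝ, σ = sn n U (m p) (m q) (m r) →
      0 < len n b (m p) (m q) ∧ 0 < len n b (m p) (m r) ∧ q ≠ r ∧ 0 ≤ σ ∧ σ ≤ 1 ∧
      inner ℝ (nu n U (m p) (m q)) (nu n U (m p) (m r)) = 2 * σ ^ 2 - 1 ∧
      -1 < inner ℝ (nu n U (m p) (m q)) (nu n U (m p) (m r)) ∧
      inner ℝ (nu n U (m p) (m q)) (nu n U (m p) (m r)) < 1 ∧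
      ∀ c, 0 < len n b (m p) (m c) → c ≠ q → c ≠ r →
        ¬ ∃ α β : ℝ, 0 < α ∧ 0 < β ∧
          nu n U (m p) (m c) = α • nu n U (m p) (m q) + β • nu n U (m p) (m r) := by
    intro p q r hpqr hqr apq apr aqr hXp hXq hXr σ hσ
    obtain ⟨f1, f2⟩ := sn_facts hU hI apq apr
    obtain ⟨g1, g2⟩ := inner_bds hU hI apq apr aqr hXp hXq hXr
    refine ⟨len_pos_of_adj hI apq, len_pos_of_adj hI apr, hqr, hσ ▸ sn_nonneg n U _ _ _,
      hσ ▸ f1, by rw [hσ]; exact f2, g1, g2, fun c hc hcq hcr => ?_⟩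
    have hcp : c ≠ p := by
      rintro rfl
      unfold len at hc
      rw [if_pos rfl] at hc
      exact lt_irrefl _ hc
    exact blk_CONE5 ι n b U hU hI m hm h9 hb t i j ht hi hj hij p q r c hpqr hcp hcq hcr hc
  have k0 := key t i j rfl hij ati atj aij hXt hXi hXj (s 0) hs0
  have k1 := key i t j (by ext x; simp only [mem_insert, mem_singleton]; tauto)
    (by rintro rfl; exact atj.1 rfl) ait aij atj hXi hXt hXj (s 1) hs1
  have k2 := key j t i (by ext x; simp only [mem_insert, mem_singleton]; tauto)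
    (by rintro rfl; exact ati.1 rfl) ajt aji ati hXj hXt hXi (s 2) hs2
  refine ⟨?_, ?_⟩
  · have h1 : t.1 ≠ i.1 := fun h => ati.1 (by rw [Fin.ext h])
    have h2 : t.1 ≠ j.1 := fun h => atj.1 (by rw [Fin.ext h])
    have h3 : i.1 ≠ j.1 := fun h => aij.1 (by rw [Fin.ext h])
    simp [h1, h2, h3]
  · intro l hl
    have hl3 : l < 3 := hl
    have h3 : l = 0 ∨ l = 1 ∨ l = 2 := by omega
    rcases h3 with rfl | rfl | rfl
    · exact ⟨t, i, j, rfl, k0⟩
    · exact ⟨i, t, j, rfl, k1⟩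
    · exact ⟨j, t, i, rfl, k2⟩

/-- the vertex is sharp: where the sines lie -/
theorem sharp_cases (hU : ∀ i, Frame (n i) (U i)) (hI : Irr n b) {p q r : ι}
    (hpq : Adj n b p q) (hpr : Adj n b p r) (hqr : Adj n b q r)
    (h : ∃ α β γ : ℝ, 0 ≤ α ∧ 0 ≤ β ∧ 0 ≤ γ ∧
      ‖β • nu n U p q + γ • nu n U p r‖ + ‖α • nu n U q r + β • nu n U q p‖ +
      ‖α • nu n U r q + γ • nu n U r p‖ < α + β + γ) :
    sn n U p q r < 3 / 10 ∨ sn n U q p r < 47 / 100 ∨ sn n U r p q < 47 / 100 ∨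
    ((sn n U p q r ≤ 9 / 25 ∨ sn n U q p r ≤ 1 / 2 ∨ sn n U r p q ≤ 1 / 2) ∧
      sn n U p q r + sn n U q p r + sn n U r p q < 303 / 200) ∨
    sn n U p q r + sn n U q p r + sn n U r p q < 151 / 100 := by
  obtain ⟨α, β, γ, hα, hβ, hγ, h⟩ := h
  have hqp := FILL.adj_symm hpq
  have hrp := FILL.adj_symm hpr
  have hrq := FILL.adj_symm hqr
  have e0 := blk_NUCH β γ _ _ (norm_nu hU hI hpq) (norm_nu hU hI hpr)
  have e1 := blk_NUCH α β _ _ (norm_nu hU hI hqr) (norm_nu hU hI hqp)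
  have e2 := blk_NUCH α γ _ _ (norm_nu hU hI hrq) (norm_nu hU hI hrp)
  rw [e0, e1, e2] at h
  have f0 : √((1 + inner ℝ (nu n U p q) (nu n U p r)) / 2) = sn n U p q r := rfl
  have f1 : √((1 + inner ℝ (nu n U q r) (nu n U q p)) / 2) = sn n U q p r := by
    rw [sn_symm]; rfl
  have f2 : √((1 + inner ℝ (nu n U r q) (nu n U r p)) / 2) = sn n U r p q := by
    rw [sn_symm]; rfl
  rw [f0, f1, f2] at h
  by_contra hcon
  push Not at hcon
  obtain ⟨g0, g1, g2, g3, g4⟩ := hcon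
  have := blk_TRI (sn n U p q r) (sn n U q p r) (sn n U r p q) (sn_facts hU hI hpq hpr).1
    (sn_facts hU hI hqp hqr).1 (sn_facts hU hI hrp hrq).1 g0 g1 g2 (fun h5 => g3 h5) g4
    α β γ hα hβ hγ
  linarith

end corn

end Pool.Agent.Work.MP_3892ce_num
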