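import Pool.Agent.Work.MP_3892ce_num.InstA1
import Pool.Agent.Work.MP_3892ce_str.Split
import Pool.Agent.Work.MP_3892ce_num.FR1
import Pool.Agent.Work.MP_3892ce_num.FR2
import Pool.Agent.Work.MP_3892ce_num.FR3
import Pool.Agent.Work.MP_3892ce_num.FR4
import Pool.Agent.Work.MP_3892ce_num.FR5
import Pool.Agent.Work.MP_3892ce_data.R1
import Pool.Agent.Work.MP_3892ce_data.R2
import Pool.Agent.Work.MP_3892ce_data.R3
import Pool.Agent.Work.MP_3892ce_data.R4
import Pool.Agent.Work.MP_3892ce_data.R5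

/-! # Case A2: a sharp corner (helper74) -/

set_option autoImplicit false
set_option maxRecDepth 100000

open Finset Real MeasureTheory

namespace Pool.Agent.Work.MP_3892ce_num

open Pool.Agent.Work.MP_3892ce_static
open Pool.Agent.Work.MP_3892ce_str

/-- corners at the vertex of the facets `3, 0, 1` -/
def corA2 : List (ℕ × ℕ × ℕ) := [(3, 0, 1), (0, 3, 1), (1, 3, 0)]

/-- bounds of the coordinates -/
def bxR : List (ℤ × ℤ) := [(0, 708), (0, 708), (0, 708), (0, 708), (0, 708), (0, 64)]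

/-- the order -/
def relB (o : Bool) : ℕ → ℕ → Bool := if o then relO else relN

section instA2

variable {ι : Type} [Fintype ι] [DecidableEq ι] {n : ι → E 3} {b : ι → ℝ}
  {U : ι → (E 2 →ₗᵢ[ℝ] E 3)}

/-- a region of the corner -/
theorem boundR {P : Eng.Prob} {c : Eng.Cell} {tr : Eng.Tree} (hch : Eng.check P c tr = true)
    (o : Bool) (hr : rootOk P c (relB o) bxR = true) {Ss : List Spec}
    (hSs : Ss.all (specOk ⟨5, [(3, 4)], ns7, corA2⟩) = true)
    (hfams : P.fams = Ss.map (Spec.fam' ⟨5, [(3, 4)], ns7, corA2⟩)) (hpos : P.pos = [3, 0, 1])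
    {a0 b0 a1 b1 a2 b2 S0 : ℤ} (hsb : c.sb = [(a0, b0), (a1, b1), (a2, b2)]) (hS : P.S0 = S0)
    (hT1 : c.T1 = 0) (hT2 : c.T2 = 4000)
    (hU : ∀ i, Frame (n i) (U i)) (hI : Irr n b) (hcard : 5 < Fintype.card ι) {m : Fin 5 → ι}
    (hL : Largest n b U m) (h9 : NinePairs n b m)
    (hB : Bornology.IsBounded (HP (fun k => n (m k)) (fun k => b (m k))))
    (hτ : tail n b U m ≤ 1 / 250) (ho : o = true → al n b U (m 1) ≤ al n b U (m 0))
    (hx : (a0 : ℝ) ≤ 10000 * sn n U (m 3) (m 0) (m 1) ∧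
      10000 * sn n U (m 3) (m 0) (m 1) ≤ (b0 : ℝ))
    (hy : (a1 : ℝ) ≤ 10000 * sn n U (m 0) (m 3) (m 1) ∧
      10000 * sn n U (m 0) (m 3) (m 1) ≤ (b1 : ℝ))
    (hz : (a2 : ℝ) ≤ 10000 * sn n U (m 1) (m 3) (m 0) ∧
      10000 * sn n U (m 1) (m 3) (m 0) ≤ (b2 : ℝ))
    (hsum : 10000 * (sn n U (m 3) (m 0) (m 1) + sn n U (m 0) (m 3) (m 1) +
      sn n U (m 1) (m 3) (m 0)) ≤ (S0 : ℝ)) :
    1684 * (volume (HP n b)).toReal ≤ L n b ^ 3 := by
  classical
  have hex : ∃ a, a ∉ Set.range m := by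
    by_contra hcon
    push Not at hcon
    have h1 : Function.Surjective m := fun a => hcon a
    have h2 := Fintype.card_le_of_surjective m h1
    rw [Fintype.card_fin] at h2
    omega
  obtain ⟨i0, hi0, hmax⟩ := exists_i0 (n := n) (b := b) (U := U) hex
  set s : ℕ → ℝ := fun j => if j = 0 then sn n U (m 3) (m 0) (m 1) else
    if j = 1 then sn n U (m 0) (m 3) (m 1) else sn n U (m 1) (m 3) (m 0) with hs
  have s0 : s 0 = sn n U (m 3) (m 0) (m 1) := rfl
  have s1 : s 1 = sn n U (m 0) (m 3) (m 1) := rfl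
  have s2 : s 2 = sn n U (m 1) (m 3) (m 0) := rfl
  have hC : Corners n b U ⟨5, [(3, 4)], ns7, corA2⟩ m s :=
    corners5 hU hI hL.1 h9 hB [(3, 4)] ns7 3 0 1 (Or.inl rfl) (by decide) (by decide)
      (by decide) s s0 s1 s2
  have x0 : xs n b U m i0 0 = √(al n b U (m 0)) := xs_cast m i0 0
  have x1 : xs n b U m i0 1 = √(al n b U (m 1)) := xs_cast m i0 1
  have x5 : xs n b U m i0 5 = √(al n b U i0) := xs_last m i0
  have hi0τ : al n b U i0 ≤ 1 / 250 := by
    have h1 := sum_snoc hi0 (fun a => al n b U a)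
    have h2 : 0 ≤ ∑ a : {a : ι // a ∉ Set.range (Fin.snoc m i0 : Fin 6 → ι)}, al n b U a.1 :=
      Finset.sum_nonneg fun a _ => (al_pos hU hI a.1).le
    have h3 : tail n b U m = ∑ a : {a : ι // a ∉ Set.range m}, al n b U a.1 := rfl
    rw [h3, h1] at hτ
    linarith
  refine run5 hU hI hch hr hSs hfams hpos hL (hna5 hI hL.1 h9)
    (fun i hi => nbr7 hI hL.1 h9 hi) s hC hi0 hmax (xs n b U m i0) (xs_spec m i0) ?_ ?_ ?_ ?_ ?_ ?_
  · intro i hi
    have h1 := xs_nonneg (n := n) (b := b) (U := U) m i0 i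
    have h2 := xs_le hU hI m i0 i hi
    have h5 : 1000 * xs n b U m i0 5 ≤ 64 := by
      rw [x5]
      have h6 : √(al n b U i0) ≤ 0.064 := by
        rw [Real.sqrt_le_iff]
        exact ⟨by norm_num, hi0τ.trans (by norm_num)⟩
      linarith
    unfold bxR
    interval_cases i <;> simp only [List.getD_cons_zero, List.getD_cons_succ] <;> push_cast <;>
      constructor <;> linarith
  · intro i hi j hj
    unfold relB at hj
    rcases o with _ | _
    · simp only [Bool.false_eq_true, if_false, relN, Bool.or_eq_true, beq_iff_eq] at hj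
      rcases hj with rfl | rfl
      · exact le_refl _
      · exact xs_last_le hU hI hL hi0 i hi
    · simp only [if_true, relO, Bool.or_eq_true, Bool.and_eq_true, beq_iff_eq] at hj
      rcases hj with (rfl | rfl) | ⟨rfl, rfl⟩
      · exact le_refl _
      · exact xs_last_le hU hI hL hi0 i hi
      · rw [x0, x1]
        exact Real.sqrt_le_sqrt (ho rfl)
  · intro j hj
    rw [hsb] at hj ⊢
    have hj3 : j < 3 := hj
    interval_cases j
    · exact hx
    · exact hy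
    · exact hz
  · rw [hpos, hS]
    have e : ∑ j ∈ Finset.range [3, 0, 1].length, s j = s 0 + s 1 + s 2 := by
      simp [Finset.sum_range_succ]
    rw [e, s0, s1, s2]
    exact hsum
  · rw [hT1]
    have : 0 ≤ tail n b U m := Finset.sum_nonneg fun a _ => (al_pos hU hI a.1).le
    push_cast
    linarith
  · rw [hT2]
    push_cast
    linarith

end instA2

theorem famsR1 : Pool.Agent.Work.MP_3892ce_data.R1.P.fams =
    R1.specs.map (Spec.fam' ⟨5, [(3, 4)], ns7, corA2⟩) := by decide +kernel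

theorem famsR2 : Pool.Agent.Work.MP_3892ce_data.R2.P.fams =
    R2.specs.map (Spec.fam' ⟨5, [(3, 4)], ns7, corA2⟩) := by decide +kernel

theorem famsR3 : Pool.Agent.Work.MP_3892ce_data.R3.P.fams =
    R3.specs.map (Spec.fam' ⟨5, [(3, 4)], ns7, corA2⟩) := by decide +kernel

theorem famsR4 : Pool.Agent.Work.MP_3892ce_data.R4.P.fams =
    R4.specs.map (Spec.fam' ⟨5, [(3, 4)], ns7, corA2⟩) := by decide +kernel

theorem famsR5 : Pool.Agent.Work.MP_3892ce_data.R5.P.fams =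
    R5.specs.map (Spec.fam' ⟨5, [(3, 4)], ns7, corA2⟩) := by decide +kernel

theorem rootR1 : rootOk Pool.Agent.Work.MP_3892ce_data.R1.P
    Pool.Agent.Work.MP_3892ce_data.R1.cell (relB true) bxR = true := by decide +kernel

theorem rootR2 : rootOk Pool.Agent.Work.MP_3892ce_data.R2.P
    Pool.Agent.Work.MP_3892ce_data.R2.cell (relB false) bxR = true := by decide +kernel

theorem rootR3 : rootOk Pool.Agent.Work.MP_3892ce_data.R3.P
    Pool.Agent.Work.MP_3892ce_data.R3.cell (relB true) bxR = true := by decide +kernel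

theorem rootR4 : rootOk Pool.Agent.Work.MP_3892ce_data.R4.P
    Pool.Agent.Work.MP_3892ce_data.R4.cell (relB true) bxR = true := by decide +kernel

theorem rootR5 : rootOk Pool.Agent.Work.MP_3892ce_data.R5.P
    Pool.Agent.Work.MP_3892ce_data.R5.cell (relB false) bxR = true := by decide +kernel

theorem sn_box {ι : Type} [Fintype ι] [DecidableEq ι] {n : ι → E 3} {b : ι → ℝ}
    {U : ι → (E 2 →ₗᵢ[ℝ] E 3)} (hU : ∀ i, Frame (n i) (U i)) (hI : Irr n b) {p q r : ι}
    (hpq : Adj n b p q) (hpr : Adj n b p r) : ((0 : ℤ) : ℝ) ≤ 10000 * sn n U p q r ∧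
      10000 * sn n U p q r ≤ ((10000 : ℤ) : ℝ) := by
  have h1 := sn_nonneg n U p q r
  have h2 := (sn_facts hU hI hpq hpr).1
  push_cast
  constructor <;> linarith

/-- region `R1` -/
theorem stmt_R1 : Stmt_RegO (1 / 250) fun x _ _ => x ≤ 3 / 10 := by
  intro ι _ _ n b U hU hI hcard m hL h9 hB hτ h01 hC
  have a03 := FILL.nine_adj h9 (p := 0) (q := 3) (by decide)
  have a01 := FILL.nine_adj h9 (p := 0) (q := 1) (by decide)
  have a13 := FILL.nine_adj h9 (p := 1) (q := 3) (by decide)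
  have a30 := FILL.adj_symm a03
  have a31 := FILL.adj_symm a13
  have a10 := FILL.adj_symm a01
  have bx := sn_box hU hI a30 a31
  have by' := sn_box hU hI a03 a01
  have bz := sn_box hU hI a13 a10
  refine boundR (S0 := 30000)
    (Eng.checkF_sound _ _ _ Pool.Agent.Work.MP_3892ce_data.R1.checkF_ok) true rootR1
    R1.specs_ok famsR1 rfl rfl rfl rfl rfl hU hI hcard hL h9 hB hτ (fun _ => h01)
    ⟨bx.1, ?_⟩ by' bz ?_
  · push_cast
    linarith
  · have h1 := bx.2
    have h2 := by'.2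
    have h3 := bz.2
    push_cast at h1 h2 h3 ⊢
    linarith

/-- region `R2` -/
theorem stmt_R2 : Stmt_Reg (1 / 250) fun _ y _ => y ≤ 47 / 100 := by
  intro ι _ _ n b U hU hI hcard m hL h9 hB hτ hC
  have a03 := FILL.nine_adj h9 (p := 0) (q := 3) (by decide)
  have a01 := FILL.nine_adj h9 (p := 0) (q := 1) (by decide)
  have a13 := FILL.nine_adj h9 (p := 1) (q := 3) (by decide)
  have a30 := FILL.adj_symm a03
  have a31 := FILL.adj_symm a13
  have a10 := FILL.adj_symm a01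
  have bx := sn_box hU hI a30 a31
  have by' := sn_box hU hI a03 a01
  have bz := sn_box hU hI a13 a10
  refine boundR (S0 := 30000)
    (Eng.checkF_sound _ _ _ Pool.Agent.Work.MP_3892ce_data.R2.checkF_ok) false rootR2
    R2.specs_ok famsR2 rfl rfl rfl rfl rfl hU hI hcard hL h9 hB hτ (fun h => absurd h (by decide))
    bx ⟨by'.1, ?_⟩ bz ?_
  · push_cast
    linarith
  · have h1 := bx.2
    have h2 := by'.2
    have h3 := bz.2
    push_cast at h1 h2 h3 ⊢
    linarith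

/-- region `R3` -/
theorem stmt_R3 : Stmt_RegO (1 / 250) fun x y z => 9 / 25 ≤ x ∧ 1 / 2 ≤ y ∧ 1 / 2 ≤ z ∧
    x + y + z ≤ 151 / 100 := by
  intro ι _ _ n b U hU hI hcard m hL h9 hB hτ h01 hC
  obtain ⟨c1, c2, c3, c4⟩ := hC
  refine boundR (S0 := 15100)
    (Eng.checkF_sound _ _ _ Pool.Agent.Work.MP_3892ce_data.R3.checkF_ok) true rootR3
    R3.specs_ok famsR3 rfl rfl rfl rfl rfl hU hI hcard hL h9 hB hτ (fun _ => h01)
    ⟨?_, ?_⟩ ⟨?_, ?_⟩ ⟨?_, ?_⟩ ?_ <;> push_cast <;> linarith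

/-- region `R4` -/
theorem stmt_R4 : Stmt_RegO (1 / 250) fun x y z => 3 / 10 ≤ x ∧ x ≤ 9 / 25 ∧ 47 / 100 ≤ y ∧
    47 / 100 ≤ z ∧ x + y + z ≤ 303 / 200 := by
  intro ι _ _ n b U hU hI hcard m hL h9 hB hτ h01 hC
  obtain ⟨c1, c2, c3, c4, c5⟩ := hC
  refine boundR (S0 := 15150)
    (Eng.checkF_sound _ _ _ Pool.Agent.Work.MP_3892ce_data.R4.checkF_ok) true rootR4
    R4.specs_ok famsR4 rfl rfl rfl rfl rfl hU hI hcard hL h9 hB hτ (fun _ => h01)
    ⟨?_, ?_⟩ ⟨?_, ?_⟩ ⟨?_, ?_⟩ ?_ <;> push_cast <;> linarith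

/-- region `R5` -/
theorem stmt_R5 : Stmt_Reg (1 / 250) fun x y z => 9 / 25 ≤ x ∧ 47 / 100 ≤ y ∧ y ≤ 1 / 2 ∧
    47 / 100 ≤ z ∧ x + y + z ≤ 303 / 200 := by
  intro ι _ _ n b U hU hI hcard m hL h9 hB hτ hC
  obtain ⟨c1, c2, c3, c4, c5⟩ := hC
  refine boundR (S0 := 15150)
    (Eng.checkF_sound _ _ _ Pool.Agent.Work.MP_3892ce_data.R5.checkF_ok) false rootR5
    R5.specs_ok famsR5 rfl rfl rfl rfl rfl hU hI hcard hL h9 hB hτ (fun h => absurd h (by decide))
    ⟨?_, ?_⟩ ⟨?_, ?_⟩ ⟨?_, ?_⟩ ?_ <;> push_cast <;> linarith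

/-- **case A2** -/
theorem stmt_A2 : Stmt_A2 (1 / 250) := A2_of_regions stmt_R1 stmt_R2 stmt_R3 stmt_R4 stmt_R5

end Pool.Agent.Work.MP_3892ce_num
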