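import Pool.Agent.Work.MP_3892ce_num.Taylor
import Pool.Agent.Work.MP_3892ce_static.Interface2

/-! # Rational bounds for the areas of circular segments (helper74)

Scales: lengths `10^4`, angles and square roots `10^9`, areas `10^17`. -/

set_option autoImplicit false

open Finset Real

namespace Pool.Agent.Work.MP_3892ce_num

open Pool.Agent.Work.MP_3892ce_static

/-- certificate for an upper bound of `seg (r / 10^4) (d / 10^4)`: `t` angle, `q` square root -/
def sgUok (r d t q : ℤ) : Bool :=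
  decide (0 ≤ d) && decide (d < r) && acUB d r t 1000000000 && decide (0 ≤ q) &&
    decide (q * q ≤ (r * r - d * d) * 10000000000)

/-- the upper bound, scale `10^17` -/
def sgUv (r d t q : ℤ) : ℤ := r * r * t - 10000 * (d * q)

/-- certificate for a lower bound of `seg (r / 10^4) (d / 10^4)` -/
def sgLok (r d t q : ℤ) : Bool :=
  decide (0 ≤ d) && decide (d < r) && acLB d r t 1000000000 && decide (0 ≤ q) &&
    decide ((r * r - d * d) * 10000000000 ≤ q * q)

theorem seg_le_of {r d t q : ℤ} (h : sgUok r d t q = true) :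
    seg ((r : ℝ) / 10000) ((d : ℝ) / 10000) ≤ (sgUv r d t q : ℝ) / 100000000000000000 := by
  simp only [sgUok, Bool.and_eq_true, decide_eq_true_eq] at h
  obtain ⟨⟨⟨⟨hd, hdr⟩, hac⟩, hq⟩, hqq⟩ := h
  have hd' : (0 : ℝ) ≤ d := by exact_mod_cast hd
  have hr' : (0 : ℝ) < r := by exact_mod_cast lt_of_le_of_lt hd hdr
  have hq' : (0 : ℝ) ≤ q := by exact_mod_cast hq
  have h1 := acUB_spec hac
  have h2 : (q : ℝ) * q ≤ (r * r - d * d) * 10000000000 := by exact_mod_cast hqq
  have e1 : (d : ℝ) / 10000 / ((r : ℝ) / 10000) = (d : ℝ) / r := by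
    field_simp
  have h3 : (q : ℝ) / 1000000000 ≤ √(((r : ℝ) / 10000) ^ 2 - ((d : ℝ) / 10000) ^ 2) := by
    refine Real.le_sqrt_of_sq_le ?_
    rw [div_pow, div_pow, div_pow]
    rw [← sub_div, div_le_div_iff₀ (by norm_num) (by norm_num)]
    nlinarith
  unfold seg
  rw [e1]
  have h4 : ((r : ℝ) / 10000) ^ 2 * arccos ((d : ℝ) / r) ≤
      ((r : ℝ) / 10000) ^ 2 * ((t : ℝ) / ((1000000000 : ℤ) : ℝ)) :=
    mul_le_mul_of_nonneg_left h1 (by positivity)
  have h5 : (d : ℝ) / 10000 * ((q : ℝ) / 1000000000) ≤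
      (d : ℝ) / 10000 * √(((r : ℝ) / 10000) ^ 2 - ((d : ℝ) / 10000) ^ 2) :=
    mul_le_mul_of_nonneg_left h3 (by positivity)
  refine (sub_le_sub h4 h5).trans (le_of_eq ?_)
  unfold sgUv
  push_cast
  ring

theorem le_seg_of {r d t q : ℤ} (h : sgLok r d t q = true) :
    (sgUv r d t q : ℝ) / 100000000000000000 ≤ seg ((r : ℝ) / 10000) ((d : ℝ) / 10000) := by
  simp only [sgLok, Bool.and_eq_true, decide_eq_true_eq] at h
  obtain ⟨⟨⟨⟨hd, hdr⟩, hac⟩, hq⟩, hqq⟩ := h
  have hd' : (0 : ℝ) ≤ d := by exact_mod_cast hd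
  have hr' : (0 : ℝ) < r := by exact_mod_cast lt_of_le_of_lt hd hdr
  have hq' : (0 : ℝ) ≤ q := by exact_mod_cast hq
  have h1 := acLB_spec hac
  have h2 : ((r : ℝ) * r - d * d) * 10000000000 ≤ q * q := by exact_mod_cast hqq
  have e1 : (d : ℝ) / 10000 / ((r : ℝ) / 10000) = (d : ℝ) / r := by
    field_simp
  have h3 : √(((r : ℝ) / 10000) ^ 2 - ((d : ℝ) / 10000) ^ 2) ≤ (q : ℝ) / 1000000000 := by
    refine Real.sqrt_le_iff.2 ⟨by positivity, ?_⟩
    rw [div_pow, div_pow, div_pow]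
    rw [← sub_div, div_le_div_iff₀ (by norm_num) (by norm_num)]
    nlinarith
  unfold seg
  rw [e1]
  have h4 : ((r : ℝ) / 10000) ^ 2 * ((t : ℝ) / ((1000000000 : ℤ) : ℝ)) ≤
      ((r : ℝ) / 10000) ^ 2 * arccos ((d : ℝ) / r) :=
    mul_le_mul_of_nonneg_left h1 (by positivity)
  have h5 : (d : ℝ) / 10000 * √(((r : ℝ) / 10000) ^ 2 - ((d : ℝ) / 10000) ^ 2) ≤
      (d : ℝ) / 10000 * ((q : ℝ) / 1000000000) :=
    mul_le_mul_of_nonneg_left h3 (by positivity)
  refine (le_of_eq ?_).trans (sub_le_sub h4 h5)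
  unfold sgUv
  push_cast
  ring

/-- certificate of an upper bound for `sg (r / 10^4) (d / 10^4)`: value, scale `10^17` -/
def sgC (r d t q : ℤ) : ℤ := if r ≤ d then 0 else sgUv r d t q

def sgCok (r d t q : ℤ) : Bool := decide (r ≤ d) || sgUok r d t q

theorem sg_le_of {r d t q : ℤ} (h : sgCok r d t q = true) :
    sg ((r : ℝ) / 10000) ((d : ℝ) / 10000) ≤ (sgC r d t q : ℝ) / 100000000000000000 := by
  unfold sg sgC
  by_cases hrd : r ≤ d
  · have h1 : ¬ ((d : ℝ) / 10000 < (r : ℝ) / 10000) := by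
      have : (r : ℝ) ≤ d := by exact_mod_cast hrd
      rw [not_lt]
      linarith
    rw [if_neg h1, if_pos hrd]
    simp
  · have h1 : ((d : ℝ) / 10000 < (r : ℝ) / 10000) := by
      have : (d : ℝ) < r := by exact_mod_cast not_le.1 hrd
      linarith
    rw [if_pos h1, if_neg hrd]
    simp only [sgCok, Bool.or_eq_true, decide_eq_true_eq] at h
    rcases h with h | h
    · exact absurd h hrd
    · exact seg_le_of h

/-- `arccos` is concave on `[0, 1]` -/
theorem arccos_concave : ConcaveOn ℝ (Set.Icc 0 1) arccos := by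
  refine AntitoneOn.concaveOn_of_deriv (convex_Icc 0 1) continuous_arccos.continuousOn ?_ ?_
  · rw [interior_Icc]
    intro x hx
    exact (differentiableAt_arccos.2 ⟨by linarith [hx.1], by linarith [hx.2]⟩).differentiableWithinAt
  · rw [interior_Icc]
    intro x hx y hy hxy
    rw [deriv_arccos, ]
    simp only
    have h1 : 0 < 1 - x ^ 2 := by nlinarith [hx.1, hx.2]
    have h2 : 0 < 1 - y ^ 2 := by nlinarith [hy.1, hy.2]
    have h3 : √(1 - y ^ 2) ≤ √(1 - x ^ 2) := Real.sqrt_le_sqrt (by nlinarith [hx.1, hy.1])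
    have h4 : 0 < √(1 - y ^ 2) := Real.sqrt_pos.2 h2
    exact neg_le_neg (one_div_le_one_div_of_le h4 h3)

/-- chord of `2 √(A + B arccos s)` -/
theorem chord_sqrt {A B sa sb c m s : ℝ} (hB : 0 ≤ B) (h0 : 0 ≤ sa) (h1 : sb ≤ 1)
    (hA : 0 ≤ A) (ha : (c - m * sa) ≤ 2 * √(A + B * arccos sa))
    (hb : (c - m * sb) ≤ 2 * √(A + B * arccos sb)) (hs : sa ≤ s) (hs' : s ≤ sb) :
    c - m * s ≤ 2 * √(A + B * arccos s) := by
  have hc : ConcaveOn ℝ (Set.Icc 0 1) (fun s => √(A + B * arccos s)) := by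
    have h1 : ConcaveOn ℝ (Set.Icc 0 1) (fun s => A + B * arccos s) :=
      (concaveOn_const A (convex_Icc 0 1)).add (arccos_concave.smul hB)
    refine ⟨convex_Icc 0 1, fun x hx y hy a b ha hb hab => ?_⟩
    have h2 := h1.2 hx hy ha hb hab
    have hxn : 0 ≤ A + B * arccos x := add_nonneg hA (mul_nonneg hB (arccos_nonneg x))
    have hyn : 0 ≤ A + B * arccos y := add_nonneg hA (mul_nonneg hB (arccos_nonneg y))
    have h3 := (strictConcaveOn_sqrt.concaveOn).2 (Set.mem_Ici.2 hxn) (Set.mem_Ici.2 hyn) ha hb hab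
    exact h3.trans (Real.sqrt_le_sqrt h2)
  rcases hs.eq_or_lt with rfl | hlt
  · exact ha
  have hab : 0 < sb - sa := by linarith
  set a := (sb - s) / (sb - sa) with had
  set b := (s - sa) / (sb - sa) with hbd
  have ha0 : 0 ≤ a := div_nonneg (by linarith) hab.le
  have hb0 : 0 ≤ b := div_nonneg (by linarith) hab.le
  have hsum : a + b = 1 := by
    rw [had, hbd, ← add_div, div_eq_one_iff_eq hab.ne']
    ring
  have hcomb : a * sa + b * sb = s := by
    rw [had, hbd]
    field_simp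
    ring
  have h2 := hc.2 (x := sa) ⟨h0, by linarith⟩ (y := sb) ⟨by linarith, h1⟩ ha0 hb0 hsum
  simp only [smul_eq_mul] at h2
  rw [hcomb] at h2
  have h3 : c - m * s = a * (c - m * sa) + b * (c - m * sb) := by
    rw [← hcomb]
    linear_combination (-c) * hsum
  rw [h3]
  nlinarith [mul_le_mul_of_nonneg_left ha ha0, mul_le_mul_of_nonneg_left hb hb0]

end Pool.Agent.Work.MP_3892ce_num
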