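import Pool.Agent.Work.MP_3892ce_num.Run

/-! # Case A: certificates with five or six named facets (helper74) -/

set_option autoImplicit false

open Finset Real MeasureTheory

namespace Pool.Agent.Work.MP_3892ce_num

open Pool.Agent.Work.MP_3892ce_static
open Pool.Agent.Work.MP_3892ce_str

deriving instance DecidableEq for Eng.Fam

section caseA

variable {ι : Type} [Fintype ι] [DecidableEq ι] {n : ι → E 3} {b : ι → ℝ}
  {U : ι → (E 2 →ₗᵢ[ℝ] E 3)}

/-- a certificate with five named facets and the largest one of the others -/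
theorem run5 (hU : ∀ i, Frame (n i) (U i)) (hI : Irr n b) {P : Eng.Prob} {c : Eng.Cell}
    {tr : Eng.Tree} (hch : Eng.check P c tr = true) {rel : ℕ → ℕ → Bool} {bx : List (ℤ × ℤ)}
    (hr : rootOk P c rel bx = true) {na : List (ℕ × ℕ)} {ns : List (List ℕ)}
    {cor : List (ℕ × ℕ × ℕ)} {Ss : List Spec}
    (hSs : Ss.all (specOk ⟨5, na, ns, cor⟩) = true)
    (hfams : P.fams = Ss.map (Spec.fam' ⟨5, na, ns, cor⟩)) (hpos : P.pos = cor.map fun p => p.1)
    {m : Fin 5 → ι} (hL : Largest n b U m)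
    (hna : ∀ a c : Fin 5, (a.1, c.1) ∈ na ∨ (c.1, a.1) ∈ na → len n b (m a) (m c) = 0)
    (hns : ∀ i, i ∉ Set.range m → ∃ N ∈ ns, ∀ a : Fin 5, 0 < len n b i (m a) → a.1 ∈ N)
    (s : ℕ → ℝ) (hC : Corners n b U ⟨5, na, ns, cor⟩ m s) {i0 : ι}
    (hi0 : i0 ∉ Set.range m) (hmax : ∀ a, a ∉ Set.range m → al n b U a ≤ al n b U i0)
    (x : ℕ → ℝ) (hx : ∀ i : Fin 6, x i = √(al n b U ((Fin.snoc m i0 : Fin 6 → ι) i)))
    (hbx : ∀ i < 6, ((bx.getD i (0, 0)).1 : ℝ) ≤ 1000 * x i ∧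
      1000 * x i ≤ ((bx.getD i (0, 0)).2 : ℝ))
    (hrel : ∀ i < 6, ∀ j, rel i j = true → x j ≤ x i)
    (hs : ∀ j < c.sb.length, ((c.sb.getD j (0, 0)).1 : ℝ) ≤ 10000 * s j ∧
        10000 * s j ≤ ((c.sb.getD j (0, 0)).2 : ℝ))
    (hS0 : 10000 * ∑ j ∈ Finset.range P.pos.length, s j ≤ (P.S0 : ℝ))
    (hT1 : (c.T1 : ℝ) ≤ 1000000 * tail n b U m) (hT2 : 1000000 * tail n b U m ≤ (c.T2 : ℝ)) :
    1684 * (volume (HP n b)).toReal ≤ L n b ^ 3 := by
  refine run hU hI hch hr hL hi0 hmax x hx hbx hrel s hs hS0 hT1 hT2 ?_ ?_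
  · intro f hf
    rw [hfams] at hf
    obtain ⟨S, _, rfl⟩ := List.mem_map.1 hf
    rw [hpos]
    exact fam'_len ⟨5, na, ns, cor⟩ S
  · intro f hf hsb
    rw [hfams] at hf
    have h := hfam' hU hI ⟨5, na, ns, cor⟩ Ss hSs m hL.1 hna hns s hC i0 hi0 (Fin.snoc m i0) rfl
      x hx f hf hsb
    rw [hpos]
    exact h

/-- a certificate with six named facets -/
theorem run6 (hU : ∀ i, Frame (n i) (U i)) (hI : Irr n b) {P : Eng.Prob} {c : Eng.Cell}
    {tr : Eng.Tree} (hch : Eng.check P c tr = true) {rel : ℕ → ℕ → Bool} {bx : List (ℤ × ℤ)}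
    (hr : rootOk P c rel bx = true) {na : List (ℕ × ℕ)} {ns : List (List ℕ)}
    {Ss : List Spec} (hSs : Ss.all (specOk ⟨6, na, ns, []⟩) = true)
    (hfams : P.fams = Ss.map (Spec.fam ⟨6, na, ns, []⟩)) (hpos : P.pos = [])
    {m : Fin 5 → ι} (hL : Largest n b U m) {i0 : ι}
    (hi0 : i0 ∉ Set.range m) (hmax : ∀ a, a ∉ Set.range m → al n b U a ≤ al n b U i0)
    (hna : ∀ a c : Fin 6, (a.1, c.1) ∈ na ∨ (c.1, a.1) ∈ na →
      len n b ((Fin.snoc m i0 : Fin 6 → ι) a) ((Fin.snoc m i0 : Fin 6 → ι) c) = 0)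
    (hns : ∀ i, i ∉ Set.range (Fin.snoc m i0 : Fin 6 → ι) →
      ∃ N ∈ ns, ∀ a : Fin 6, 0 < len n b i ((Fin.snoc m i0 : Fin 6 → ι) a) → a.1 ∈ N)
    (x : ℕ → ℝ) (hx : ∀ i : Fin 6, x i = √(al n b U ((Fin.snoc m i0 : Fin 6 → ι) i)))
    (hbx : ∀ i < 6, ((bx.getD i (0, 0)).1 : ℝ) ≤ 1000 * x i ∧
      1000 * x i ≤ ((bx.getD i (0, 0)).2 : ℝ))
    (hrel : ∀ i < 6, ∀ j, rel i j = true → x j ≤ x i) (hS0 : 0 ≤ P.S0)
    (hT1 : (c.T1 : ℝ) ≤ 1000000 * tail n b U m) (hT2 : 1000000 * tail n b U m ≤ (c.T2 : ℝ)) :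
    1684 * (volume (HP n b)).toReal ≤ L n b ^ 3 := by
  have hinj : Function.Injective (Fin.snoc m i0 : Fin 6 → ι) :=
    Fin.snoc_injective_iff.2 ⟨hL.1, hi0⟩
  have hsb0 : c.sb.length = 0 := by
    have hr' := hr
    simp only [rootOk, Bool.and_eq_true, decide_eq_true_eq, List.all_eq_true,
      List.mem_range] at hr'
    obtain ⟨r1, r2, r3, r4, r5, _⟩ := hr'
    rw [r5, hpos]
    rfl
  refine run hU hI hch hr hL hi0 hmax x hx hbx hrel (fun _ => 0) ?_ ?_ hT1 hT2 ?_ ?_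
  · intro j hj
    rw [hsb0] at hj
    exact absurd hj (Nat.not_lt_zero j)
  · rw [hpos]
    simp only [List.length_nil, range_zero, sum_empty, mul_zero]
    exact_mod_cast hS0
  · intro f hf
    rw [hfams] at hf
    obtain ⟨S, _, rfl⟩ := List.mem_map.1 hf
    rw [hpos]
    exact fam_len ⟨6, na, ns, []⟩ S
  · intro f hf hsb
    rw [hfams] at hf
    have hC : Corners n b U ⟨6, na, ns, []⟩ (Fin.snoc m i0 : Fin 6 → ι) (fun _ => 0) :=
      ⟨List.nodup_nil, fun j hj => absurd hj (Nat.not_lt_zero j)⟩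
    have h := hfam hU hI ⟨6, na, ns, []⟩ Ss hSs (Fin.snoc m i0) hinj hna hns (fun _ => 0) hC
      x hx f hf hsb
    rw [hpos]
    exact h

/-- the coordinates -/
noncomputable def xs (n : ι → E 3) (b : ι → ℝ) (U : ι → (E 2 →ₗᵢ[ℝ] E 3)) (m : Fin 5 → ι) (i0 : ι)
    (i : ℕ) : ℝ :=
  if h : i < 6 then √(al n b U ((Fin.snoc m i0 : Fin 6 → ι) ⟨i, h⟩)) else 0

omit [DecidableEq ι] in
theorem xs_spec (m : Fin 5 → ι) (i0 : ι) (i : Fin 6) :
    xs n b U m i0 i = √(al n b U ((Fin.snoc m i0 : Fin 6 → ι) i)) := by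
  unfold xs
  rw [dif_pos i.isLt]

omit [DecidableEq ι] in
theorem xs_nonneg (m : Fin 5 → ι) (i0 : ι) (i : ℕ) : 0 ≤ xs n b U m i0 i := by
  unfold xs
  split_ifs
  · exact Real.sqrt_nonneg _
  · exact le_refl _

omit [DecidableEq ι] in
theorem xs_cast (m : Fin 5 → ι) (i0 : ι) (i : Fin 5) : xs n b U m i0 i.1 = √(al n b U (m i)) := by
  have h := xs_spec (n := n) (b := b) (U := U) m i0 i.castSucc
  rw [Fin.snoc_castSucc (α := fun _ => ι)] at h
  exact h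

omit [DecidableEq ι] in
theorem xs_last (m : Fin 5 → ι) (i0 : ι) : xs n b U m i0 5 = √(al n b U i0) := by
  have h := xs_spec (n := n) (b := b) (U := U) m i0 (Fin.last 5)
  rw [Fin.snoc_last (α := fun _ => ι)] at h
  exact h

theorem xs_le (hU : ∀ i, Frame (n i) (U i)) (hI : Irr n b) (m : Fin 5 → ι) (i0 : ι) (i : ℕ)
    (hi : i < 6) : 1000 * xs n b U m i0 i ≤ 708 := by
  have h := xs_spec (n := n) (b := b) (U := U) m i0 ⟨i, hi⟩
  change xs n b U m i0 i = _ at h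
  rw [h]
  have h2 : √(al n b U ((Fin.snoc m i0 : Fin 6 → ι) ⟨i, hi⟩)) ≤ 0.708 := by
    rw [Real.sqrt_le_iff]
    refine ⟨by norm_num, (al_le hU hI _).trans (by norm_num)⟩
  linarith

omit [DecidableEq ι] in
/-- the sixth coordinate is the smallest one -/
theorem xs_last_le (hU : ∀ i, Frame (n i) (U i)) (hI : Irr n b) {m : Fin 5 → ι}
    (hL : Largest n b U m) {i0 : ι} (hi0 : i0 ∉ Set.range m) (i : ℕ) (hi : i < 6) :
    xs n b U m i0 5 ≤ xs n b U m i0 i := by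
  rw [xs_last]
  rcases Nat.lt_or_ge i 5 with h | h
  · have h1 := xs_cast (n := n) (b := b) (U := U) m i0 ⟨i, h⟩
    change xs n b U m i0 i = _ at h1
    rw [h1]
    exact Real.sqrt_le_sqrt (al_largest hU hI hL hi0 _)
  · have : i = 5 := by omega
    subst this
    rw [xs_last]

/-- relabelling of the named facets -/
theorem relab {m : Fin 5 → ι} (hL : Largest n b U m) (h9 : NinePairs n b m)
    (σ τ : Fin 5 → Fin 5) (h1 : ∀ k, σ (τ k) = k) (h2 : ∀ k, τ (σ k) = k)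
    (h3 : ∀ i j : Fin 5, i < j → ¬ (i = 3 ∧ j = 4) → FILL.Nine (σ i) (σ j)) :
    Largest n b U (fun k => m (σ k)) ∧ NinePairs n b (fun k => m (σ k)) ∧
      Set.range (fun k => m (σ k)) = Set.range m ∧
      tail n b U (fun k => m (σ k)) = tail n b U m := by
  have hr : Set.range (fun k => m (σ k)) = Set.range m := by
    have h4 : Function.Surjective σ := fun k => ⟨τ k, h1 k⟩
    exact h4.range_comp m
  refine ⟨⟨fun i j hij => ?_, fun k hk i => ?_⟩, fun i j hij h34 => ?_, hr, ?_⟩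
  · have h4 := hL.1 hij
    rw [← h2 i, ← h2 j, h4]
  · rw [hr] at hk
    exact hL.2 k hk _
  · exact FILL.nine_adj h9 (h3 i j hij h34)
  · unfold tail
    have hiff : ∀ a, a ∉ Set.range (fun k => m (σ k)) ↔ a ∉ Set.range m := by
      intro a
      rw [hr]
    exact Fintype.sum_equiv (Equiv.subtypeEquivRight hiff) _ _ fun a => rfl

/-- the facts on neighbours for `run5` -/
theorem hna5 (hI : Irr n b) {m : Fin 5 → ι} (hm : Function.Injective m)
    (h9 : NinePairs n b m) : ∀ a c : Fin 5, (a.1, c.1) ∈ [((3 : ℕ), (4 : ℕ))] ∨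
      (c.1, a.1) ∈ [((3 : ℕ), (4 : ℕ))] → len n b (m a) (m c) = 0 := by
  have h34 := len_zero_of_not n b (len34 hI hm h9)
  intro a c h
  rcases h with h | h
  · rw [List.mem_singleton, Prod.mk.injEq] at h
    have e1 : a = 3 := Fin.ext h.1
    have e2 : c = 4 := Fin.ext h.2
    rw [e1, e2]
    exact h34
  · rw [List.mem_singleton, Prod.mk.injEq] at h
    have e1 : c = 3 := Fin.ext h.1
    have e2 : a = 4 := Fin.ext h.2
    rw [e1, e2, FILL.len_symm]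
    exact h34

end caseA

end Pool.Agent.Work.MP_3892ce_num
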