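import Pool.Agent.Work.MP_3892ce_num.SpecDefs

/-! # Melzak's problem, case A: data of the certificate R3 (generated) -/

set_option autoImplicit false
set_option maxRecDepth 100000

namespace Pool.Agent.Work.MP_3892ce_num.R3

def D : PD := ⟨5, [(3, 4)], [[0, 1, 2], [0, 1, 3], [0, 2, 3], [1, 2, 3], [0, 1, 4], [0, 2, 4], [1, 2, 4]], [(3, 0, 1), (0, 3, 1), (1, 3, 0)]⟩

end Pool.Agent.Work.MP_3892ce_num.R3
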