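import Pool.Agent.Work.MP_3892ce_num.SpecDefs
import Pool.Agent.Work.MP_3892ce_static.AR1
import Pool.Agent.Work.MP_3892ce_static.AR2

/-! # Areas of the bodies in the facets, from the integer data (helper74) -/

set_option autoImplicit false

open Finset Real MeasureTheory

namespace Pool.Agent.Work.MP_3892ce_num

open Pool.Agent.Work.MP_3892ce_static (E seg sg extra Stmt_AR1 Stmt_AR2b)
open Pool.Agent.Work.MP_3892ce_static.AR2 (sg_nonneg)

theorem list_range_sum {A : Type*} [AddCommMonoid A] (n : ℕ) (f : ℕ → A) :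
    ((List.range n).map f).sum = ∑ i : Fin n, f i := by
  rw [← Finset.sum_range]
  rfl

variable {D : PD} {S : Spec}

theorem facOk_r {a : ℕ} (h : facOk D S a = true) : 0 < (S.F a).r := by
  simp only [facOk, Bool.and_eq_true, decide_eq_true_eq] at h
  exact h.1.1.1

theorem facOk_rw {a : ℕ} (h : facOk D S a = true) : (S.F a).r ≤ (S.F a).w := by
  simp only [facOk, Bool.and_eq_true, decide_eq_true_eq] at h
  exact h.1.1.2

theorem facOk_c {a : ℕ} (h : facOk D S a = true) : 0 ≤ (S.F a).c := by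
  simp only [facOk, Bool.and_eq_true, decide_eq_true_eq] at h
  exact h.1.2

theorem facOk_h {a : ℕ} (h : facOk D S a = true) {c : ℕ} (hc : c < D.k) : 0 ≤ S.h a c := by
  simp only [facOk, Bool.and_eq_true, decide_eq_true_eq, List.all_eq_true, List.mem_range] at h
  exact (h.2 c hc).1.1

theorem facOk_hh {a : ℕ} (h : facOk D S a = true) {c : ℕ} (hc : c < D.k) (hac : a ≠ c) :
    S.h a c + S.h c a = 10000 := by
  simp only [facOk, Bool.and_eq_true, decide_eq_true_eq, List.all_eq_true, List.mem_range,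
    Bool.or_eq_true] at h
  exact ((h.2 c hc).1.2).resolve_left hac

theorem facOk_cert {a : ℕ} (h : facOk D S a = true) {c : ℕ} (hc : c < D.k)
    (hac : D.adj a c = true) :
    sgCok (S.F a).r (S.h a c) ((S.F a).tq.getD c (0, 0)).1 ((S.F a).tq.getD c (0, 0)).2 = true := by
  simp only [facOk, Bool.and_eq_true, decide_eq_true_eq, List.all_eq_true, List.mem_range,
    Bool.or_eq_true, Bool.not_eq_true'] at h
  rcases (h.2 c hc).2 with h1 | h1
  · rw [hac] at h1
    exact absurd h1 (by decide)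
  · exact h1

/-- bound for the sum of the segments -/
theorem sum_sg_le {a : ℕ} (h : facOk D S a = true) (s : Finset (Fin D.k))
    (hs : ∀ c ∈ s, D.adj a c = true) :
    ∑ c ∈ s, sg ((S.F a).r / 10000) ((S.h a c : ℝ) / 10000) ≤
      (sumU D S a : ℝ) / 100000000000000000 := by
  have hr : (0 : ℝ) < ((S.F a).r : ℝ) / 10000 := by
    have : (0 : ℝ) < ((S.F a).r : ℝ) := by exact_mod_cast facOk_r h
    positivity
  have hn : ∀ c : Fin D.k, 0 ≤ sg ((S.F a).r / 10000) ((S.h a c : ℝ) / 10000) := by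
    intro c
    refine sg_nonneg hr ?_
    have : (0 : ℝ) ≤ (S.h a c : ℝ) := by exact_mod_cast facOk_h h c.2
    positivity
  have h1 : ∀ c : Fin D.k, D.adj a c = true →
      sg ((S.F a).r / 10000) ((S.h a c : ℝ) / 10000) ≤
        ((sgC (S.F a).r (S.h a c) ((S.F a).tq.getD c (0, 0)).1
          ((S.F a).tq.getD c (0, 0)).2 : ℤ) : ℝ) / 100000000000000000 := by
    intro c hc
    exact sg_le_of (facOk_cert h c.2 hc)
  unfold sumU
  rw [list_range_sum, Int.cast_sum, Finset.sum_div]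
  calc ∑ c ∈ s, sg ((S.F a).r / 10000) ((S.h a c : ℝ) / 10000)
      ≤ ∑ c ∈ s, (((if D.adj a c then sgC (S.F a).r (S.h a c) ((S.F a).tq.getD c (0, 0)).1
          ((S.F a).tq.getD c (0, 0)).2 else 0 : ℤ)) : ℝ) / 100000000000000000 := by
        refine sum_le_sum fun c hc => ?_
        rw [if_pos (hs c hc)]
        exact h1 c (hs c hc)
    _ ≤ _ := by
        refine sum_le_sum_of_subset_of_nonneg (subset_univ s) fun c _ _ => ?_
        by_cases hc : D.adj a c = true
        · rw [if_pos hc]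
          exact (hn c).trans (h1 c hc)
        · rw [if_neg hc]
          simp

theorem pi_lo : (3141592650 : ℝ) / 1000000000 ≤ π := by
  have := Real.pi_gt_d20
  linarith

/-- lower bound of the area of the disc minus segments -/
theorem areaP_le {a : ℕ} (h : facOk D S a = true) (s : Finset (Fin D.k))
    (hs : ∀ c ∈ s, D.adj a c = true) :
    (areaP D S a : ℝ) / 100000000000000000 ≤ π * (((S.F a).r : ℝ) / 10000) ^ 2 -
      ∑ c ∈ s, sg ((S.F a).r / 10000) ((S.h a c : ℝ) / 10000) := by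
  have h1 := sum_sg_le h s hs
  have h2 : (3141592650 * ((S.F a).r * (S.F a).r) : ℝ) / 100000000000000000 ≤
      π * (((S.F a).r : ℝ) / 10000) ^ 2 := by
    have h3 := mul_le_mul_of_nonneg_right pi_lo (sq_nonneg (((S.F a).r : ℝ) / 10000))
    refine le_trans (le_of_eq ?_) h3
    ring
  unfold areaP
  push_cast
  rw [sub_div]
  exact sub_le_sub h2 h1

theorem vol_fin {κ : Type} (w : ℝ) (p : κ → Prop) (ν : κ → E 2) (d : κ → ℝ) :
    volume {y : E 2 | ‖y‖ ≤ w ∧ ∀ c, p c → inner ℝ (ν c) y ≤ d c} ≠ ⊤ := by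
  refine ne_top_of_le_ne_top ?_ (measure_mono (t := Metric.closedBall (0 : E 2) w) ?_)
  · exact measure_closedBall_lt_top.ne
  · intro y hy
    rw [mem_closedBall_zero_iff]
    exact hy.1

/-- a plain facet -/
theorem facet_plain (hAR1 : Stmt_AR1) {a : Fin D.k} (hf : facOk D S a = true)
    (hp : plainOk D S a = true) (ν : Fin D.k → E 2) (p : Fin D.k → Prop)
    (hν : ∀ c, p c → ‖ν c‖ = 1) (hadj : ∀ c, p c → D.adj a c = true) :
    (((S.F a).c : ℝ) / 100000) ^ 2 / 4 ≤
      (volume {y : E 2 | ‖y‖ ≤ ((S.F a).w : ℝ) / 10000 ∧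
        ∀ c, p c → inner ℝ (ν c) y ≤ (S.h a c : ℝ) / 10000}).toReal := by
  classical
  have hr : (0 : ℝ) < ((S.F a).r : ℝ) / 10000 := by
    have : (0 : ℝ) < ((S.F a).r : ℝ) := by exact_mod_cast facOk_r hf
    positivity
  have hrw : ((S.F a).r : ℝ) / 10000 ≤ ((S.F a).w : ℝ) / 10000 := by
    have : ((S.F a).r : ℝ) ≤ (S.F a).w := by exact_mod_cast facOk_rw hf
    linarith
  set s : Finset (Fin D.k) := univ.filter p with hs
  have h1 := hAR1 (Fin D.k) s ν (fun c => (S.h a c : ℝ) / 10000) (((S.F a).r : ℝ) / 10000)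
    (fun c hc => hν c (mem_filter.1 hc).2)
    (fun c _ => by
      have : (0 : ℝ) ≤ (S.h a c : ℝ) := by exact_mod_cast facOk_h hf c.2
      positivity) hr
  have h2 := areaP_le hf s (fun c hc => hadj c (mem_filter.1 hc).2)
  have h3 : (volume {y : E 2 | ‖y‖ ≤ ((S.F a).r : ℝ) / 10000 ∧
      ∀ j ∈ s, inner ℝ (ν j) y ≤ (S.h a j : ℝ) / 10000}).toReal ≤
      (volume {y : E 2 | ‖y‖ ≤ ((S.F a).w : ℝ) / 10000 ∧
        ∀ c, p c → inner ℝ (ν c) y ≤ (S.h a c : ℝ) / 10000}).toReal := by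
    refine ENNReal.toReal_mono (vol_fin _ _ _ _) (measure_mono ?_)
    rintro y ⟨hy1, hy2⟩
    exact ⟨hy1.trans hrw, fun c hc => hy2 c (mem_filter.2 ⟨mem_univ _, hc⟩)⟩
  have h4 : (((S.F a).c : ℝ) / 100000) ^ 2 / 4 ≤ (areaP D S a : ℝ) / 100000000000000000 := by
    have h5 : ((S.F a).c : ℝ) * (S.F a).c * 10000000 ≤ 4 * (areaP D S a : ℝ) := by
      have := of_decide_eq_true hp
      exact_mod_cast this
    rw [div_pow, div_div, div_le_div_iff₀ (by norm_num) (by norm_num)]
    nlinarith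
  exact h4.trans (h2.trans (h1.trans h3))

/-- chord of `2 √(A + B arccos s)`, nonnegative up to the right end -/
theorem chord_sqrt' {A B sa sb c m s : ℝ} (hB : 0 ≤ B) (h0 : 0 ≤ sa) (h1 : sb ≤ 1)
    (hA : 0 ≤ A + B * arccos sb) (ha : (c - m * sa) ≤ 2 * √(A + B * arccos sa))
    (hb : (c - m * sb) ≤ 2 * √(A + B * arccos sb)) (hs : sa ≤ s) (hs' : s ≤ sb) :
    c - m * s ≤ 2 * √(A + B * arccos s) := by
  have hc : ConcaveOn ℝ (Set.Icc sa sb) (fun s => √(A + B * arccos s)) := by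
    have h1 : ConcaveOn ℝ (Set.Icc 0 1) (fun s => A + B * arccos s) :=
      (concaveOn_const A (convex_Icc 0 1)).add (arccos_concave.smul hB)
    have hsub : Set.Icc sa sb ⊆ Set.Icc 0 1 := fun x hx => ⟨h0.trans hx.1, by linarith [hx.2]⟩
    have hnn : ∀ x ∈ Set.Icc sa sb, 0 ≤ A + B * arccos x := by
      intro x hx
      have h5 : arccos sb ≤ arccos x := arccos_le_arccos hx.2
      have h6 := mul_le_mul_of_nonneg_left h5 hB
      linarith
    refine ⟨convex_Icc sa sb, fun x hx y hy a b ha hb hab => ?_⟩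
    have h2 := h1.2 (hsub hx) (hsub hy) ha hb hab
    have h3 := (strictConcaveOn_sqrt.concaveOn).2 (Set.mem_Ici.2 (hnn x hx))
      (Set.mem_Ici.2 (hnn y hy)) ha hb hab
    exact h3.trans (Real.sqrt_le_sqrt h2)
  rcases hs.eq_or_lt with rfl | hlt
  · exact ha
  have hab : 0 < sb - sa := by linarith
  set a := (sb - s) / (sb - sa) with had
  set b := (s - sa) / (sb - sa) with hbd
  have ha0 : 0 ≤ a := div_nonneg (by linarith) hab.le
  have hb0 : 0 ≤ b := div_nonneg (by linarith) hab.le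
  have hsum : a + b = 1 := by
    rw [had, hbd, ← add_div, div_eq_one_iff_eq hab.ne']
    ring
  have hcomb : a * sa + b * sb = s := by
    rw [had, hbd]
    field_simp
    ring
  have h2 := hc.2 (x := sa) ⟨le_refl _, by linarith⟩ (y := sb) ⟨by linarith, le_refl _⟩
    ha0 hb0 hsum
  simp only [smul_eq_mul] at h2
  rw [hcomb] at h2
  have h3 : c - m * s = a * (c - m * sa) + b * (c - m * sb) := by
    have : c = (a + b) * c := by rw [hsum, one_mul]
    rw [← hcomb]
    linear_combination this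
  have h4 := mul_le_mul_of_nonneg_left ha ha0
  have h5 := mul_le_mul_of_nonneg_left hb hb0
  rw [h3]
  linarith

/-- a facet with a known angle -/
theorem facet_ang (hAR2 : Stmt_AR2b) {a : Fin D.k} (hf : facOk D S a = true) {A : AngC}
    (hp : angOk D S a A = true) (ν : Fin D.k → E 2) (p : Fin D.k → Prop)
    (hν : ∀ c, p c → ‖ν c‖ = 1) (hadj : ∀ c, p c → D.adj a c = true)
    (j1 j2 : Fin D.k) (hj : D.cor.getD (D.idx a) (0, 0, 0) = (a.1, j1.1, j2.1))
    (hp1 : p j1) (hp2 : p j2) (h12 : j1 ≠ j2) {s : ℝ} (hs0 : 0 ≤ s) (hs1 : s ≤ 1)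
    (hin : inner ℝ (ν j1) (ν j2) = 2 * s ^ 2 - 1) (hn1 : -1 < inner ℝ (ν j1) (ν j2))
    (hn2 : inner ℝ (ν j1) (ν j2) < 1)
    (hcone : ∀ c, p c → c ≠ j1 → c ≠ j2 →
      ¬ ∃ α β : ℝ, 0 < α ∧ 0 < β ∧ ν c = α • ν j1 + β • ν j2)
    (hsa : ((S.sb.getD (D.idx a) (0, 10000)).1 : ℝ) ≤ 10000 * s)
    (hsb : 10000 * s ≤ ((S.sb.getD (D.idx a) (0, 10000)).2 : ℝ)) :
    (max (((S.F a).c : ℝ) - A.m * s) 0 / 100000) ^ 2 / 4 ≤
      (volume {y : E 2 | ‖y‖ ≤ ((S.F a).w : ℝ) / 10000 ∧
        ∀ c, p c → inner ℝ (ν c) y ≤ (S.h a c : ℝ) / 10000}).toReal := by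
  classical
  have hr0 := facOk_r hf
  have hr : (0 : ℝ) < ((S.F a).r : ℝ) / 10000 := by
    have : (0 : ℝ) < ((S.F a).r : ℝ) := by exact_mod_cast hr0
    positivity
  have hrw0 := facOk_rw hf
  have hrw : ((S.F a).r : ℝ) / 10000 ≤ ((S.F a).w : ℝ) / 10000 := by
    have : ((S.F a).r : ℝ) ≤ (S.F a).w := by exact_mod_cast hrw0
    linarith
  simp only [angOk, Bool.and_eq_true, Bool.or_eq_true, decide_eq_true_eq, hj] at hp
  set F := S.F a with hF
  set d1 := S.h a j1 with hd1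
  set d2 := S.h a j2 with hd2
  set sb := S.sb.getD (D.idx a) (0, 10000) with hsbd
  set P := areaP D S a with hP
  set L1 := sgUv F.r d1 A.l1.1 A.l1.2 with hL1
  set L2 := sgUv F.r d2 A.l2.1 A.l2.2 with hL2
  set U1 := sgUv F.w d1 A.w1.1 A.w1.2 with hU1
  set U2 := sgUv F.w d2 A.w2.1 A.w2.2 with hU2
  set E2 := U1 + U2 - L1 - L2 with hE2
  set B := F.w * F.w - F.r * F.r with hB
  obtain ⟨⟨⟨⟨⟨⟨⟨⟨⟨⟨⟨⟨_, hb0⟩, hb1⟩, hb2⟩, cU1⟩, cU2⟩, cL1⟩, cL2⟩, cta⟩, ctb⟩, hA⟩, hXa⟩, hXb⟩ := hp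
  -- certified values
  have vU1 := seg_le_of cU1
  have vU2 := seg_le_of cU2
  have vL1 := le_seg_of cL1
  have vL2 := le_seg_of cL2
  rw [← hU1] at vU1
  rw [← hU2] at vU2
  rw [← hL1] at vL1
  rw [← hL2] at vL2
  have wta := acLB_spec cta
  have wtb := acLB_spec ctb
  have dr1 : d1 < F.r := by
    simp only [sgLok, Bool.and_eq_true, decide_eq_true_eq] at cL1
    exact cL1.1.1.1.2
  have dr2 : d2 < F.r := by
    simp only [sgLok, Bool.and_eq_true, decide_eq_true_eq] at cL2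
    exact cL2.1.1.1.2
  have dr1' : (d1 : ℝ) / 10000 < (F.r : ℝ) / 10000 := by
    have : (d1 : ℝ) < F.r := by exact_mod_cast dr1
    linarith
  have dr2' : (d2 : ℝ) / 10000 < (F.r : ℝ) / 10000 := by
    have : (d2 : ℝ) < F.r := by exact_mod_cast dr2
    linarith
  have hB0 : (0 : ℝ) ≤ (B : ℝ) := by
    have h1 : (0 : ℝ) < F.r := by exact_mod_cast hr0
    have h2 : (F.r : ℝ) ≤ F.w := by exact_mod_cast hrw0
    rw [hB]
    push_cast
    nlinarith
  -- the angle
  have hg1 : 2 * arccos s ≤ π := by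
    have := (arccos_le_pi_div_two (x := s)).2 hs0
    linarith
  have hg2 : inner ℝ (ν j1) (ν j2) ≤ cos (2 * arccos s) := by
    rw [cos_two_mul, cos_arccos (by linarith) hs1, hin]
  -- the gain
  set e0 : ℝ := (B : ℝ) / 100000000 * arccos s - (E2 : ℝ) / 200000000000000000 with he0
  set e : ℝ := min e0 (min ((L1 : ℝ) / 100000000000000000) ((L2 : ℝ) / 100000000000000000)) with he
  have he1 : e ≤ extra ((F.r : ℝ) / 10000) ((F.w : ℝ) / 10000) ((d1 : ℝ) / 10000)
      ((d2 : ℝ) / 10000) (2 * arccos s) := by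
    refine (min_le_left _ _).trans ?_
    unfold extra
    rw [he0]
    have e1 : (((F.w : ℝ) / 10000) ^ 2 - ((F.r : ℝ) / 10000) ^ 2) * (2 * arccos s) =
        2 * ((B : ℝ) / 100000000 * arccos s) := by
      rw [hB]
      push_cast
      ring
    rw [e1]
    have e2 : (E2 : ℝ) = U1 + U2 - L1 - L2 := by
      rw [hE2]
      push_cast
      ring
    rw [e2]
    linarith
  have he2 : e ≤ seg ((F.r : ℝ) / 10000) ((d1 : ℝ) / 10000) :=
    ((min_le_right _ _).trans (min_le_left _ _)).trans vL1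
  have he3 : e ≤ seg ((F.r : ℝ) / 10000) ((d2 : ℝ) / 10000) :=
    ((min_le_right _ _).trans (min_le_right _ _)).trans vL2
  set t : Finset (Fin D.k) := univ.filter p with ht
  have h1 := hAR2 (Fin D.k) t ν (fun c => (S.h a c : ℝ) / 10000) ((F.r : ℝ) / 10000)
    ((F.w : ℝ) / 10000) (2 * arccos s) j1 j2
    (fun c hc => hν c (mem_filter.1 hc).2)
    (fun c _ => by
      have : (0 : ℝ) ≤ (S.h a c : ℝ) := by exact_mod_cast facOk_h hf c.2
      positivity) hr hrw (mem_filter.2 ⟨mem_univ _, hp1⟩) (mem_filter.2 ⟨mem_univ _, hp2⟩) h12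
    dr1' dr2' hg1 hn1 hn2 hg2 (fun c hc => hcone c (mem_filter.1 hc).2) e he1 he2 he3
  have h2 := areaP_le hf t (fun c hc => hadj c (mem_filter.1 hc).2)
  rw [← hP] at h2
  have h3 : (P : ℝ) / 100000000000000000 + e ≤
      (volume {y : E 2 | ‖y‖ ≤ (F.w : ℝ) / 10000 ∧
        ∀ c, p c → inner ℝ (ν c) y ≤ (S.h a c : ℝ) / 10000}).toReal := by
    have h4 : {y : E 2 | ‖y‖ ≤ (F.w : ℝ) / 10000 ∧
        ∀ c, p c → inner ℝ (ν c) y ≤ (S.h a c : ℝ) / 10000} =
        {y : E 2 | ‖y‖ ≤ (F.w : ℝ) / 10000 ∧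
          ∀ j ∈ t, inner ℝ (ν j) y ≤ (S.h a j : ℝ) / 10000} := by
      ext y
      refine and_congr Iff.rfl ⟨fun h c hc => h c (mem_filter.1 hc).2, fun h c hc =>
        h c (mem_filter.2 ⟨mem_univ _, hc⟩)⟩
    rw [h4]
    exact le_trans (by linarith) h1
  rcases le_or_gt ((F.c : ℝ) - A.m * s) 0 with hneg | hpos
  · rw [max_eq_right hneg]
    have h0 : ((0 : ℝ) / 100000) ^ 2 / 4 = 0 := by norm_num
    rw [h0]
    exact ENNReal.toReal_nonneg
  have hnn := hpos.le
  refine le_trans ?_ h3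
  rw [max_eq_left hnn]
  -- the chord
  set Q : ℝ := (P : ℝ) / 100000000000000000 - (E2 : ℝ) / 200000000000000000 with hQ
  have hQ0 : 0 ≤ Q + (B : ℝ) / 100000000 * arccos ((sb.2 : ℝ) / 10000) := by
    have h5 : (0 : ℝ) ≤ 2 * P - E2 + 2 * B * A.tb := by exact_mod_cast hA
    have h7 : (A.tb : ℝ) / 1000000000 ≤ arccos ((sb.2 : ℝ) / 10000) := by simpa using wtb
    have h8 : (B : ℝ) / 100000000 * ((A.tb : ℝ) / 1000000000) ≤
        (B : ℝ) / 100000000 * arccos ((sb.2 : ℝ) / 10000) :=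
      mul_le_mul_of_nonneg_left h7 (by positivity)
    have h6 : Q + (B : ℝ) / 100000000 * ((A.tb : ℝ) / 1000000000) =
        (2 * P - E2 + 2 * B * A.tb : ℝ) / 200000000000000000 := by
      rw [hQ]
      ring
    have h9 : (0 : ℝ) ≤ (2 * P - E2 + 2 * B * A.tb : ℝ) / 200000000000000000 := by positivity
    linarith
  set Lm := 2 * min L1 L2 with hLm
  -- both ends, first bound
  have hend : ∀ (z T : ℤ), (F.c * 10000 - A.m * z ≤ 0 ∨ (F.c * 10000 - A.m * z) *
      (F.c * 10000 - A.m * z) ≤ 20 * (2 * P + min (2 * B * T - E2) Lm)) →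
      (T : ℝ) / 1000000000 ≤ arccos ((z : ℝ) / 10000) →
      (F.c : ℝ) / 100000 - (A.m : ℝ) / 100000 * ((z : ℝ) / 10000) ≤
        2 * √(Q + (B : ℝ) / 100000000 * arccos ((z : ℝ) / 10000)) := by
    intro z T hz hT
    have e1 : (F.c : ℝ) / 100000 - (A.m : ℝ) / 100000 * ((z : ℝ) / 10000) =
        ((F.c * 10000 - A.m * z : ℤ) : ℝ) / 1000000000 := by
      push_cast
      ring
    rw [e1]
    set X := F.c * 10000 - A.m * z with hX
    rcases hz with hz | hz
    · have h5 : (X : ℝ) / 1000000000 ≤ 0 :=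
        div_nonpos_of_nonpos_of_nonneg (by exact_mod_cast hz) (by norm_num)
      exact h5.trans (by positivity)
    · have hz' : X * X ≤ 20 * (2 * P + (2 * B * T - E2)) :=
        hz.trans (by
          have := min_le_left (2 * B * T - E2) Lm
          linarith)
      have h6 : (X : ℝ) * X ≤ 20 * (2 * P + (2 * B * T - E2)) := by exact_mod_cast hz'
      have h7 : (X : ℝ) / 1000000000 / 2 ≤ √(Q + (B : ℝ) / 100000000 * arccos ((z : ℝ) / 10000)) := by
        refine Real.le_sqrt_of_sq_le ?_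
        have h8 : (B : ℝ) / 100000000 * ((T : ℝ) / 1000000000) ≤
            (B : ℝ) / 100000000 * arccos ((z : ℝ) / 10000) :=
          mul_le_mul_of_nonneg_left hT (by positivity)
        have h9 : ((X : ℝ) / 1000000000 / 2) ^ 2 = (X : ℝ) * X / 4000000000000000000 := by ring
        rw [h9]
        have h10 : (X : ℝ) * X / 4000000000000000000 ≤
            20 * (2 * P + (2 * B * T - E2)) / 4000000000000000000 :=
          div_le_div_of_nonneg_right h6 (by norm_num)
        refine h10.trans ?_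
        have h11 : (20 * (2 * P + (2 * B * T - E2)) : ℝ) / 4000000000000000000 =
            Q + (B : ℝ) / 100000000 * ((T : ℝ) / 1000000000) := by
          rw [hQ]
          ring
        rw [h11]
        linarith
      linarith
  have hsb2 : (sb.2 : ℝ) ≤ 10000 := by exact_mod_cast hb2
  have hsb1 : (0 : ℝ) ≤ sb.1 := by exact_mod_cast hb0
  have key := chord_sqrt' (A := Q) (B := (B : ℝ) / 100000000) (sa := (sb.1 : ℝ) / 10000)
    (sb := (sb.2 : ℝ) / 10000) (c := (F.c : ℝ) / 100000) (m := (A.m : ℝ) / 100000) (s := s)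
    (by positivity) (by positivity) (by rw [div_le_one (by norm_num)]; exact hsb2) hQ0
    (hend sb.1 A.ta hXa (by simpa using wta)) (hend sb.2 A.tb hXb (by simpa using wtb))
    (by rw [div_le_iff₀ (by norm_num)]; linarith) (by rw [le_div_iff₀ (by norm_num)]; linarith)
  have hW0 : 0 ≤ Q + (B : ℝ) / 100000000 * arccos s := by
    have h5 : arccos ((sb.2 : ℝ) / 10000) ≤ arccos s :=
      arccos_le_arccos (by rw [le_div_iff₀ (by norm_num)]; linarith)
    have h6 : (B : ℝ) / 100000000 * arccos ((sb.2 : ℝ) / 10000) ≤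
        (B : ℝ) / 100000000 * arccos s := mul_le_mul_of_nonneg_left h5 (by positivity)
    linarith
  have hX0 : 0 ≤ ((F.c : ℝ) - A.m * s) / 100000 := by positivity
  -- first bound
  have b1 : (((F.c : ℝ) - A.m * s) / 100000) ^ 2 / 4 ≤ Q + (B : ℝ) / 100000000 * arccos s := by
    have h5 : ((F.c : ℝ) - A.m * s) / 100000 ≤ 2 * √(Q + (B : ℝ) / 100000000 * arccos s) := by
      refine le_trans (le_of_eq ?_) key
      ring
    have := pow_le_pow_left₀ hX0 h5 2
    rw [mul_pow, Real.sq_sqrt hW0] at this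
    linarith
  -- second bound: linear interpolation
  have b2 : (((F.c : ℝ) - A.m * s) / 100000) ^ 2 / 4 ≤
      (P : ℝ) / 100000000000000000 + (Lm : ℝ) / 200000000000000000 := by
    have hM : ∀ (z T : ℤ), (F.c * 10000 - A.m * z ≤ 0 ∨ (F.c * 10000 - A.m * z) *
        (F.c * 10000 - A.m * z) ≤ 20 * (2 * P + min (2 * B * T - E2) Lm)) →
        ((F.c * 10000 - A.m * z : ℤ) : ℝ) ≤ 0 ∨
        (((F.c * 10000 - A.m * z : ℤ) : ℝ)) ^ 2 ≤ 20 * (2 * P + Lm) := by
      intro z T hz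
      rcases hz with hz | hz
      · left
        exact_mod_cast hz
      · right
        have hz' : (F.c * 10000 - A.m * z) * (F.c * 10000 - A.m * z) ≤ 20 * (2 * P + Lm) :=
          hz.trans (by
            have := min_le_right (2 * B * T - E2) Lm
            linarith)
        rw [sq]
        exact_mod_cast hz'
    have ha := hM sb.1 A.ta hXa
    have hb := hM sb.2 A.tb hXb
    -- the value at `s` is at most the value at an end
    have hcase : (10000 * ((F.c : ℝ) - A.m * s) ≤ ((F.c * 10000 - A.m * sb.1 : ℤ) : ℝ)) ∨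
        (10000 * ((F.c : ℝ) - A.m * s) ≤ ((F.c * 10000 - A.m * sb.2 : ℤ) : ℝ)) := by
      push_cast
      rcases le_total 0 (A.m : ℝ) with hm | hm
      · left
        nlinarith
      · right
        nlinarith
    have hfin : ∀ Z : ℝ, 10000 * ((F.c : ℝ) - A.m * s) ≤ Z → (Z ≤ 0 ∨ Z ^ 2 ≤ 20 * (2 * P + Lm)) →
        (((F.c : ℝ) - A.m * s) / 100000) ^ 2 / 4 ≤
          (P : ℝ) / 100000000000000000 + (Lm : ℝ) / 200000000000000000 ∨
        ((F.c : ℝ) - A.m * s) ≤ 0 := by
      intro Z hZ hZZ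
      rcases hZZ with h5 | h5
      · right
        linarith
      · left
        have h6 : (10000 * ((F.c : ℝ) - A.m * s)) ^ 2 ≤ Z ^ 2 :=
          pow_le_pow_left₀ (by positivity) hZ 2
        have h7 := h6.trans h5
        have e1 : (((F.c : ℝ) - A.m * s) / 100000) ^ 2 / 4 =
            (10000 * ((F.c : ℝ) - A.m * s)) ^ 2 / 4000000000000000000 := by ring
        have e2 : (P : ℝ) / 100000000000000000 + (Lm : ℝ) / 200000000000000000 =
            20 * (2 * P + Lm) / 4000000000000000000 := by ring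
        rw [e1, e2]
        exact div_le_div_of_nonneg_right h7 (by norm_num)
    rcases hcase with h5 | h5
    · exact (hfin _ h5 ha).resolve_right (not_le.2 hpos)
    · exact (hfin _ h5 hb).resolve_right (not_le.2 hpos)
  -- together
  have hL1' : (Lm : ℝ) ≤ 2 * L1 := by
    have : Lm ≤ 2 * L1 := by
      rw [hLm]
      have := min_le_left L1 L2
      linarith
    exact_mod_cast this
  have hL2' : (Lm : ℝ) ≤ 2 * L2 := by
    have : Lm ≤ 2 * L2 := by
      rw [hLm]
      have := min_le_right L1 L2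
      linarith
    exact_mod_cast this
  have hfinal : (((F.c : ℝ) - A.m * s) / 100000) ^ 2 / 4 - (P : ℝ) / 100000000000000000 ≤ e := by
    rw [he]
    refine le_min ?_ (le_min ?_ ?_)
    · rw [he0]
      rw [hQ] at b1
      linarith
    · linarith
    · linarith
  linarith

end Pool.Agent.Work.MP_3892ce_num
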