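import Pool.Agent.Work.MP_3892ce_num.Spec
import Pool.Agent.Work.MP_3892ce_static.FAMG2
import Pool.Agent.Work.MP_3892ce_str.Glue

/-! # From specifications to the family inequalities of the engine (helper74) -/

set_option autoImplicit false

open Finset Real MeasureTheory

namespace Pool.Agent.Work.MP_3892ce_num

open Pool.Agent.Work.MP_3892ce_static
open Pool.Agent.Work.MP_3892ce_str

/-- the family of a specification -/
def Spec.fam (D : PD) (S : Spec) : Eng.Fam where
  c := (List.range D.k).map fun a => (S.F a).c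
  t := S.t
  m := D.cor.map fun p => S.m p.1
  sb := S.sb

theorem fam_len (D : PD) (S : Spec) : (S.fam D).c.length = D.k ∧
    (S.fam D).m.length ≤ (D.cor.map fun p => p.1).length := by
  refine ⟨?_, ?_⟩
  · simp [Spec.fam]
  · simp [Spec.fam]

/-- the family inequalities of `glue` -/
theorem hfam {ι : Type} [Fintype ι] [DecidableEq ι] {n : ι → E 3} {b : ι → ℝ}
    {U : ι → (E 2 →ₗᵢ[ℝ] E 3)} (hU : ∀ i, Frame (n i) (U i)) (hI : Irr n b)
    (D : PD) (Ss : List Spec) (hchk : Ss.all (specOk D) = true)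
    (m : Fin D.k → ι) (hm : Function.Injective m)
    (hna : ∀ a c : Fin D.k, (a.1, c.1) ∈ D.na ∨ (c.1, a.1) ∈ D.na → len n b (m a) (m c) = 0)
    (hns : ∀ i, i ∉ Set.range m → ∃ N ∈ D.ns, ∀ a : Fin D.k, 0 < len n b i (m a) → a.1 ∈ N)
    (s : ℕ → ℝ) (hC : Corners n b U D m s)
    (x : ℕ → ℝ) (hx : ∀ i : Fin D.k, x i = √(al n b U (m i))) :
    ∀ f ∈ Ss.map (Spec.fam D), (∀ j < f.sb.length, ((f.sb.getD j (0, 0)).1 : ℝ) ≤ 10000 * s j ∧
          10000 * s j ≤ ((f.sb.getD j (0, 0)).2 : ℝ)) →
        ∑ i ∈ Finset.range D.k, (f.c.getD i 0 : ℝ) * x i +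
          (f.t : ℝ) * ∑ a : {a : ι // a ∉ Set.range m}, √(al n b U a.1) -
          ∑ j ∈ Finset.range (D.cor.map fun p => p.1).length,
            (f.m.getD j 0 : ℝ) * s j * x ((D.cor.map fun p => p.1).getD j 0) ≤
          100000 * (L n b / √(SS n b U)) := by
  classical
  intro f hf hsb
  obtain ⟨S, hS, rfl⟩ := List.mem_map.1 hf
  have hok : specOk D S = true := (List.all_eq_true.1 hchk) S hS
  have hS0 : 0 < √(SS n b U) := Real.sqrt_pos.2 (SS_pos hU hI)
  have key := spec_ineq (blk_FAMG2 Closed.STATN Closed.AR1) Closed.AR1 blk_AR2b n b U hU hI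
    (fun i j h => (Closed.STATN ι n b U hU hI).1 i j h) m hm hna hns s hC hsb hok
    (fun a => x a * √(SS n b U)) (fun a => by rw [hx a, sqrt_area hU hI (m a)])
  have e1 : ∑ i with i ∉ Set.range m, √(area (HP n b) (n i) (U i) (b i)) =
      (∑ a : {a : ι // a ∉ Set.range m}, √(al n b U a.1)) * √(SS n b U) := by
    rw [Finset.sum_mul]
    rw [Finset.sum_subtype (univ.filter fun i => i ∉ Set.range m) (p := fun i => i ∉ Set.range m)
      (fun i => by simp)]
    exact sum_congr rfl fun a _ => sqrt_area hU hI a.1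
  rw [e1] at key
  have e2 : ∑ a ∈ range D.k, ((S.F a).c : ℝ) * (x a * √(SS n b U)) =
      (∑ i ∈ Finset.range D.k, ((S.fam D).c.getD i 0 : ℝ) * x i) * √(SS n b U) := by
    rw [Finset.sum_mul]
    refine sum_congr rfl fun a ha => ?_
    have h1 : (S.fam D).c.getD a 0 = (S.F a).c := by
      have h2 : a < ((List.range D.k).map fun a => (S.F a).c).length := by
        rw [List.length_map, List.length_range]
        exact mem_range.1 ha
      show ((List.range D.k).map fun a => (S.F a).c).getD a 0 = _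
      rw [List.getD_eq_getElem _ _ h2, List.getElem_map, List.getElem_range]
    rw [h1]
    ring
  have e3 : ∑ j ∈ range D.cor.length, (S.m (D.cor.getD j (0, 0, 0)).1 : ℝ) * s j *
      (x (D.cor.getD j (0, 0, 0)).1 * √(SS n b U)) =
      (∑ j ∈ Finset.range (D.cor.map fun p => p.1).length,
        ((S.fam D).m.getD j 0 : ℝ) * s j * x ((D.cor.map fun p => p.1).getD j 0)) *
          √(SS n b U) := by
    rw [Finset.sum_mul, List.length_map]
    refine sum_congr rfl fun j hj => ?_
    have hj' := mem_range.1 hj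
    have h1 : (S.fam D).m.getD j 0 = S.m (D.cor.getD j (0, 0, 0)).1 := by
      have h2 : j < (D.cor.map fun p => S.m p.1).length := by
        rw [List.length_map]
        exact hj'
      show (D.cor.map fun p => S.m p.1).getD j 0 = _
      rw [List.getD_eq_getElem _ _ h2, List.getElem_map, List.getD_eq_getElem _ _ hj']
    have h3 : (D.cor.map fun p => p.1).getD j 0 = (D.cor.getD j (0, 0, 0)).1 := by
      have h2 : j < (D.cor.map fun p => p.1).length := by
        rw [List.length_map]
        exact hj'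
      rw [List.getD_eq_getElem _ _ h2, List.getElem_map, List.getD_eq_getElem _ _ hj']
    rw [h1, h3]
    ring
  rw [e2, e3] at key
  have e4 : (S.fam D).t = S.t := rfl
  rw [e4, mul_div_assoc', le_div_iff₀ hS0]
  linarith

/-- the family of a specification, with the largest unnamed facet as last coordinate -/
def Spec.fam' (D : PD) (S : Spec) : Eng.Fam where
  c := ((List.range D.k).map fun a => (S.F a).c) ++ [S.t]
  t := S.t
  m := D.cor.map fun p => S.m p.1
  sb := S.sb

theorem fam'_len (D : PD) (S : Spec) : (S.fam' D).c.length = D.k + 1 ∧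
    (S.fam' D).m.length ≤ (D.cor.map fun p => p.1).length := by
  refine ⟨?_, ?_⟩
  · simp [Spec.fam']
  · simp [Spec.fam']

/-- the family inequalities of `glue`, with one more coordinate for an unnamed facet `i0` -/
theorem hfam' {ι : Type} [Fintype ι] [DecidableEq ι] {n : ι → E 3} {b : ι → ℝ}
    {U : ι → (E 2 →ₗᵢ[ℝ] E 3)} (hU : ∀ i, Frame (n i) (U i)) (hI : Irr n b)
    (D : PD) (Ss : List Spec) (hchk : Ss.all (specOk D) = true)
    (m : Fin D.k → ι) (hm : Function.Injective m)
    (hna : ∀ a c : Fin D.k, (a.1, c.1) ∈ D.na ∨ (c.1, a.1) ∈ D.na → len n b (m a) (m c) = 0)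
    (hns : ∀ i, i ∉ Set.range m → ∃ N ∈ D.ns, ∀ a : Fin D.k, 0 < len n b i (m a) → a.1 ∈ N)
    (s : ℕ → ℝ) (hC : Corners n b U D m s) (i0 : ι) (hi0 : i0 ∉ Set.range m)
    (m' : Fin (D.k + 1) → ι) (hm' : m' = Fin.snoc m i0)
    (x : ℕ → ℝ) (hx : ∀ i : Fin (D.k + 1), x i = √(al n b U (m' i))) :
    ∀ f ∈ Ss.map (Spec.fam' D), (∀ j < f.sb.length, ((f.sb.getD j (0, 0)).1 : ℝ) ≤ 10000 * s j ∧
          10000 * s j ≤ ((f.sb.getD j (0, 0)).2 : ℝ)) →
        ∑ i ∈ Finset.range (D.k + 1), (f.c.getD i 0 : ℝ) * x i +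
          (f.t : ℝ) * ∑ a : {a : ι // a ∉ Set.range m'}, √(al n b U a.1) -
          ∑ j ∈ Finset.range (D.cor.map fun p => p.1).length,
            (f.m.getD j 0 : ℝ) * s j * x ((D.cor.map fun p => p.1).getD j 0) ≤
          100000 * (L n b / √(SS n b U)) := by
  classical
  intro f hf hsb
  obtain ⟨S, hS, rfl⟩ := List.mem_map.1 hf
  have hx0 : ∀ i : Fin D.k, x i = √(al n b U (m i)) := by
    intro i
    have h := hx i.castSucc
    rw [hm', Fin.snoc_castSucc] at h
    exact h
  have hxl : x D.k = √(al n b U i0) := by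
    have h := hx (Fin.last D.k)
    rw [hm', Fin.snoc_last] at h
    exact h
  have key := hfam hU hI D Ss hchk m hm hna hns s hC x hx0 (S.fam D)
    (List.mem_map.2 ⟨S, hS, rfl⟩) hsb
  have hlen : ((List.range D.k).map fun a => (S.F a).c).length = D.k := by
    rw [List.length_map, List.length_range]
  have e1 : ∑ i ∈ Finset.range (D.k + 1), ((S.fam' D).c.getD i 0 : ℝ) * x i =
      ∑ i ∈ Finset.range D.k, ((S.fam D).c.getD i 0 : ℝ) * x i + (S.t : ℝ) * √(al n b U i0) := by
    rw [Finset.sum_range_succ]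
    refine congrArg₂ _ (sum_congr rfl fun i hi => ?_) ?_
    · have h1 : (S.fam' D).c.getD i 0 = (S.fam D).c.getD i 0 := by
        show (((List.range D.k).map fun a => (S.F a).c) ++ [S.t]).getD i 0 =
          ((List.range D.k).map fun a => (S.F a).c).getD i 0
        exact List.getD_append _ _ _ _ (by rw [hlen]; exact mem_range.1 hi)
      rw [h1]
    · have h1 : (S.fam' D).c.getD D.k 0 = S.t := by
        show (((List.range D.k).map fun a => (S.F a).c) ++ [S.t]).getD D.k 0 = S.t
        rw [List.getD_append_right _ _ _ _ (by rw [hlen]), hlen, Nat.sub_self]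
        rfl
      rw [h1, hxl]
  have e2 : ∑ a : {a : ι // a ∉ Set.range m}, √(al n b U a.1) =
      √(al n b U i0) + ∑ a : {a : ι // a ∉ Set.range m'}, √(al n b U a.1) := by
    have h1 : ∀ a, a ∉ Set.range m' ↔ a ≠ i0 ∧ a ∉ Set.range m := by
      intro a
      rw [hm', Fin.range_snoc, Set.mem_insert_iff, not_or]
    rw [← Finset.sum_subtype (univ.filter fun i => i ∉ Set.range m) (p := fun i => i ∉ Set.range m)
      (fun i => by simp) (fun a => √(al n b U a)),
      ← Finset.sum_subtype (univ.filter fun i => i ∉ Set.range m') (p := fun i => i ∉ Set.range m')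
      (fun i => by simp) (fun a => √(al n b U a))]
    have h2 : (univ.filter fun i => i ∉ Set.range m) =
        insert i0 (univ.filter fun i => i ∉ Set.range m') := by
      ext a
      simp only [mem_filter, mem_univ, true_and, mem_insert, h1]
      constructor
      · intro h
        by_cases ha : a = i0
        · exact Or.inl ha
        · exact Or.inr ⟨ha, h⟩
      · rintro (rfl | ⟨_, h⟩)
        · exact hi0
        · exact h
    rw [h2, sum_insert (fun h => by
      have := (h1 i0).1 (mem_filter.1 h).2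
      exact this.1 rfl)]
  have e3 : (S.fam' D).t = S.t := rfl
  have e4 : (S.fam D).t = S.t := rfl
  have e5 : (S.fam' D).m = (S.fam D).m := rfl
  rw [e4, e2] at key
  rw [e1, e3, e5]
  linarith

end Pool.Agent.Work.MP_3892ce_num
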