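import Pool.Agent.Work.MP_3892ce_num.Fam
import Pool.Agent.Work.MP_3892ce_static.RAD7
import Pool.Agent.Work.MP_3892ce_static.CONE5
import Pool.Agent.Work.MP_3892ce_static.TRI
import Pool.Agent.Work.MP_3892ce_static.NUCH
import Pool.Agent.Work.MP_3892ce_static.FILL

/-! # Neighbours of the named facets, and the corners (helper74) -/

set_option autoImplicit false

open Finset Real MeasureTheory

namespace Pool.Agent.Work.MP_3892ce_num

open Pool.Agent.Work.MP_3892ce_static
open Pool.Agent.Work.MP_3892ce_str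

section nbr

variable {ι : Type} [Fintype ι] [DecidableEq ι] {n : ι → E 3} {b : ι → ℝ}

/-- adjacent facets have a common edge of positive length -/
theorem len_pos_of_adj (hI : Irr n b) {i j : ι} (h : Adj n b i j) : 0 < len n b i j := by
  obtain ⟨hij, x, hi, hj, hx⟩ := h
  obtain ⟨u, hu, h1, h2⟩ := FILL.exists_orth (n i) (n j)
  have hO : IsOpen {y : E 3 | ∀ k, k ≠ i → k ≠ j → inner ℝ (n k) y < b k} := by
    simp only [Set.ofPred_forall]
    refine isOpen_iInter_of_finite fun k => isOpen_iInter_of_finite fun _ =>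
      isOpen_iInter_of_finite fun _ => ?_
    exact isOpen_lt (by fun_prop) continuous_const
  obtain ⟨ε, hε, hB⟩ := Metric.isOpen_iff.1 hO x hx
  have hun : 0 < ‖u‖ := norm_pos_iff.2 hu
  set y : E 3 := x + (ε / (2 * ‖u‖)) • u with hy
  have hd : dist y x = ε / 2 := by
    rw [dist_eq_norm, hy, add_sub_cancel_left, norm_smul, Real.norm_of_nonneg (by positivity)]
    field_simp
  have hyB : y ∈ {y : E 3 | ∀ k, k ≠ i → k ≠ j → inner ℝ (n k) y < b k} := by
    apply hB
    rw [Metric.mem_ball, hd]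
    linarith
  have hyi : inner ℝ (n i) y = b i := by
    rw [hy, inner_add_right, real_inner_smul_right, h1, hi]
    ring
  have hyj : inner ℝ (n j) y = b j := by
    rw [hy, inner_add_right, real_inner_smul_right, h2, hj]
    ring
  have hmem : ∀ z : E 3, inner ℝ (n i) z = b i → inner ℝ (n j) z = b j →
      (∀ k, k ≠ i → k ≠ j → inner ℝ (n k) z < b k) → z ∈ Face n b i ∩ Face n b j := by
    intro z hzi hzj hz
    have hzP : z ∈ HP n b := by
      intro k
      by_cases hk1 : k = i
      · rw [hk1, hzi]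
      by_cases hk2 : k = j
      · rw [hk2, hzj]
      exact (hz k hk1 hk2).le
    exact ⟨⟨hzP, hzi⟩, ⟨hzP, hzj⟩⟩
  have hbd : Bornology.IsBounded (Face n b i ∩ Face n b j) :=
    hI.bdd.subset fun z hz => hz.1.1
  unfold len
  rw [if_neg hij]
  have := Metric.dist_le_diam_of_mem hbd (hmem y hyi hyj hyB) (hmem x hi hj hx)
  rw [hd] at this
  linarith

theorem adj_of_len (hI : Irr n b) {i j : ι} (h : 0 < len n b i j) : Adj n b i j :=
  blk_ADJ ι n b hI i j h

theorem len_pos_iff (hI : Irr n b) {i j : ι} : 0 < len n b i j ↔ Adj n b i j :=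
  ⟨adj_of_len hI, len_pos_of_adj hI⟩

omit [Fintype ι] in
theorem len_zero_of_not (n : ι → E 3) (b : ι → ℝ) {i j : ι} (h : ¬ 0 < len n b i j) :
    len n b i j = 0 :=
  le_antisymm (not_lt.1 h) (len_nonneg n b i j)

/-- the nine pairs in any order -/
theorem nine_len (hI : Irr n b) {m : Fin 5 → ι} (h9 : NinePairs n b m) {p q : Fin 5}
    (h : FILL.Nine p q) : 0 < len n b (m p) (m q) :=
  len_pos_of_adj hI (FILL.nine_adj h9 h)

/-- the two triangles are not adjacent -/
theorem len34 (hI : Irr n b) {m : Fin 5 → ι} (hm : Function.Injective m)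
    (h9 : NinePairs n b m) : ¬ 0 < len n b (m 3) (m 4) := by
  intro h
  have h34 := adj_of_len hI h
  refine blk_RAD5 ι n b hI.int m hm fun i j hij => ?_
  by_cases h1 : i = 3 ∧ j = 4
  · rw [h1.1, h1.2]; exact h34
  by_cases h2 : i = 4 ∧ j = 3
  · rw [h2.1, h2.2]; exact FILL.adj_symm h34
  exact FILL.nine_adj h9 ⟨hij, h1, h2⟩

/-- a further facet is not adjacent to both triangles -/
theorem not_both (hI : Irr n b) {m : Fin 5 → ι} (hm : Function.Injective m)
    (h9 : NinePairs n b m) {k : ι} (hk : k ∉ Set.range m) :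
    ¬ (0 < len n b k (m 3) ∧ 0 < len n b k (m 4)) := by
  rintro ⟨h3, h4⟩
  have a3 := FILL.adj_symm (adj_of_len hI h3)
  have a4 := FILL.adj_symm (adj_of_len hI h4)
  refine blk_RAD7 ι n b hI.int (Fin.snoc m k) ?_ ⟨?_, ?_, ?_⟩
  · exact Fin.snoc_injective_iff.2 ⟨hm, hk⟩
  · intro i j hij hj h34
    have hi5 : i ≠ 5 := by
      rintro rfl
      have := j.isLt
      have h5 : (5 : Fin 6).1 < j.1 := hij
      simp at h5
      omega
    obtain ⟨i', rfl⟩ : ∃ i' : Fin 5, i = i'.castSucc := ⟨⟨i.1, by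
      have := i.isLt
      have h5 : i.1 ≠ 5 := fun h => hi5 (Fin.ext h)
      omega⟩, rfl⟩
    obtain ⟨j', rfl⟩ : ∃ j' : Fin 5, j = j'.castSucc := ⟨⟨j.1, by
      have := j.isLt
      have h5 : j.1 ≠ 5 := fun h => hj (Fin.ext h)
      omega⟩, rfl⟩
    rw [Fin.snoc_castSucc (α := fun _ => ι), Fin.snoc_castSucc (α := fun _ => ι)]
    refine h9 i' j' hij fun h => h34 ⟨?_, ?_⟩
    · rw [h.1]; rfl
    · rw [h.2]; rfl
  · have e3 : (3 : Fin 6) = (3 : Fin 5).castSucc := rfl
    have e5 : (5 : Fin 6) = Fin.last 5 := rfl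
    rw [e3, e5, Fin.snoc_castSucc (α := fun _ => ι), Fin.snoc_last (α := fun _ => ι)]
    exact a3
  · have e3 : (4 : Fin 6) = (4 : Fin 5).castSucc := rfl
    have e5 : (5 : Fin 6) = Fin.last 5 := rfl
    rw [e3, e5, Fin.snoc_castSucc (α := fun _ => ι), Fin.snoc_last (α := fun _ => ι)]
    exact a4

/-- a further facet is not adjacent to a triangle and to all quadrilaterals -/
theorem not_four (hI : Irr n b) {m : Fin 5 → ι} (hm : Function.Injective m)
    (h9 : NinePairs n b m) {k : ι} (hk : k ∉ Set.range m) {t : Fin 5} (ht : t = 3 ∨ t = 4) :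
    ¬ (0 < len n b k (m 0) ∧ 0 < len n b k (m 1) ∧ 0 < len n b k (m 2) ∧
      0 < len n b k (m t)) := by
  rintro ⟨h0, h1, h2, h3⟩
  have a : ∀ p : Fin 5, p ≠ 3 → p ≠ 4 → Adj n b k (m p) := by
    intro p hp3 hp4
    fin_cases p
    · exact adj_of_len hI h0
    · exact adj_of_len hI h1
    · exact adj_of_len hI h2
    · exact absurd rfl hp3
    · exact absurd rfl hp4
  have at' := adj_of_len hI h3
  have hkm : ∀ p, k ≠ m p := fun p h => hk ⟨p, h.symm⟩
  refine blk_RAD5 ι n b hI.int ![m 0, m 1, m 2, m t, k] ?_ ?_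
  · intro i j hij
    have ht0 : t ≠ 0 ∧ t ≠ 1 ∧ t ≠ 2 := by
      rcases ht with rfl | rfl <;> decide
    fin_cases i <;> fin_cases j <;> simp [hm.eq_iff, ht0.1, ht0.2.1, ht0.2.2, ht0.1.symm,
      ht0.2.1.symm, ht0.2.2.symm, hkm, (hkm _).symm] at hij ⊢
  · have q : ∀ p q : Fin 5, FILL.Nine p q → Adj n b (m p) (m q) := fun p q h => FILL.nine_adj h9 h
    have n01 := q 0 1 (by decide)
    have n02 := q 0 2 (by decide)
    have n12 := q 1 2 (by decide)
    have n0t : Adj n b (m 0) (m t) := q 0 t (by rcases ht with rfl | rfl <;> decide)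
    have n1t : Adj n b (m 1) (m t) := q 1 t (by rcases ht with rfl | rfl <;> decide)
    have n2t : Adj n b (m 2) (m t) := q 2 t (by rcases ht with rfl | rfl <;> decide)
    have a0 := a 0 (by decide) (by decide)
    have a1 := a 1 (by decide) (by decide)
    have a2 := a 2 (by decide) (by decide)
    intro i j hij
    fin_cases i <;> fin_cases j <;> first
      | exact absurd rfl hij
      | exact n01
      | exact n02
      | exact n12
      | exact n0t
      | exact n1t
      | exact n2t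
      | exact a0
      | exact a1
      | exact a2
      | exact at'
      | exact FILL.adj_symm n01
      | exact FILL.adj_symm n02
      | exact FILL.adj_symm n12
      | exact FILL.adj_symm n0t
      | exact FILL.adj_symm n1t
      | exact FILL.adj_symm n2t
      | exact FILL.adj_symm a0
      | exact FILL.adj_symm a1
      | exact FILL.adj_symm a2
      | exact FILL.adj_symm at'

/-- the possible sets of named neighbours of a further facet, for the nine pairs -/
def ns7 : List (List ℕ) :=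
  [[0, 1, 2], [0, 1, 3], [0, 2, 3], [1, 2, 3], [0, 1, 4], [0, 2, 4], [1, 2, 4]]

theorem nbr7 (hI : Irr n b) {m : Fin 5 → ι} (hm : Function.Injective m)
    (h9 : NinePairs n b m) {k : ι} (hk : k ∉ Set.range m) :
    ∃ N ∈ ns7, ∀ a : Fin 5, 0 < len n b k (m a) → a.1 ∈ N := by
  have hb := not_both hI hm h9 hk
  have h3 := not_four hI hm h9 hk (t := 3) (Or.inl rfl)
  have h4 := not_four hI hm h9 hk (t := 4) (Or.inr rfl)
  have tab : ∀ p : Fin 5 → Bool, ¬ (p 3 = true ∧ p 4 = true) →
      ¬ (p 0 = true ∧ p 1 = true ∧ p 2 = true ∧ p 3 = true) →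
      ¬ (p 0 = true ∧ p 1 = true ∧ p 2 = true ∧ p 4 = true) →
      ∃ N ∈ ns7, ∀ a : Fin 5, p a = true → a.1 ∈ N := by
    decide +kernel
  classical
  obtain ⟨N, hN, h⟩ := tab (fun a => decide (0 < len n b k (m a)))
    (by simpa using hb) (by simpa using h3) (by simpa using h4)
  exact ⟨N, hN, fun a ha => h a (by simpa using ha)⟩

end nbr

end Pool.Agent.Work.MP_3892ce_num
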