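import Pool.Agent.Work.MP_3892ce_num.Corn
import Pool.Agent.Work.MP_3892ce_str.Core10

/-! # Case A: from a certificate to the static bound (helper74)

Five named facets `m` (the largest ones, nine adjacent pairs) and the largest one `i0` of the others;
the engine has six coordinates. -/

set_option autoImplicit false

open Finset Real MeasureTheory

namespace Pool.Agent.Work.MP_3892ce_num

open Pool.Agent.Work.MP_3892ce_static
open Pool.Agent.Work.MP_3892ce_str

/-- the conditions on the integer data of the root: `rel i j`: it is known that `x_j ≤ x_i`, `bx`: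
known bounds of the coordinates (scale `10^3`) -/
def rootOk (P : Eng.Prob) (c : Eng.Cell) (rel : ℕ → ℕ → Bool) (bx : List (ℤ × ℤ)) : Bool :=
  decide (c.lo.length = 6) && (decide (c.hi.length = 6) && ((P.pos.all fun i => decide (i < 6)) &&
  (decide P.pos.Nodup && (decide (c.sb.length = P.pos.length) &&
  ((c.lo.all fun h => decide (0 ≤ h)) && (decide (0 < c.Y1) && (decide (c.Y1 ≤ 35) &&
  (decide (1000 ≤ c.Y2) && (decide (0 ≤ P.K2) &&
  (decide (P.K2 * P.K2 * P.K2 ≤ 25300 * (100000000 * 100000000 * 100000000)) &&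
  (decide (250744723 * 100000000000000000000 ≤ P.K2 * P.K2 * P.K2) &&
  ((decide (P.gr = [5]) || (decide (c.T1 ≤ 0) && decide (1000000 ≤ c.T2))) &&
  (((List.range 6).all fun i => decide (c.lo.getD i 0 ≤ (bx.getD i (0, 0)).1) &&
    decide ((bx.getD i (0, 0)).2 ≤ c.hi.getD i 0)) &&
  (decide ((bx.getD 5 (0, 0)).2 ≤ c.H) &&
  ((List.range 6).all fun i => ((P.dn.getD i []).all fun j => rel i j) &&
    ((P.up.getD i []).all fun j => decide (j < 6) && rel j i))))))))))))))))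

section run

variable {ι : Type} [Fintype ι] [DecidableEq ι] {n : ι → E 3} {b : ι → ℝ}
  {U : ι → (E 2 →ₗᵢ[ℝ] E 3)}

omit [Fintype ι] [DecidableEq ι] in
theorem notMem_snoc {k : ℕ} {m : Fin k → ι} {i0 : ι} (a : ι) :
    a ∉ Set.range (Fin.snoc m i0 : Fin (k + 1) → ι) ↔ a ≠ i0 ∧ a ∉ Set.range m := by
  rw [Fin.range_snoc, Set.mem_insert_iff, not_or]

/-- one more named facet -/
theorem sum_snoc {k : ℕ} {m : Fin k → ι} {i0 : ι} (hi0 : i0 ∉ Set.range m) (f : ι → ℝ) :
    ∑ a : {a : ι // a ∉ Set.range m}, f a.1 =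
      f i0 + ∑ a : {a : ι // a ∉ Set.range (Fin.snoc m i0 : Fin (k + 1) → ι)}, f a.1 := by
  classical
  rw [← Finset.sum_subtype (univ.filter fun i => i ∉ Set.range m) (p := fun i => i ∉ Set.range m)
    (fun i => by simp) (fun a => f a),
    ← Finset.sum_subtype (univ.filter fun i => i ∉ Set.range (Fin.snoc m i0 : Fin (k + 1) → ι))
      (p := fun i => i ∉ Set.range (Fin.snoc m i0 : Fin (k + 1) → ι))
      (fun i => by simp) (fun a => f a)]
  have h2 : (univ.filter fun i => i ∉ Set.range m) =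
      insert i0 (univ.filter fun i => i ∉ Set.range (Fin.snoc m i0 : Fin (k + 1) → ι)) := by
    ext a
    simp only [mem_filter, mem_univ, true_and, mem_insert, notMem_snoc]
    constructor
    · intro h
      by_cases ha : a = i0
      · exact Or.inl ha
      · exact Or.inr ⟨ha, h⟩
    · rintro (rfl | ⟨_, h⟩)
      · exact hi0
      · exact h
  rw [h2, sum_insert (fun h => by
    have := (notMem_snoc i0).1 (mem_filter.1 h).2
    exact this.1 rfl)]

/-- the largest one of the other facets -/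
theorem exists_i0 {k : ℕ} {m : Fin k → ι} (h : ∃ a, a ∉ Set.range m) :
    ∃ i0, i0 ∉ Set.range m ∧ ∀ a, a ∉ Set.range m → al n b U a ≤ al n b U i0 := by
  classical
  have hne : (univ.filter fun i => i ∉ Set.range m).Nonempty := by
    obtain ⟨a, ha⟩ := h
    exact ⟨a, by simpa using ha⟩
  obtain ⟨i0, h1, h2⟩ := Finset.exists_max_image _ (fun a => al n b U a) hne
  exact ⟨i0, by simpa using h1, fun a ha => h2 a (by simpa using ha)⟩

omit [DecidableEq ι] in
theorem al_largest (hU : ∀ i, Frame (n i) (U i)) (hI : Irr n b) {m : Fin 5 → ι}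
    (hL : Largest n b U m) {a : ι} (ha : a ∉ Set.range m) (i : Fin 5) :
    al n b U a ≤ al n b U (m i) := by
  unfold al
  exact div_le_div_of_nonneg_right (hL.2 a ha i) (SS_pos hU hI).le

theorem run (hU : ∀ i, Frame (n i) (U i)) (hI : Irr n b) {P : Eng.Prob} {c : Eng.Cell}
    {tr : Eng.Tree} (hch : Eng.check P c tr = true) {rel : ℕ → ℕ → Bool} {bx : List (ℤ × ℤ)}
    (hr : rootOk P c rel bx = true) {m : Fin 5 → ι} (hL : Largest n b U m) {i0 : ι}
    (hi0 : i0 ∉ Set.range m) (hmax : ∀ a, a ∉ Set.range m → al n b U a ≤ al n b U i0)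
    (x : ℕ → ℝ) (hx : ∀ i : Fin 6, x i = √(al n b U ((Fin.snoc m i0 : Fin 6 → ι) i)))
    (hbx : ∀ i < 6, ((bx.getD i (0, 0)).1 : ℝ) ≤ 1000 * x i ∧
      1000 * x i ≤ ((bx.getD i (0, 0)).2 : ℝ))
    (hrel : ∀ i < 6, ∀ j, rel i j = true → x j ≤ x i)
    (s : ℕ → ℝ)
    (hs : ∀ j < c.sb.length, ((c.sb.getD j (0, 0)).1 : ℝ) ≤ 10000 * s j ∧
        10000 * s j ≤ ((c.sb.getD j (0, 0)).2 : ℝ))
    (hS0 : 10000 * ∑ j ∈ Finset.range P.pos.length, s j ≤ (P.S0 : ℝ))
    (hT1 : (c.T1 : ℝ) ≤ 1000000 * tail n b U m) (hT2 : 1000000 * tail n b U m ≤ (c.T2 : ℝ))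
    (hfl : ∀ f ∈ P.fams, f.c.length = 6 ∧ f.m.length ≤ P.pos.length)
    (hfam : ∀ f ∈ P.fams, (∀ j < f.sb.length, ((f.sb.getD j (0, 0)).1 : ℝ) ≤ 10000 * s j ∧
          10000 * s j ≤ ((f.sb.getD j (0, 0)).2 : ℝ)) →
        ∑ i ∈ Finset.range 6, (f.c.getD i 0 : ℝ) * x i +
          (f.t : ℝ) * ∑ a : {a : ι // a ∉ Set.range (Fin.snoc m i0 : Fin 6 → ι)},
            √(al n b U a.1) -
          ∑ j ∈ Finset.range P.pos.length, (f.m.getD j 0 : ℝ) * s j * x (P.pos.getD j 0) ≤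
          100000 * (L n b / √(SS n b U))) :
    1684 * (volume (HP n b)).toReal ≤ L n b ^ 3 := by
  simp only [rootOk, Bool.and_eq_true, decide_eq_true_eq, List.all_eq_true, List.mem_range,
    Bool.or_eq_true] at hr
  obtain ⟨r1, r2, r3, r4, r5, r6, r7, r8, r9, r10, r11, r12, r13, r14, r15, r16⟩ := hr
  have hinj : Function.Injective (Fin.snoc m i0 : Fin 6 → ι) :=
    Fin.snoc_injective_iff.2 ⟨hL.1, hi0⟩
  have hT : (c.T1 : ℝ) ≤ 1000000 * (∑ i ∈ (Finset.range 6).filter (fun i => i ∈ P.gr), x i ^ 2 +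
      ∑ a : {a : ι // a ∉ Set.range (Fin.snoc m i0 : Fin 6 → ι)}, al n b U a.1) ∧
      1000000 * (∑ i ∈ (Finset.range 6).filter (fun i => i ∈ P.gr), x i ^ 2 +
      ∑ a : {a : ι // a ∉ Set.range (Fin.snoc m i0 : Fin 6 → ι)}, al n b U a.1) ≤ (c.T2 : ℝ) := by
    rcases r13 with r13 | ⟨r13, r13'⟩
    · have e1 : (Finset.range 6).filter (fun i => i ∈ P.gr) = {5} := by
        rw [r13]
        decide
      have e2 := hx 5
      have e3 : (5 : Fin 6) = Fin.last 5 := rfl
      rw [e3, Fin.snoc_last (α := fun _ => ι)] at e2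
      have e4 : x 5 = √(al n b U i0) := e2
      have e5 : ∑ i ∈ (Finset.range 6).filter (fun i => i ∈ P.gr), x i ^ 2 +
          ∑ a : {a : ι // a ∉ Set.range (Fin.snoc m i0 : Fin 6 → ι)}, al n b U a.1 =
          tail n b U m := by
        rw [e1, sum_singleton, e4, Real.sq_sqrt (al_pos hU hI i0).le]
        exact (sum_snoc hi0 (fun a => al n b U a)).symm
      rw [e5]
      exact ⟨hT1, hT2⟩
    · have h1 : (c.T1 : ℝ) ≤ 0 := by exact_mod_cast r13
      have h2 : (1000000 : ℝ) ≤ c.T2 := by exact_mod_cast r13'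
      have h3 : 0 ≤ ∑ i ∈ (Finset.range 6).filter (fun i => i ∈ P.gr), x i ^ 2 :=
        Finset.sum_nonneg fun i _ => sq_nonneg _
      have h4 : 0 ≤ ∑ a : {a : ι // a ∉ Set.range (Fin.snoc m i0 : Fin 6 → ι)}, al n b U a.1 :=
        Finset.sum_nonneg fun a _ => (al_pos hU hI a.1).le
      have h5 : ∑ i ∈ (Finset.range 6).filter (fun i => i ∈ P.gr), x i ^ 2 ≤
          ∑ i ∈ Finset.range 6, x i ^ 2 :=
        Finset.sum_le_sum_of_subset_of_nonneg (Finset.filter_subset _ _) fun i _ _ => sq_nonneg _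
      have h6 : ∑ i ∈ Finset.range 6, x i ^ 2 +
          ∑ a : {a : ι // a ∉ Set.range (Fin.snoc m i0 : Fin 6 → ι)}, al n b U a.1 = 1 := by
        rw [sum_split hinj (al n b U) (fun i => x i ^ 2)
          (fun i => by rw [hx i, Real.sq_sqrt (al_pos hU hI _).le])]
        exact sum_al hU hI
      constructor
      · linarith
      · linarith
  refine glue hU hI P c tr hch (k := 6) ?_ ?_ r4 r5 ?_ r6 r7 r8 r9 r1 (by norm_num)
    (Fin.snoc m i0) hinj x hx ?_ ?_ ?_ ?_ ?_ s hs hS0 ?_ ?_ hfam (by norm_num) r10 ?_ ?_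
  · rw [r1, r2]
  · rw [r1]
    exact r3
  · intro f hf
    rw [r1]
    exact hfl f hf
  · intro i hi
    obtain ⟨h1, h2⟩ := r14 i hi
    obtain ⟨h3, h4⟩ := hbx i hi
    have h1' : (c.lo.getD i 0 : ℝ) ≤ ((bx.getD i (0, 0)).1 : ℝ) := by exact_mod_cast h1
    have h2' : ((bx.getD i (0, 0)).2 : ℝ) ≤ (c.hi.getD i 0 : ℝ) := by exact_mod_cast h2
    exact ⟨h1'.trans h3, h4.trans h2'⟩
  · intro a ha i
    obtain ⟨ha1, ha2⟩ := (notMem_snoc a).1 ha
    refine Fin.lastCases ?_ (fun i => ?_) i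
    · rw [Fin.snoc_last (α := fun _ => ι)]
      exact hmax a ha2
    · rw [Fin.snoc_castSucc (α := fun _ => ι)]
      exact al_largest hU hI hL ha2 i
  · intro a ha
    obtain ⟨ha1, ha2⟩ := (notMem_snoc a).1 ha
    have h1 : √(al n b U a) ≤ √(al n b U i0) := Real.sqrt_le_sqrt (hmax a ha2)
    have e2 := hx 5
    have e3 : (5 : Fin 6) = Fin.last 5 := rfl
    rw [e3, Fin.snoc_last (α := fun _ => ι)] at e2
    have e4 : x 5 = √(al n b U i0) := e2
    have h2 := (hbx 5 (by norm_num)).2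
    have h3 : ((bx.getD 5 (0, 0)).2 : ℝ) ≤ (c.H : ℝ) := by exact_mod_cast r15
    rw [e4] at h2
    linarith
  · intro i hi j hj
    exact hrel i hi j ((r16 i hi).1 j hj)
  · intro i hi j hj
    obtain ⟨hj6, hji⟩ := (r16 i hi).2 j hj
    exact hrel j hj6 i hji
  · exact hT.1
  · exact hT.2
  · have h1 : (P.K2 : ℝ) * P.K2 * P.K2 ≤ 25300 * (100000000 * 100000000 * 100000000) := by
      exact_mod_cast r11
    have h2 : ((P.K2 : ℝ) / 100000000) ^ 3 =
        (P.K2 : ℝ) * P.K2 * P.K2 / (100000000 * 100000000 * 100000000) := by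
      ring
    rw [h2, div_le_iff₀ (by norm_num)]
    exact h1
  · have h1 : (250744723 : ℝ) * 100000000000000000000 ≤ (P.K2 : ℝ) * P.K2 * P.K2 := by
      exact_mod_cast r12
    have h2 : ((P.K2 : ℝ) / 100000000) ^ 3 =
        (P.K2 : ℝ) * P.K2 * P.K2 / (100000000 * 100000000 * 100000000) := by
      ring
    have h3 : (25074.4723 : ℝ) ≤ ((P.K2 : ℝ) / 100000000) ^ 3 := by
      rw [h2, le_div_iff₀ (by norm_num)]
      refine le_trans (le_of_eq (by norm_num)) h1
    have h4 : (3.14159265358 : ℝ) ≤ π := by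
      have := Real.pi_gt_d20
      linarith
    calc (1684 : ℝ) ^ 2 ≤ 36 * 3.14159265358 * 25074.4723 := by norm_num
      _ ≤ 36 * π * ((P.K2 : ℝ) / 100000000) ^ 3 := by gcongr

end run

end Pool.Agent.Work.MP_3892ce_num
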