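import Pool.Agent.Work.MP_3892ce_num.Facets
import Pool.Agent.Work.MP_3892ce_static.Interface3

/-! # From the integer data of a family to its inequality (helper74) -/

set_option autoImplicit false

open Finset Real MeasureTheory

namespace Pool.Agent.Work.MP_3892ce_num

open Pool.Agent.Work.MP_3892ce_static (E HP Irr Frame area len L nu seg sg Stmt_AR1 Stmt_AR2b
  Stmt_FAMG2)
open Pool.Agent.Work.MP_3892ce_static.AR2 (sg_nonneg)

/-- the geometric situation at the corners of the problem: `s j` is the sine of half of the face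
angle at the corner number `j` -/
structure Corners {ι : Type} [Fintype ι] [DecidableEq ι] (n : ι → E 3) (b : ι → ℝ)
    (U : ι → (E 2 →ₗᵢ[ℝ] E 3)) (D : PD) (m : Fin D.k → ι) (s : ℕ → ℝ) : Prop where
  nodup : (D.cor.map fun p => p.1).Nodup
  cor : ∀ j < D.cor.length, ∃ a j1 j2 : Fin D.k, D.cor.getD j (0, 0, 0) = (a.1, j1.1, j2.1) ∧
    0 < len n b (m a) (m j1) ∧ 0 < len n b (m a) (m j2) ∧ j1 ≠ j2 ∧ 0 ≤ s j ∧ s j ≤ 1 ∧
    inner ℝ (nu n U (m a) (m j1)) (nu n U (m a) (m j2)) = 2 * s j ^ 2 - 1 ∧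
    -1 < inner ℝ (nu n U (m a) (m j1)) (nu n U (m a) (m j2)) ∧
    inner ℝ (nu n U (m a) (m j1)) (nu n U (m a) (m j2)) < 1 ∧
    ∀ c, 0 < len n b (m a) (m c) → c ≠ j1 → c ≠ j2 →
      ¬ ∃ α β : ℝ, 0 < α ∧ 0 < β ∧
        nu n U (m a) (m c) = α • nu n U (m a) (m j1) + β • nu n U (m a) (m j2)

variable {D : PD} {S : Spec}

theorem specOk_t (h : specOk D S = true) : 0 ≤ S.t := by
  simp only [specOk, Bool.and_eq_true, decide_eq_true_eq] at h
  exact h.1.1

theorem specOk_fac (h : specOk D S = true) {a : ℕ} (ha : a < D.k) : facOk D S a = true := by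
  simp only [specOk, Bool.and_eq_true, decide_eq_true_eq, List.all_eq_true, List.mem_range] at h
  exact (h.1.2 a ha).1

theorem specOk_plain (h : specOk D S = true) {a : ℕ} (ha : a < D.k) (hn : (S.F a).ang = none) :
    plainOk D S a = true := by
  simp only [specOk, Bool.and_eq_true, decide_eq_true_eq, List.all_eq_true, List.mem_range] at h
  have := (h.1.2 a ha).2
  rw [hn] at this
  exact this

theorem specOk_ang (h : specOk D S = true) {a : ℕ} (ha : a < D.k) {A : AngC}
    (hn : (S.F a).ang = some A) : angOk D S a A = true := by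
  simp only [specOk, Bool.and_eq_true, decide_eq_true_eq, List.all_eq_true, List.mem_range] at h
  have := (h.1.2 a ha).2
  rw [hn] at this
  exact this

theorem specOk_tail (h : specOk D S = true) {N : List ℕ} (hN : N ∈ D.ns) :
    ∃ T : TailC, N.Nodup ∧ (∀ a ∈ N, a < D.k) ∧ tailOk S T N = true := by
  simp only [specOk, Bool.and_eq_true, decide_eq_true_eq, List.all_eq_true, List.mem_range] at h
  obtain ⟨i, hi, hiN⟩ := List.getElem_of_mem hN
  have h1 := h.2 i hi
  have h2 : D.ns.getD i [] = N := by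
    rw [List.getD_eq_getElem _ _ hi, hiN]
  rw [h2] at h1
  exact ⟨_, h1.1.1, h1.1.2, h1.2⟩

theorem ang_idx {a : ℕ} {A : AngC} (h : angOk D S a A = true) : D.idx a < D.cor.length := by
  simp only [angOk, Bool.and_eq_true, decide_eq_true_eq] at h
  exact h.1.1.1.1.1.1.1.1.1.1.1.1

theorem idx_mem {a : ℕ} (h : D.idx a < D.cor.length) : (D.cor.getD (D.idx a) (0, 0, 0)).1 = a := by
  unfold PD.idx at h ⊢
  set l := D.cor.map fun p => p.1 with hl
  have hlen : l.length = D.cor.length := by rw [hl, List.length_map]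
  have h1 : l.idxOf a < l.length := by rw [hlen]; exact h
  have h2 := List.getElem_idxOf h1
  rw [List.getD_eq_getElem _ _ h]
  simp only [hl, List.getElem_map] at h2
  exact h2

/-- the condition of `FAMG2` for an unnamed facet -/
theorem tail_cond (h : specOk D S = true) {N : List ℕ} (hN : N ∈ D.ns) (p : Fin D.k → Prop)
    [DecidablePred p] (hp : ∀ a, p a → a.1 ∈ N) :
    (∃ ρ : ℝ, 0 < ρ ∧ ρ ≤ 1 / 2 ∧ (∀ a, p a → ((S.F a).w : ℝ) / 10000 ≤ 1) ∧
      ((S.t : ℝ) / 100000) ^ 2 ≤ 4 * (π * ρ ^ 2 -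
        ∑ a, if p a then sg ρ (1 - ((S.F a).w : ℝ) / 10000) else 0))
    ∨ ∃ (a0 : Fin D.k) (x ρ : ℝ), p a0 ∧ ((S.F a0).w : ℝ) / 10000 = 1 + x ∧ 0 ≤ x ∧ 0 ≤ ρ ∧
      (∀ a, a ≠ a0 → p a → x + 2 * ρ ≤ 1 - ((S.F a).w : ℝ) / 10000) ∧ x + 2 * ρ ≤ 1 / 2 ∧
      (S.t : ℝ) / 100000 ≤ 2 * √π * ρ := by
  obtain ⟨T, hnd, hNk, hT⟩ := specOk_tail h hN
  simp only [tailOk, tail0, Bool.and_eq_true, decide_eq_true_eq, List.all_eq_true,
    Bool.or_eq_true] at hT
  rcases hT with ⟨ht0, hz⟩ | hT
  · have ht : (S.t : ℝ) = 0 := by exact_mod_cast ht0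
    by_cases hex : ∃ a0, p a0 ∧ 10000 ≤ (S.F a0).w
    · right
      obtain ⟨a0, ha0, hw0⟩ := hex
      obtain ⟨h1, h2⟩ := (hz a0.1 (hp a0 ha0)).resolve_left (not_lt.2 hw0)
      have hw0' : (10000 : ℝ) ≤ (S.F a0).w := by exact_mod_cast hw0
      refine ⟨a0, ((S.F a0).w - 10000 : ℝ) / 10000, 0, ha0, by ring, ?_, le_refl _, ?_, ?_, ?_⟩
      · have h5 : (0 : ℝ) ≤ (S.F a0).w - 10000 := by linarith
        positivity
      · intro a ha hpa
        have h5 := (h1 a.1 (hp a hpa)).resolve_left (fun hh => ha (Fin.ext hh))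
        have h6 : ((S.F a0).w : ℝ) - 10000 ≤ 10000 - (S.F a).w := by exact_mod_cast h5
        linarith
      · have h6 : ((S.F a0).w : ℝ) - 10000 ≤ 5000 := by exact_mod_cast h2
        linarith
      · rw [ht]
        simp
    · left
      push Not at hex
      refine ⟨1 / 10000, by norm_num, by norm_num, ?_, ?_⟩
      · intro a ha
        have : ((S.F a).w : ℝ) < 10000 := by exact_mod_cast hex a ha
        linarith
      · have hz0 : ∑ a, (if p a then sg (1 / 10000) (1 - ((S.F a).w : ℝ) / 10000) else 0) = 0 := by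
          refine sum_eq_zero fun a _ => ?_
          split_ifs with hpa
          · unfold Pool.Agent.Work.MP_3892ce_static.sg
            have h5 : (S.F a).w ≤ 9999 := by
              have := hex a hpa
              omega
            have h6 : ((S.F a).w : ℝ) ≤ 9999 := by exact_mod_cast h5
            rw [if_neg]
            push Not
            linarith
          · rfl
        rw [hz0, ht]
        have h7 : ((0 : ℝ) / 100000) ^ 2 = 0 := by norm_num
        rw [h7, sub_zero]
        have := pi_pos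
        positivity
  obtain ⟨⟨⟨⟨hr0, hr5⟩, hcert⟩, hmain⟩, hopt⟩ := hT
  by_cases hex : ∃ a0, p a0 ∧ 10000 < (S.F a0).w
  · right
    obtain ⟨a0, ha0, hw0⟩ := hex
    obtain ⟨⟨⟨h1, h2⟩, h3⟩, h4⟩ := (hopt a0.1 (hp a0 ha0)).resolve_left (not_le.2 hw0)
    refine ⟨a0, ((S.F a0).w - 10000 : ℝ) / 10000, (S.rho2 : ℝ) / 10000, ha0, by ring, ?_, ?_, ?_,
      ?_, ?_⟩
    · have : (10000 : ℝ) < (S.F a0).w := by exact_mod_cast hw0
      have h5 : (0 : ℝ) ≤ (S.F a0).w - 10000 := by linarith
      positivity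
    · have : (0 : ℝ) ≤ S.rho2 := by exact_mod_cast h3
      positivity
    · intro a ha hpa
      have h5 := (h1 a.1 (hp a hpa)).resolve_left (fun hh => ha (Fin.ext hh))
      have h6 : ((S.F a0).w : ℝ) - 10000 + 2 * S.rho2 ≤ 10000 - (S.F a).w := by exact_mod_cast h5
      linarith
    · have h6 : ((S.F a0).w : ℝ) - 10000 + 2 * S.rho2 ≤ 5000 := by exact_mod_cast h2
      linarith
    · have h6 : (S.t : ℝ) * S.t * 1000000 ≤ 4 * 314159265 * (S.rho2 * S.rho2) := by
        exact_mod_cast h4
      have h7 : (0 : ℝ) ≤ S.rho2 := by exact_mod_cast h3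
      refine abs_le_of_sq_le_sq' ?_ (by positivity) |>.2
      rw [mul_pow, mul_pow, Real.sq_sqrt pi_pos.le]
      have h8 : (314159265 : ℝ) / 100000000 ≤ π := by
        have := Real.pi_gt_d20
        linarith
      have h9 : (2 : ℝ) ^ 2 * (314159265 / 100000000) * ((S.rho2 : ℝ) / 10000) ^ 2 ≤
          2 ^ 2 * π * ((S.rho2 : ℝ) / 10000) ^ 2 :=
        mul_le_mul_of_nonneg_right (by linarith) (sq_nonneg _)
      refine le_trans ?_ h9
      have e1 : ((S.t : ℝ) / 100000) ^ 2 = (S.t : ℝ) * S.t * 1000000 / 10000000000000000 := by ring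
      have e2 : (2 : ℝ) ^ 2 * (314159265 / 100000000) * ((S.rho2 : ℝ) / 10000) ^ 2 =
          4 * 314159265 * (S.rho2 * S.rho2) / 10000000000000000 := by ring
      rw [e1, e2]
      exact div_le_div_of_nonneg_right h6 (by norm_num)
  · left
    push Not at hex
    have hr0' : (0 : ℝ) < T.rho := by exact_mod_cast hr0
    have hρ : (0 : ℝ) < (T.rho : ℝ) / 10000 := by positivity
    refine ⟨(T.rho : ℝ) / 10000, hρ, ?_, ?_, ?_⟩
    · have : (T.rho : ℝ) ≤ 5000 := by exact_mod_cast hr5
      linarith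
    · intro a ha
      have : ((S.F a).w : ℝ) ≤ 10000 := by exact_mod_cast hex a ha
      linarith
    · -- the sum
      have hsum : ∑ a, (if p a then sg ((T.rho : ℝ) / 10000) (1 - ((S.F a).w : ℝ) / 10000) else 0) ≤
          (tailU S T N : ℝ) / 100000000000000000 := by
        have h1 : (tailU S T N : ℝ) / 100000000000000000 = ∑ a ∈ N.toFinset,
            ((if 10000 < (S.F a).w then (0 : ℤ) else
              sgC T.rho (10000 - (S.F a).w) (T.tq.getD a (0, 0)).1
                (T.tq.getD a (0, 0)).2 : ℤ) : ℝ) / 100000000000000000 := by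
          rw [← Finset.sum_div, ← Int.cast_sum]
          congr 2
          unfold tailU
          rw [List.sum_toFinset _ hnd]
        rw [h1]
        have hterm : ∀ a ∈ N.toFinset, (0 : ℝ) ≤
            ((if 10000 < (S.F a).w then (0 : ℤ) else
              sgC T.rho (10000 - (S.F a).w) (T.tq.getD a (0, 0)).1
                (T.tq.getD a (0, 0)).2 : ℤ) : ℝ) / 100000000000000000 := by
          intro a ha
          by_cases hw : 10000 < (S.F a).w
          · rw [if_pos hw]
            simp
          · rw [if_neg hw]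
            have h2 := sg_le_of ((hcert a (List.mem_toFinset.1 ha)).resolve_left hw)
            refine le_trans (sg_nonneg hρ ?_) h2
            have : ((S.F a).w : ℝ) ≤ 10000 := by exact_mod_cast not_lt.1 hw
            push_cast
            have h5 : (0 : ℝ) ≤ 10000 - (S.F a).w := by linarith
            positivity
        rw [← Finset.sum_filter]
        have himg : ∑ a ∈ univ.filter p, sg ((T.rho : ℝ) / 10000) (1 - ((S.F a).w : ℝ) / 10000) =
            ∑ a ∈ (univ.filter p).image (fun a : Fin D.k => a.1),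
              sg ((T.rho : ℝ) / 10000) (1 - ((S.F a).w : ℝ) / 10000) := by
          rw [sum_image fun x _ y _ hxy => Fin.ext hxy]
        rw [himg]
        refine (sum_le_sum ?_).trans (sum_le_sum_of_subset_of_nonneg ?_ fun a ha _ => hterm a ha)
        · intro a ha
          obtain ⟨a', ha', rfl⟩ := mem_image.1 ha
          have hpa := (mem_filter.1 ha').2
          have hw : ¬ 10000 < (S.F a').w := not_lt.2 (hex a' hpa)
          rw [if_neg hw]
          have h2 := sg_le_of ((hcert a'.1 (hp a' hpa)).resolve_left hw)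
          refine le_trans (le_of_eq ?_) h2
          push_cast
          congr 1
          ring
        · intro a ha
          obtain ⟨a', ha', rfl⟩ := mem_image.1 ha
          exact List.mem_toFinset.2 (hp a' (mem_filter.1 ha').2)
      have h6 : (S.t : ℝ) * S.t * 10000000 ≤ 4 * (3141592650 * (T.rho * T.rho) - tailU S T N) := by
        exact_mod_cast hmain
      have h7 := mul_le_mul_of_nonneg_right pi_lo (sq_nonneg ((T.rho : ℝ) / 10000))
      have e1 : ((S.t : ℝ) / 100000) ^ 2 = (S.t : ℝ) * S.t * 10000000 / 100000000000000000 := by ring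
      rw [e1]
      have h8 : (S.t : ℝ) * S.t * 10000000 / 100000000000000000 ≤
          4 * (3141592650 * (T.rho * T.rho) - tailU S T N) / 100000000000000000 :=
        div_le_div_of_nonneg_right h6 (by norm_num)
      refine h8.trans ?_
      have e2 : (4 : ℝ) * (3141592650 * (T.rho * T.rho) - tailU S T N) / 100000000000000000 =
          4 * (3141592650 / 1000000000 * ((T.rho : ℝ) / 10000) ^ 2 -
            tailU S T N / 100000000000000000) := by ring
      rw [e2]
      linarith

/-- **the inequality of a family** -/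
theorem spec_ineq (hF2 : Stmt_FAMG2) (hAR1 : Stmt_AR1) (hAR2 : Stmt_AR2b)
    {ι : Type} [Fintype ι] [DecidableEq ι] (n : ι → E 3) (b : ι → ℝ)
    (U : ι → (E 2 →ₗᵢ[ℝ] E 3)) (hF : ∀ i, Frame (n i) (U i)) (hI : Irr n b)
    (hν : ∀ i j, 0 < len n b i j → ‖nu n U i j‖ = 1)
    (m : Fin D.k → ι) (hm : Function.Injective m)
    (hna : ∀ a c : Fin D.k, (a.1, c.1) ∈ D.na ∨ (c.1, a.1) ∈ D.na → len n b (m a) (m c) = 0)
    (hns : ∀ i, i ∉ Set.range m → ∃ N ∈ D.ns, ∀ a : Fin D.k, 0 < len n b i (m a) → a.1 ∈ N)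
    (s : ℕ → ℝ) (hC : Corners n b U D m s)
    (hsb : ∀ j < S.sb.length, ((S.sb.getD j (0, 0)).1 : ℝ) ≤ 10000 * s j ∧
      10000 * s j ≤ ((S.sb.getD j (0, 0)).2 : ℝ))
    (hchk : specOk D S = true) (X : ℕ → ℝ)
    (hX : ∀ a : Fin D.k, X a = √(area (HP n b) (n (m a)) (U (m a)) (b (m a)))) :
    ∑ a ∈ range D.k, ((S.F a).c : ℝ) * X a +
      S.t * ∑ i with i ∉ Set.range m, √(area (HP n b) (n i) (U i) (b i)) -
      ∑ j ∈ range D.cor.length, (S.m (D.cor.getD j (0, 0, 0)).1 : ℝ) * s j *
        X (D.cor.getD j (0, 0, 0)).1 ≤ 100000 * L n b := by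
  classical
  -- the angle of a facet
  set Y : Fin D.k → ℝ := fun a => ((S.F a).c : ℝ) - S.m a * s (D.idx a) with hY
  set W : Fin D.k → ℝ := fun a => (max (Y a) 0 / 100000) ^ 2 / 4 with hW
  have hadj : ∀ a c : Fin D.k, 0 < len n b (m a) (m c) → D.adj a c = true := by
    intro a c hac
    have h1 : a ≠ c := by
      rintro rfl
      unfold len at hac
      rw [if_pos rfl] at hac
      exact lt_irrefl _ hac
    have h2 : ¬ ((a.1, c.1) ∈ D.na ∨ (c.1, a.1) ∈ D.na) := fun h => by
      rw [hna a c h] at hac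
      exact lt_irrefl _ hac
    push Not at h2
    simp only [PD.adj, Bool.and_eq_true, decide_eq_true_eq, Bool.not_eq_true', List.contains_iff_mem,
      ne_eq, ← Bool.not_eq_true]
    exact ⟨⟨fun h => h1 (Fin.ext h), h2.1⟩, h2.2⟩
  have hbox : ∀ j, 0 ≤ s j → s j ≤ 1 → ((S.sb.getD j (0, 10000)).1 : ℝ) ≤ 10000 * s j ∧
      10000 * s j ≤ ((S.sb.getD j (0, 10000)).2 : ℝ) := by
    intro j h0 h1
    rcases lt_or_ge j S.sb.length with h | h
    · have h2 := hsb j h
      rw [List.getD_eq_getElem _ _ h] at h2 ⊢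
      exact h2
    · rw [List.getD_eq_default _ _ h]
      constructor
      · push_cast
        linarith
      · push_cast
        linarith
  have hWv : ∀ a, W a ≤ (volume {y : E 2 | ‖y‖ ≤ ((S.F a).w : ℝ) / 10000 ∧
      ∀ c, 0 < len n b (m a) (m c) → inner ℝ (nu n U (m a) (m c)) y ≤
        (S.h a c : ℝ) / 10000}).toReal := by
    intro a
    have hfa := specOk_fac hchk a.2
    rcases hang : (S.F a).ang with _ | A
    · have hp := specOk_plain hchk a.2 hang
      have h1 := facet_plain hAR1 hfa hp (fun c => nu n U (m a) (m c))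
        (fun c => 0 < len n b (m a) (m c)) (fun c hc => hν _ _ hc) (fun c hc => hadj a c hc)
      have h2 : Y a = ((S.F a).c : ℝ) := by
        simp only [hY, Spec.m, hang]
        simp
      have h3 : (0 : ℝ) ≤ ((S.F a).c : ℝ) := by exact_mod_cast facOk_c hfa
      simp only [hW]
      rw [h2, max_eq_left h3]
      exact h1
    · have hp := specOk_ang hchk a.2 hang
      have hidx := ang_idx hp
      obtain ⟨a', j1, j2, hcor, hl1, hl2, h12, hs0, hs1, hin, hn1, hn2, hcone⟩ :=
        hC.cor _ hidx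
      have haa : a' = a := by
        have h1 := idx_mem hidx
        rw [hcor] at h1
        exact Fin.ext h1
      subst haa
      obtain ⟨hb1, hb2⟩ := hbox (D.idx a') hs0 hs1
      have h1 := facet_ang hAR2 hfa hp (fun c => nu n U (m a') (m c))
        (fun c => 0 < len n b (m a') (m c)) (fun c hc => hν _ _ hc) (fun c hc => hadj a' c hc)
        j1 j2 hcor hl1 hl2 h12 hs0 hs1 hin hn1 hn2 hcone hb1 hb2
      have h2 : Y a' = ((S.F a').c : ℝ) - A.m * s (D.idx a') := by
        simp only [hY, Spec.m, hang]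
      simp only [hW]
      rw [h2]
      exact h1
  have key := hF2 ι n b U hF hI D.k m hm (fun a c => (S.h a c : ℝ) / 10000)
    (fun a => ((S.F a).w : ℝ) / 10000) W ((S.t : ℝ) / 100000)
    (fun a c hac => by
      have h1 := facOk_hh (specOk_fac hchk a.2) c.2 (fun h => hac (Fin.ext h))
      have h2 : (S.h a c : ℝ) + S.h c a = 10000 := by exact_mod_cast h1
      rw [← add_div, h2]
      norm_num)
    (fun a c => by
      have h1 : (0 : ℝ) ≤ S.h a c := by exact_mod_cast facOk_h (specOk_fac hchk a.2) c.2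
      positivity)
    (fun a => by
      have h1 := facOk_r (specOk_fac hchk a.2)
      have h2 := facOk_rw (specOk_fac hchk a.2)
      have h3 : (0 : ℝ) < (S.F a).w := by exact_mod_cast lt_of_lt_of_le h1 h2
      positivity)
    (fun a => by positivity)
    (by
      have h1 : (0 : ℝ) ≤ S.t := by exact_mod_cast specOk_t hchk
      positivity)
    hWv
    (fun i hi => by
      obtain ⟨N, hN, hNa⟩ := hns i hi
      exact tail_cond hchk hN (fun a => 0 < len n b i (m a)) hNa)
  -- the named facets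
  have hterm : ∀ a : Fin D.k, Y a * X a / 100000 ≤
      2 * √(area (HP n b) (n (m a)) (U (m a)) (b (m a)) * W a) := by
    intro a
    have hA : 0 ≤ area (HP n b) (n (m a)) (U (m a)) (b (m a)) := ENNReal.toReal_nonneg
    have hXa : 0 ≤ X a := by rw [hX a]; positivity
    have hWe : W a = (max (Y a) 0 / 100000 / 2) ^ 2 := by
      simp only [hW]
      ring
    rw [hWe, Real.sqrt_mul hA, Real.sqrt_sq (by positivity), ← hX a]
    have h1 : Y a ≤ max (Y a) 0 := le_max_left _ _
    have h2 := mul_le_mul_of_nonneg_right h1 hXa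
    have e : 2 * (X a * (max (Y a) 0 / 100000 / 2)) = max (Y a) 0 * X a / 100000 := by ring
    rw [e]
    exact div_le_div_of_nonneg_right h2 (by norm_num)
  have hsumle := sum_le_sum fun (a : Fin D.k) (_ : a ∈ (univ : Finset (Fin D.k))) => hterm a
  -- the slopes
  have hslope : ∑ a : Fin D.k, (S.m a : ℝ) * s (D.idx a) * X a =
      ∑ j ∈ range D.cor.length, (S.m (D.cor.getD j (0, 0, 0)).1 : ℝ) * s j *
        X (D.cor.getD j (0, 0, 0)).1 := by
    have hposlt : ∀ j < D.cor.length, (D.cor.getD j (0, 0, 0)).1 < D.k := by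
      intro j hj
      obtain ⟨a, j1, j2, hcor, _⟩ := hC.cor j hj
      rw [hcor]
      exact a.2
    have hidxp : ∀ j < D.cor.length, D.idx (D.cor.getD j (0, 0, 0)).1 = j := by
      intro j hj
      unfold PD.idx
      rw [List.getD_eq_getElem _ _ hj]
      have h1 : (D.cor[j]).1 = (D.cor.map fun p => p.1)[j]'(by rw [List.length_map]; exact hj) := by
        rw [List.getElem_map]
      rw [h1]
      exact hC.nodup.idxOf_getElem j _
    rw [← Finset.sum_range (fun a => (S.m a : ℝ) * s (D.idx a) * X a)]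
    symm
    refine Finset.sum_of_injOn (fun j => (D.cor.getD j (0, 0, 0)).1) ?_ ?_ ?_ ?_
    · intro j hj j' hj' hjj
      have hj := mem_range.1 (mem_coe.1 hj)
      have hj' := mem_range.1 (mem_coe.1 hj')
      have := congrArg D.idx hjj
      simp only at this
      rwa [hidxp j hj, hidxp j' hj'] at this
    · intro j hj
      exact mem_coe.2 (mem_range.2 (hposlt j (mem_range.1 (mem_coe.1 hj))))
    · intro a ha hna'
      have hz : S.m a = 0 := by
        rcases hang : (S.F a).ang with _ | A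
        · simp only [Spec.m, hang]
        · exfalso
          have hidx := ang_idx (specOk_ang hchk (mem_range.1 ha) hang)
          exact hna' ⟨D.idx a, mem_coe.2 (mem_range.2 hidx), idx_mem hidx⟩
      rw [hz]
      simp
    · intro j hj
      rw [hidxp j (mem_range.1 hj)]
  have hfin : ∑ a : Fin D.k, Y a * X a / 100000 =
      (∑ a ∈ range D.k, ((S.F a).c : ℝ) * X a -
        ∑ j ∈ range D.cor.length, (S.m (D.cor.getD j (0, 0, 0)).1 : ℝ) * s j *
          X (D.cor.getD j (0, 0, 0)).1) / 100000 := by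
    rw [← hslope, Finset.sum_range, ← sum_sub_distrib, Finset.sum_div]
    refine sum_congr rfl fun a _ => ?_
    simp only [hY]
    ring
  rw [hfin] at hsumle
  have e3 : (S.t : ℝ) / 100000 * ∑ i with i ∉ Set.range m, √(area (HP n b) (n i) (U i) (b i)) =
      (S.t : ℝ) * (∑ i with i ∉ Set.range m, √(area (HP n b) (n i) (U i) (b i))) / 100000 := by ring
  rw [e3] at key
  linarith

end Pool.Agent.Work.MP_3892ce_num
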