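import Pool.Agent.Work.MP_3892ce_num.Seg

/-! # Families of the static method as integer data, with a checker (helper74)

Scales: `h, w, r, rho` by `10^4`, `c, t, m` by `10^5`, `s` by `10^4`, angles and roots by `10^9`.
Certificates `(θ, q)` for `seg r d`: `θ` bound for `arccos (d / r)`, `q` bound for `√(r^2 - d^2)`. -/

set_option autoImplicit false

namespace Pool.Agent.Work.MP_3892ce_num

/-- data of a facet with a known angle at a corner with the named neighbours `j1`, `j2`: slope `m`,
upper certificates `w1, w2` for `seg w d1`, `seg w d2`, lower certificates `l1, l2` for `seg r d1`,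
`seg r d2`, lower bounds `ta`, `tb` of `arccos` at the ends of the box -/
structure AngC where
  m : ℤ
  w1 : ℤ × ℤ
  w2 : ℤ × ℤ
  l1 : ℤ × ℤ
  l2 : ℤ × ℤ
  ta : ℤ
  tb : ℤ

/-- data of a named facet: coefficient `c`, weight `w` against the other facets, base radius `r`,
weights `h` against the named facets, certificates `tq` for `sg r h` -/
structure FacC where
  c : ℤ
  w : ℤ
  r : ℤ
  h : List ℤ
  tq : List (ℤ × ℤ)
  ang : Option AngC

/-- radius for the unnamed facets with a given set of named neighbours, certificates for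
`sg rho (10000 - w_a)` (index: the named facet `a`) -/
structure TailC where
  rho : ℤ
  tq : List (ℤ × ℤ)

/-- a family: `t` coefficient of the unnamed facets, `tl` data for the sets of named neighbours (same
order as `PD.ns`), `rho2` radius for the unnamed neighbours of a facet with weight above `1`, `sb`
box of the angles -/
structure Spec where
  f : List FacC
  t : ℤ
  tl : List TailC
  rho2 : ℤ
  sb : List (ℤ × ℤ)

/-- data of a problem: number of named facets, pairs which are not adjacent, possible sets of named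
neighbours of an unnamed facet, corners `(facet, neighbour, neighbour)` -/
structure PD where
  k : ℕ
  na : List (ℕ × ℕ)
  ns : List (List ℕ)
  cor : List (ℕ × ℕ × ℕ)

def Spec.F (S : Spec) (a : ℕ) : FacC := S.f.getD a ⟨0, 0, 0, [], [], none⟩

def Spec.h (S : Spec) (a c : ℕ) : ℤ := (S.F a).h.getD c 5000

/-- the pair may be adjacent -/
def PD.adj (D : PD) (a c : ℕ) : Bool :=
  decide (a ≠ c) && !(D.na.contains (a, c)) && !(D.na.contains (c, a))

/-- upper bound for `∑ sg r h`, scale `10^17` -/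
def sumU (D : PD) (S : Spec) (a : ℕ) : ℤ :=
  ((List.range D.k).map fun c => if D.adj a c then
    sgC (S.F a).r (S.h a c) ((S.F a).tq.getD c (0, 0)).1 ((S.F a).tq.getD c (0, 0)).2 else 0).sum

def facOk (D : PD) (S : Spec) (a : ℕ) : Bool :=
  decide (0 < (S.F a).r) && decide ((S.F a).r ≤ (S.F a).w) && decide (0 ≤ (S.F a).c) &&
  (List.range D.k).all fun c => decide (0 ≤ S.h a c) &&
    (decide (a = c) || decide (S.h a c + S.h c a = 10000)) &&
    (!(D.adj a c) ||
      sgCok (S.F a).r (S.h a c) ((S.F a).tq.getD c (0, 0)).1 ((S.F a).tq.getD c (0, 0)).2)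

/-- lower bound of `π r^2 - ∑ sg r h`, scale `10^17` -/
def areaP (D : PD) (S : Spec) (a : ℕ) : ℤ := 3141592650 * ((S.F a).r * (S.F a).r) - sumU D S a

def plainOk (D : PD) (S : Spec) (a : ℕ) : Bool :=
  decide ((S.F a).c * (S.F a).c * 10000000 ≤ 4 * areaP D S a)

def PD.idx (D : PD) (a : ℕ) : ℕ := (D.cor.map fun p => p.1).idxOf a

def angOk (D : PD) (S : Spec) (a : ℕ) (A : AngC) : Bool :=
  let F := S.F a
  let j := D.idx a
  let p := D.cor.getD j (0, 0, 0)
  let d1 := S.h a p.2.1
  let d2 := S.h a p.2.2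
  let sb := S.sb.getD j (0, 10000)
  let P := areaP D S a
  let L1 := sgUv F.r d1 A.l1.1 A.l1.2
  let L2 := sgUv F.r d2 A.l2.1 A.l2.2
  let E2 := sgUv F.w d1 A.w1.1 A.w1.2 + sgUv F.w d2 A.w2.1 A.w2.2 - L1 - L2
  let B := F.w * F.w - F.r * F.r
  let Xa := F.c * 10000 - A.m * sb.1
  let Xb := F.c * 10000 - A.m * sb.2
  let Lm := 2 * min L1 L2
  decide (j < D.cor.length) && decide (0 ≤ sb.1) && decide (sb.1 ≤ sb.2) &&
  decide (sb.2 ≤ 10000) &&
  sgUok F.w d1 A.w1.1 A.w1.2 && sgUok F.w d2 A.w2.1 A.w2.2 &&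
  sgLok F.r d1 A.l1.1 A.l1.2 && sgLok F.r d2 A.l2.1 A.l2.2 &&
  acLB sb.1 10000 A.ta 1000000000 && acLB sb.2 10000 A.tb 1000000000 &&
  decide (0 ≤ 2 * P - E2 + 2 * B * A.tb) &&
  (decide (Xa ≤ 0) || decide (Xa * Xa ≤ 20 * (2 * P + min (2 * B * A.ta - E2) Lm))) &&
  (decide (Xb ≤ 0) || decide (Xb * Xb ≤ 20 * (2 * P + min (2 * B * A.tb - E2) Lm)))

/-- upper bound for `∑ sg rho (1 - w)` over the set `N` of named neighbours, scale `10^17` -/
def tailU (S : Spec) (T : TailC) (N : List ℕ) : ℤ :=
  (N.map fun a => if 10000 < (S.F a).w then 0 else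
    sgC T.rho (10000 - (S.F a).w) (T.tq.getD a (0, 0)).1 (T.tq.getD a (0, 0)).2).sum

/-- coefficient `0` of the unnamed facets -/
def tail0 (S : Spec) (N : List ℕ) : Bool :=
  decide (S.t = 0) && (N.all fun a0 => decide ((S.F a0).w < 10000) ||
    ((N.all fun a => decide (a = a0) || decide ((S.F a0).w - 10000 ≤ 10000 - (S.F a).w)) &&
      decide ((S.F a0).w - 10000 ≤ 5000)))

def tailOk (S : Spec) (T : TailC) (N : List ℕ) : Bool :=
  tail0 S N || (
  decide (0 < T.rho) && decide (T.rho ≤ 5000) &&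
  (N.all fun a => decide (10000 < (S.F a).w) ||
    sgCok T.rho (10000 - (S.F a).w) (T.tq.getD a (0, 0)).1 (T.tq.getD a (0, 0)).2) &&
  decide (S.t * S.t * 10000000 ≤ 4 * (3141592650 * (T.rho * T.rho) - tailU S T N)) &&
  (N.all fun a0 => decide ((S.F a0).w ≤ 10000) ||
    ((N.all fun a => decide (a = a0) ||
      decide ((S.F a0).w - 10000 + 2 * S.rho2 ≤ 10000 - (S.F a).w)) &&
    decide ((S.F a0).w - 10000 + 2 * S.rho2 ≤ 5000) && decide (0 ≤ S.rho2) &&
    decide (S.t * S.t * 1000000 ≤ 4 * 314159265 * (S.rho2 * S.rho2)))))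

def specOk (D : PD) (S : Spec) : Bool :=
  decide (0 ≤ S.t) && ((List.range D.k).all fun a => facOk D S a &&
    (match (S.F a).ang with
      | none => plainOk D S a
      | some A => angOk D S a A)) &&
  (List.range D.ns.length).all fun i =>
    decide ((D.ns.getD i []).Nodup) && ((D.ns.getD i []).all fun a => decide (a < D.k)) &&
    tailOk S (S.tl.getD i ⟨0, []⟩) (D.ns.getD i [])

/-- slope of the facet `a` -/
def Spec.m (S : Spec) (a : ℕ) : ℤ := match (S.F a).ang with
  | none => 0
  | some A => A.m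

end Pool.Agent.Work.MP_3892ce_num
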