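import Pool.Agent.Work.MP_3892ce_num.SpecDefs

/-! # A fast version of the checker of the families (helper74)

The Taylor polynomials are evaluated with natural numbers; `specOkF D S = specOk D S`. -/

set_option autoImplicit false

namespace Pool.Agent.Work.MP_3892ce_num

/-- positive part of the upper Taylor polynomial, `a = t^2`, `D = 10^9` -/
def upP (a2 : ℕ) : ℕ :=
  Nat.add 20922789888000000000000000000000000000000000000000000000000000000000000000000000000000000000000000000000000000000000000000000000000000000000000000000000000000 (Nat.mul a2 (Nat.add 871782912000000000000000000000000000000000000000000000000000000000000000000000000000000000000000000000000000000000000000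
    (Nat.mul a2 (Nat.add 518918400000000000000000000000000000000000000000000000000000000000000000000000000 (Nat.mul a2 (Nat.add 43680000000000000000000000000000000000000 a2))))))

/-- positive part of the lower Taylor polynomial -/
def loP (a2 : ℕ) : ℕ :=
  Nat.add 20922789888000000000000000000000000000000000000000000000000000000000000000000000000000000000000000000000000000000000000000000000000000000000000000000000000000 (Nat.mul a2 (Nat.add 871782912000000000000000000000000000000000000000000000000000000000000000000000000000000000000000000000000000000000000000
    (Nat.mul a2 (Nat.add 518918400000000000000000000000000000000000000000000000000000000000000000000000000 (Nat.mul a2 43680000000000000000000000000000000000000)))))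

/-- negative part -/
def ngP (a a2 : ℕ) : ℕ :=
  Nat.mul a (Nat.add 10461394944000000000000000000000000000000000000000000000000000000000000000000000000000000000000000000000000000000000000000000000000000000000 (Nat.mul a2 (Nat.add 29059430400000000000000000000000000000000000000000000000000000000000000000000000000000000000000000000
    (Nat.mul a2 (Nat.add 5765760000000000000000000000000000000000000000000000000000000 (Nat.mul a2 240000000000000000000))))))

def sqN (t : ℤ) : ℕ := Nat.mul t.natAbs t.natAbs

theorem sqN_cast (t : ℤ) : ((sqN t : ℕ) : ℤ) = t * t := by
  unfold sqN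
  rw [Nat.mul_eq, Nat.cast_mul, Int.natCast_natAbs, abs_mul_abs_self]

theorem cUp_eq (t : ℤ) : cUp t 1000000000 =
    (upP (Nat.mul (sqN t) (sqN t)) : ℤ) - (ngP (sqN t) (Nat.mul (sqN t) (sqN t)) : ℤ) := by
  unfold cUp upP ngP
  simp only [Nat.add_eq, Nat.mul_eq]
  push_cast
  rw [sqN_cast]
  ring

theorem cLo_eq (t : ℤ) : cLo t 1000000000 =
    (loP (Nat.mul (sqN t) (sqN t)) : ℤ) - (ngP (sqN t) (Nat.mul (sqN t) (sqN t)) : ℤ) := by
  unfold cLo loP ngP
  simp only [Nat.add_eq, Nat.mul_eq]
  push_cast
  rw [sqN_cast]
  ring

theorem dD_eq : dD 1000000000 = 20922789888000000000000000000000000000000000000000000000000000000000000000000000000000000000000000000000000000000000000000000000000000000000000000000000000000 := by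
  unfold dD
  norm_num

/-- fast version of `acUB` -/
def acUBF (p q t : ℤ) : Bool :=
  decide (0 ≤ t) && decide (t ≤ 3000000000) && decide (0 < q) &&
    decide (Int.mul (upP (Nat.mul (sqN t) (sqN t))) q ≤ Int.add
      (Int.mul p 20922789888000000000000000000000000000000000000000000000000000000000000000000000000000000000000000000000000000000000000000000000000000000000000000000000000000)
      (Int.mul (ngP (sqN t) (Nat.mul (sqN t) (sqN t))) q))

/-- fast version of `acLB` -/
def acLBF (p q t : ℤ) : Bool :=
  decide (0 ≤ t) && decide (t ≤ 3000000000) && decide (0 < q) &&
    decide (Int.add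
      (Int.mul p 20922789888000000000000000000000000000000000000000000000000000000000000000000000000000000000000000000000000000000000000000000000000000000000000000000000000000)
      (Int.mul (ngP (sqN t) (Nat.mul (sqN t) (sqN t))) q) ≤
      Int.mul (loP (Nat.mul (sqN t) (sqN t))) q)

theorem acUBF_eq (p q t : ℤ) : acUBF p q t = acUB p q t 1000000000 := by
  unfold acUBF acUB
  have h1 : decide ((0 : ℤ) < 1000000000) = true := by decide
  have h2 : (3 : ℤ) * 1000000000 = 3000000000 := by norm_num
  rw [h1, h2, Bool.true_and, cUp_eq, dD_eq]
  congr 1
  apply decide_eq_decide.2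
  simp only [Int.mul_def, Int.add_def]
  constructor <;> intro h <;> linarith

theorem acLBF_eq (p q t : ℤ) : acLBF p q t = acLB p q t 1000000000 := by
  unfold acLBF acLB
  have h1 : decide ((0 : ℤ) < 1000000000) = true := by decide
  have h2 : (3 : ℤ) * 1000000000 = 3000000000 := by norm_num
  rw [h1, h2, Bool.true_and, cLo_eq, dD_eq]
  congr 1
  apply decide_eq_decide.2
  simp only [Int.mul_def, Int.add_def]
  constructor <;> intro h <;> linarith

end Pool.Agent.Work.MP_3892ce_num
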