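import Mathlib

/-! # Taylor bounds for `cos`, rational bounds for `arccos` (helper74)

`(-1)^n (cos x - cT n x) ≥ 0` for `x ≥ 0`, `n ≥ 1`. Integer checkers for `cos (t / D) ≤ p / q`. -/

set_option autoImplicit false

open Finset Real

namespace Pool.Agent.Work.MP_3892ce_num

/-- Taylor polynomial of `cos` with `n` terms -/
noncomputable def cT (n : ℕ) (x : ℝ) : ℝ :=
  ∑ k ∈ range n, (-1) ^ k * x ^ (2 * k) / ((2 * k).factorial : ℝ)

/-- Taylor polynomial of `sin` with `n` terms -/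
noncomputable def sT (n : ℕ) (x : ℝ) : ℝ :=
  ∑ k ∈ range n, (-1) ^ k * x ^ (2 * k + 1) / ((2 * k + 1).factorial : ℝ)

theorem sT_deriv (n : ℕ) (x : ℝ) : HasDerivAt (sT n) (cT n x) x := by
  have : ∀ k ∈ range n, HasDerivAt (fun y : ℝ => (-1) ^ k * y ^ (2 * k + 1) /
      ((2 * k + 1).factorial : ℝ)) ((-1) ^ k * x ^ (2 * k) / ((2 * k).factorial : ℝ)) x := by
    intro k _
    have h := ((hasDerivAt_pow (2 * k + 1) x).const_mul ((-1 : ℝ) ^ k)).div_const
      ((2 * k + 1).factorial : ℝ)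
    refine h.congr_deriv ?_
    rw [Nat.factorial_succ, Nat.add_sub_cancel]
    have h1 : ((2 * k).factorial : ℝ) ≠ 0 := by positivity
    have h2 : ((2 * k + 1 : ℕ) : ℝ) ≠ 0 := by positivity
    rw [Nat.cast_mul]
    field_simp
  exact HasDerivAt.fun_sum this

theorem cT_deriv (n : ℕ) (x : ℝ) : HasDerivAt (cT (n + 1)) (-sT n x) x := by
  have h0 : cT (n + 1) = fun y => (∑ k ∈ range n, (-1) ^ (k + 1) * y ^ (2 * (k + 1)) /
      ((2 * (k + 1)).factorial : ℝ)) + 1 := by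
    funext y
    unfold cT
    rw [sum_range_succ']
    simp
  have : ∀ k ∈ range n, HasDerivAt (fun y : ℝ => (-1) ^ (k + 1) * y ^ (2 * (k + 1)) /
      ((2 * (k + 1)).factorial : ℝ)) (-((-1) ^ k * x ^ (2 * k + 1) /
        ((2 * k + 1).factorial : ℝ))) x := by
    intro k _
    have h := ((hasDerivAt_pow (2 * (k + 1)) x).const_mul ((-1 : ℝ) ^ (k + 1))).div_const
      ((2 * (k + 1)).factorial : ℝ)
    refine h.congr_deriv ?_
    have e1 : 2 * (k + 1) = 2 * k + 1 + 1 := by ring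
    rw [e1, Nat.factorial_succ (2 * k + 1), Nat.add_sub_cancel]
    have h1 : ((2 * k + 1).factorial : ℝ) ≠ 0 := by positivity
    have h2 : ((2 * k + 1 + 1 : ℕ) : ℝ) ≠ 0 := by positivity
    rw [Nat.cast_mul]
    field_simp
    ring
  have h := (HasDerivAt.fun_sum this).add_const (1 : ℝ)
  rw [← h0] at h
  refine h.congr_deriv ?_
  unfold sT
  rw [sum_neg_distrib]

theorem mono_zero {f f' : ℝ → ℝ} (hf : ∀ x, HasDerivAt f (f' x) x) (h0 : f 0 = 0)
    (hp : ∀ x, 0 ≤ x → 0 ≤ f' x) {x : ℝ} (hx : 0 ≤ x) : 0 ≤ f x := by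
  have hm : MonotoneOn f (Set.Ici 0) := by
    refine monotoneOn_of_deriv_nonneg (convex_Ici 0)
      (fun y _ => (hf y).continuousAt.continuousWithinAt)
      (fun y _ => (hf y).differentiableAt.differentiableWithinAt) fun y hy => ?_
    rw [(hf y).deriv]
    rw [interior_Ici] at hy
    exact hp y (le_of_lt hy)
  have := hm (Set.mem_Ici.2 le_rfl) (Set.mem_Ici.2 hx) hx
  rwa [h0] at this

theorem sT_zero (n : ℕ) : sT n 0 = 0 := by
  unfold sT
  refine sum_eq_zero fun k _ => ?_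
  rw [zero_pow (by omega)]
  simp

theorem cT_zero (n : ℕ) : cT (n + 1) 0 = 1 := by
  unfold cT
  rw [sum_range_succ', sum_eq_zero fun k _ => by rw [zero_pow (by omega)]; simp]
  simp

/-- alternating Taylor bounds -/
theorem taylor (n : ℕ) : (∀ x, 0 ≤ x → 0 ≤ (-1) ^ (n + 1) * (cos x - cT (n + 1) x)) ∧
    ∀ x, 0 ≤ x → 0 ≤ (-1) ^ (n + 1) * (sin x - sT (n + 1) x) := by
  induction n with
  | zero =>
    have h1 : ∀ x, 0 ≤ x → 0 ≤ (-1) ^ (0 + 1) * (cos x - cT (0 + 1) x) := by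
      intro x _
      have := cos_le_one x
      simp only [cT, zero_add, range_one, sum_singleton]
      simp
      linarith
    refine ⟨h1, fun x hx => ?_⟩
    refine mono_zero (f := fun x => (-1) ^ (0 + 1) * (sin x - sT (0 + 1) x))
      (f' := fun x => (-1) ^ (0 + 1) * (cos x - cT (0 + 1) x)) (fun y => ?_) ?_ h1 hx
    · exact ((hasDerivAt_sin y).sub (sT_deriv _ y)).const_mul _
    · rw [sin_zero, sT_zero]
      ring
  | succ n ih =>
    have h1 : ∀ x, 0 ≤ x → 0 ≤ (-1) ^ (n + 1 + 1) * (cos x - cT (n + 1 + 1) x) := by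
      intro x hx
      refine mono_zero (f := fun x => (-1) ^ (n + 1 + 1) * (cos x - cT (n + 1 + 1) x))
        (f' := fun x => (-1) ^ (n + 1) * (sin x - sT (n + 1) x)) (fun y => ?_) ?_ ih.2 hx
      · have h := ((hasDerivAt_cos y).sub (cT_deriv (n + 1) y)).const_mul ((-1 : ℝ) ^ (n + 1 + 1))
        refine h.congr_deriv ?_
        ring
      · rw [cos_zero, cT_zero]
        ring
    refine ⟨h1, fun x hx => ?_⟩
    refine mono_zero (f := fun x => (-1) ^ (n + 1 + 1) * (sin x - sT (n + 1 + 1) x))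
      (f' := fun x => (-1) ^ (n + 1 + 1) * (cos x - cT (n + 1 + 1) x)) (fun y => ?_) ?_ h1 hx
    · exact ((hasDerivAt_sin y).sub (sT_deriv _ y)).const_mul _
    · rw [sin_zero, sT_zero]
      ring

theorem cos_ge {x : ℝ} (hx : 0 ≤ x) : 1 - x ^ 2 / 2 + x ^ 4 / 24 - x ^ 6 / 720 + x ^ 8 / 40320 -
    x ^ 10 / 3628800 + x ^ 12 / 479001600 - x ^ 14 / 87178291200 ≤ cos x := by
  have h := (taylor 7).1 x hx
  simp only [cT, sum_range_succ, sum_range_zero, Nat.factorial] at h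
  norm_num at h
  linarith

theorem cos_le {x : ℝ} (hx : 0 ≤ x) : cos x ≤ 1 - x ^ 2 / 2 + x ^ 4 / 24 - x ^ 6 / 720 +
    x ^ 8 / 40320 - x ^ 10 / 3628800 + x ^ 12 / 479001600 - x ^ 14 / 87178291200 +
      x ^ 16 / 20922789888000 := by
  have h := (taylor 8).1 x hx
  simp only [cT, sum_range_succ, sum_range_zero, Nat.factorial] at h
  norm_num at h
  linarith

/-- `arccos q ≤ θ` -/
theorem arccos_le {q θ : ℝ} (h0 : 0 ≤ θ) (h1 : θ ≤ 3) (h : cos θ ≤ q) : arccos q ≤ θ := by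
  rw [← arccos_cos h0 (h1.trans pi_gt_three.le)]
  exact arccos_le_arccos h

/-- `θ ≤ arccos q` -/
theorem le_arccos {q θ : ℝ} (h0 : 0 ≤ θ) (h1 : θ ≤ 3) (h : q ≤ cos θ) : θ ≤ arccos q := by
  rw [← arccos_cos h0 (h1.trans pi_gt_three.le)]
  exact arccos_le_arccos h

/-- numerator of the upper Taylor polynomial at `t / D` (denominator `D^16 16!`) -/
def cUp (t D : ℤ) : ℤ :=
  let a := t * t
  let e := D * D
  let e2 := e * e
  let e4 := e2 * e2
  let a2 := a * a
  let a4 := a2 * a2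
  20922789888000 * (e4 * e4) - 10461394944000 * (a * e * e2 * e4) + 871782912000 * (a2 * e2 * e4) -
    29059430400 * (a * a2 * e * e4) + 518918400 * (a4 * e4) - 5765760 * (a * a4 * e * e2) +
    43680 * (a2 * a4 * e2) - 240 * (a * a2 * a4 * e) + a4 * a4

/-- numerator of the lower Taylor polynomial at `t / D` (denominator `D^16 16!`) -/
def cLo (t D : ℤ) : ℤ :=
  let a := t * t
  let e := D * D
  let e2 := e * e
  let e4 := e2 * e2
  let a2 := a * a
  let a4 := a2 * a2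
  20922789888000 * (e4 * e4) - 10461394944000 * (a * e * e2 * e4) + 871782912000 * (a2 * e2 * e4) -
    29059430400 * (a * a2 * e * e4) + 518918400 * (a4 * e4) - 5765760 * (a * a4 * e * e2) +
    43680 * (a2 * a4 * e2) - 240 * (a * a2 * a4 * e)

/-- `D^16 16!` -/
def dD (D : ℤ) : ℤ :=
  let e := D * D
  let e2 := e * e
  let e4 := e2 * e2
  20922789888000 * (e4 * e4)

theorem cos_le_cUp {t D : ℤ} (ht : 0 ≤ t) (hD : 0 < D) :
    cos ((t : ℝ) / D) * (dD D : ℝ) ≤ (cUp t D : ℝ) := by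
  have hD' : (0 : ℝ) < D := by exact_mod_cast hD
  have ht' : (0 : ℝ) ≤ t := by exact_mod_cast ht
  have h := cos_le (x := (t : ℝ) / D) (by positivity)
  have hp : (0 : ℝ) < (dD D : ℝ) := by
    unfold dD
    push_cast
    positivity
  refine (mul_le_mul_of_nonneg_right h hp.le).trans (le_of_eq ?_)
  unfold cUp dD
  push_cast
  field_simp
  ring

theorem cLo_le_cos {t D : ℤ} (ht : 0 ≤ t) (hD : 0 < D) :
    (cLo t D : ℝ) ≤ cos ((t : ℝ) / D) * (dD D : ℝ) := by
  have hD' : (0 : ℝ) < D := by exact_mod_cast hD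
  have ht' : (0 : ℝ) ≤ t := by exact_mod_cast ht
  have h := cos_ge (x := (t : ℝ) / D) (by positivity)
  have hp : (0 : ℝ) < (dD D : ℝ) := by
    unfold dD
    push_cast
    positivity
  refine (le_of_eq ?_).trans (mul_le_mul_of_nonneg_right h hp.le)
  unfold cLo dD
  push_cast
  field_simp
  ring

/-- checks `arccos (p / q) ≤ t / D` -/
def acUB (p q t D : ℤ) : Bool :=
  decide (0 < D) && decide (0 ≤ t) && decide (t ≤ 3 * D) && decide (0 < q) &&
    decide (cUp t D * q ≤ p * dD D)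

/-- checks `t / D ≤ arccos (p / q)` -/
def acLB (p q t D : ℤ) : Bool :=
  decide (0 < D) && decide (0 ≤ t) && decide (t ≤ 3 * D) && decide (0 < q) &&
    decide (p * dD D ≤ cLo t D * q)

theorem acUB_spec {p q t D : ℤ} (h : acUB p q t D = true) :
    arccos ((p : ℝ) / q) ≤ (t : ℝ) / D := by
  simp only [acUB, Bool.and_eq_true, decide_eq_true_eq] at h
  obtain ⟨⟨⟨⟨hD, ht⟩, h3⟩, hq⟩, h⟩ := h
  have hD' : (0 : ℝ) < D := by exact_mod_cast hD
  have ht' : (0 : ℝ) ≤ t := by exact_mod_cast ht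
  have hq' : (0 : ℝ) < q := by exact_mod_cast hq
  have h3' : (t : ℝ) ≤ 3 * D := by exact_mod_cast h3
  have hp : (0 : ℝ) < (dD D : ℝ) := by
    unfold dD
    push_cast
    positivity
  refine arccos_le (by positivity) (by rw [div_le_iff₀ hD']; exact h3') ?_
  rw [le_div_iff₀ hq']
  have h1 := cos_le_cUp ht hD
  have h2 : (cUp t D : ℝ) * q ≤ p * (dD D : ℝ) := by exact_mod_cast h
  have h4 : cos ((t : ℝ) / D) * q * (dD D : ℝ) ≤ p * (dD D : ℝ) := by
    calc cos ((t : ℝ) / D) * q * (dD D : ℝ) = cos ((t : ℝ) / D) * (dD D : ℝ) * q := by ring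
      _ ≤ (cUp t D : ℝ) * q := mul_le_mul_of_nonneg_right h1 hq'.le
      _ ≤ _ := h2
  exact le_of_mul_le_mul_right h4 hp

theorem acLB_spec {p q t D : ℤ} (h : acLB p q t D = true) :
    (t : ℝ) / D ≤ arccos ((p : ℝ) / q) := by
  simp only [acLB, Bool.and_eq_true, decide_eq_true_eq] at h
  obtain ⟨⟨⟨⟨hD, ht⟩, h3⟩, hq⟩, h⟩ := h
  have hD' : (0 : ℝ) < D := by exact_mod_cast hD
  have ht' : (0 : ℝ) ≤ t := by exact_mod_cast ht
  have hq' : (0 : ℝ) < q := by exact_mod_cast hq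
  have h3' : (t : ℝ) ≤ 3 * D := by exact_mod_cast h3
  have hp : (0 : ℝ) < (dD D : ℝ) := by
    unfold dD
    push_cast
    positivity
  refine le_arccos (by positivity) (by rw [div_le_iff₀ hD']; exact h3') ?_
  rw [div_le_iff₀ hq']
  have h1 := cLo_le_cos ht hD
  have h2 : (p : ℝ) * (dD D : ℝ) ≤ (cLo t D : ℝ) * q := by exact_mod_cast h
  have h4 : p * (dD D : ℝ) ≤ cos ((t : ℝ) / D) * q * (dD D : ℝ) := by
    calc (p : ℝ) * (dD D : ℝ) ≤ (cLo t D : ℝ) * q := h2
      _ ≤ cos ((t : ℝ) / D) * (dD D : ℝ) * q := mul_le_mul_of_nonneg_right h1 hq'.le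
      _ = _ := by ring
  exact le_of_mul_le_mul_right h4 hp

end Pool.Agent.Work.MP_3892ce_num
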